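import Mathlib

/-! Finite probability: the law of a p-random subset of a finite set, elementary version. -/

namespace R851CS
open Finset

/-- Expectation of `f A` for `A` a `p`-random subset of `G`. -/
noncomputable def Ex (p : ℝ) (G : Finset ℕ) (f : Finset ℕ → ℝ) : ℝ :=
  ∑ A ∈ G.powerset, p ^ A.card * (1 - p) ^ (G.card - A.card) * f A

theorem Ex_const (p : ℝ) (G : Finset ℕ) (c : ℝ) : Ex p G (fun _ => c) = c := by
  unfold Ex
  rw [← Finset.sum_mul, Finset.sum_pow_mul_eq_add_pow]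
  simp

theorem Ex_pow (p t : ℝ) (G : Finset ℕ) :
    Ex p G (fun A => t ^ A.card) = (p * t + (1 - p)) ^ G.card := by
  unfold Ex
  rw [← Finset.sum_pow_mul_eq_add_pow]
  apply Finset.sum_congr rfl
  intro A _
  rw [mul_pow]; ring

theorem wt_nonneg {p : ℝ} (h0 : 0 ≤ p) (h1 : p ≤ 1) (G A : Finset ℕ) :
    0 ≤ p ^ A.card * (1 - p) ^ (G.card - A.card) :=
  mul_nonneg (pow_nonneg h0 _) (pow_nonneg (by linarith) _)

theorem Ex_mono {p : ℝ} (h0 : 0 ≤ p) (h1 : p ≤ 1) {G : Finset ℕ} {f g : Finset ℕ → ℝ}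
    (h : ∀ A ⊆ G, f A ≤ g A) : Ex p G f ≤ Ex p G g := by
  unfold Ex
  apply Finset.sum_le_sum
  intro A hA
  exact mul_le_mul_of_nonneg_left (h A (Finset.mem_powerset.1 hA)) (wt_nonneg h0 h1 G A)

theorem Ex_congr {p : ℝ} {G : Finset ℕ} {f g : Finset ℕ → ℝ}
    (h : ∀ A ⊆ G, f A = g A) : Ex p G f = Ex p G g := by
  unfold Ex
  apply Finset.sum_congr rfl
  intro A hA
  rw [h A (Finset.mem_powerset.1 hA)]

theorem Ex_nonneg {p : ℝ} (h0 : 0 ≤ p) (h1 : p ≤ 1) {G : Finset ℕ} {f : Finset ℕ → ℝ}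
    (h : ∀ A ⊆ G, 0 ≤ f A) : 0 ≤ Ex p G f := by
  unfold Ex
  apply Finset.sum_nonneg
  intro A hA
  exact mul_nonneg (wt_nonneg h0 h1 G A) (h A (Finset.mem_powerset.1 hA))

theorem Ex_add (p : ℝ) (G : Finset ℕ) (f g : Finset ℕ → ℝ) :
    Ex p G (fun A => f A + g A) = Ex p G f + Ex p G g := by
  unfold Ex
  rw [← Finset.sum_add_distrib]
  apply Finset.sum_congr rfl
  intros; ring

theorem Ex_mul_left (p : ℝ) (G : Finset ℕ) (c : ℝ) (f : Finset ℕ → ℝ) :
    Ex p G (fun A => c * f A) = c * Ex p G f := by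
  unfold Ex
  rw [Finset.mul_sum]
  apply Finset.sum_congr rfl
  intros; ring

theorem Ex_sum {ι : Type*} (p : ℝ) (G : Finset ℕ) (s : Finset ι) (f : ι → Finset ℕ → ℝ) :
    Ex p G (fun A => ∑ i ∈ s, f i A) = ∑ i ∈ s, Ex p G (f i) := by
  unfold Ex
  rw [Finset.sum_comm]
  apply Finset.sum_congr rfl
  intro A _
  rw [Finset.mul_sum]

theorem Ex_union (p : ℝ) {G1 G2 : Finset ℕ} (hd : Disjoint G1 G2) (f : Finset ℕ → ℝ) :
    Ex p (G1 ∪ G2) f = Ex p G1 (fun A => Ex p G2 (fun B => f (A ∪ B))) := by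
  unfold Ex
  simp only [Finset.mul_sum]
  rw [← Finset.sum_product']
  symm
  apply Finset.sum_bij' (fun (x : Finset ℕ × Finset ℕ) _ => x.1 ∪ x.2)
    (fun A _ => (A ∩ G1, A ∩ G2))
  · intro x hx
    simp only [Finset.mem_product, Finset.mem_powerset] at hx ⊢
    exact Finset.union_subset_union hx.1 hx.2
  · intro A hA
    simp
  · intro x hx
    simp only [Finset.mem_product, Finset.mem_powerset] at hx
    ext1
    · ext a
      simp only [Finset.mem_inter, Finset.mem_union]
      constructor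
      · rintro ⟨h | h, h'⟩
        · exact h
        · exact absurd (hx.2 h) (Finset.disjoint_left.1 hd h')
      · intro h; exact ⟨Or.inl h, hx.1 h⟩
    · ext a
      simp only [Finset.mem_inter, Finset.mem_union]
      constructor
      · rintro ⟨h | h, h'⟩
        · exact absurd h' (Finset.disjoint_left.1 hd (hx.1 h))
        · exact h
      · intro h; exact ⟨Or.inr h, hx.2 h⟩
  · intro A hA
    rw [Finset.mem_powerset] at hA
    simp only
    rw [← Finset.inter_union_distrib_left]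
    exact Finset.inter_eq_left.2 hA
  · intro x hx
    simp only [Finset.mem_product, Finset.mem_powerset] at hx
    have hd' : Disjoint x.1 x.2 := Finset.disjoint_of_subset_left hx.1 (Finset.disjoint_of_subset_right hx.2 hd)
    rw [Finset.card_union_of_disjoint hd', Finset.card_union_of_disjoint hd]
    have h1 := Finset.card_le_card hx.1
    have h2 := Finset.card_le_card hx.2
    have : G1.card + G2.card - (x.1.card + x.2.card) = (G1.card - x.1.card) + (G2.card - x.2.card) := by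
      omega
    rw [this, pow_add, pow_add]
    ring

/-- independence of the parts of `A` outside and inside `T` -/
theorem Ex_indep (p : ℝ) {G T : Finset ℕ} (hT : T ⊆ G) (f h : Finset ℕ → ℝ)
    (hf : ∀ A ⊆ G, f A = f (A \ T)) (hh : ∀ A ⊆ G, h A = h (A ∩ T)) :
    Ex p G (fun A => f A * h A) = Ex p G f * Ex p G h := by
  have hd : Disjoint (G \ T) T := Finset.sdiff_disjoint
  have hG : G = (G \ T) ∪ T := (Finset.sdiff_union_of_subset hT).symm
  have key : ∀ F : Finset ℕ → ℝ, Ex p G F = Ex p (G \ T) (fun A => Ex p T (fun B => F (A ∪ B))) := by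
    intro F
    conv_lhs => rw [hG]
    exact Ex_union p hd F
  have hf' : ∀ A ⊆ G \ T, ∀ B ⊆ T, f (A ∪ B) = f A := by
    intro A hA B hB
    have hAG : A ⊆ G := hA.trans Finset.sdiff_subset
    have h1 : A ∪ B ⊆ G := Finset.union_subset hAG (hB.trans hT)
    rw [hf _ h1, hf A hAG]
    congr 1
    ext a
    simp only [Finset.mem_sdiff, Finset.mem_union]
    constructor
    · rintro ⟨h | h, h'⟩
      · exact ⟨h, h'⟩
      · exact absurd (hB h) h'
    · rintro ⟨h, h'⟩; exact ⟨Or.inl h, h'⟩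
  have hh' : ∀ A ⊆ G \ T, ∀ B ⊆ T, h (A ∪ B) = h B := by
    intro A hA B hB
    have hAG : A ⊆ G := hA.trans Finset.sdiff_subset
    have h1 : A ∪ B ⊆ G := Finset.union_subset hAG (hB.trans hT)
    rw [hh _ h1, hh B (hB.trans hT)]
    congr 1
    ext a
    simp only [Finset.mem_inter, Finset.mem_union]
    constructor
    · rintro ⟨h | h, h'⟩
      · exact absurd h' (Finset.mem_sdiff.1 (hA h)).2
      · exact ⟨h, h'⟩
    · rintro ⟨h, h'⟩; exact ⟨Or.inr h, h'⟩
  rw [key, key f, key h]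
  have e1 : Ex p (G \ T) (fun A => Ex p T (fun B => f (A ∪ B) * h (A ∪ B)))
      = Ex p (G \ T) (fun A => Ex p T h * f A) := by
    apply Ex_congr
    intro A hA
    rw [mul_comm, ← Ex_mul_left]
    apply Ex_congr
    intro B hB
    rw [hf' A hA B hB, hh' A hA B hB]
  have e2 : Ex p (G \ T) (fun A => Ex p T (fun B => f (A ∪ B))) = Ex p (G \ T) f := by
    apply Ex_congr
    intro A hA
    rw [← Ex_const p T (f A)]
    apply Ex_congr
    intro B hB
    exact hf' A hA B hB
  have e3 : Ex p (G \ T) (fun A => Ex p T (fun B => h (A ∪ B))) = Ex p T h := by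
    rw [← Ex_const p (G \ T) (Ex p T h)]
    apply Ex_congr
    intro A hA
    apply Ex_congr
    intro B hB
    exact hh' A hA B hB
  rw [e1, e2, e3, Ex_mul_left, mul_comm]

/-- the probability that all of `P` is in `A` and all of `Q` is outside -/
theorem Ex_pattern {p : ℝ} (h0 : 0 ≤ p) (h1 : p ≤ 1) {G P Q : Finset ℕ} (hP : P ⊆ G) (hQ : Q ⊆ G)
    (hPQ : Disjoint P Q) :
    p ^ P.card * (1 - p) ^ Q.card ≤ Ex p G (fun A => if P ⊆ A ∧ Disjoint Q A then 1 else 0) := by
  classical
  set T := P ∪ Q with hTdef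
  have hT : T ⊆ G := Finset.union_subset hP hQ
  have hd : Disjoint (G \ T) T := Finset.sdiff_disjoint
  have hG : G = (G \ T) ∪ T := (Finset.sdiff_union_of_subset hT).symm
  rw [hG, Ex_union p hd]
  rw [← Ex_const p (G \ T) (p ^ P.card * (1 - p) ^ Q.card)]
  apply Ex_mono h0 h1
  intro A hA
  unfold Ex
  have hmem : P ∈ T.powerset := Finset.mem_powerset.2 Finset.subset_union_left
  refine le_trans (le_of_eq ?_) (Finset.single_le_sum (f := fun B => p ^ B.card * (1 - p) ^ (T.card - B.card) * (if P ⊆ A ∪ B ∧ Disjoint Q (A ∪ B) then 1 else 0)) ?_ hmem)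
  · have hc : T.card - P.card = Q.card := by
      rw [hTdef, Finset.card_union_of_disjoint hPQ]; omega
    have hcond : P ⊆ A ∪ P ∧ Disjoint Q (A ∪ P) := by
      refine ⟨Finset.subset_union_right, ?_⟩
      rw [Finset.disjoint_union_right]
      refine ⟨?_, hPQ.symm⟩
      rw [Finset.disjoint_left]
      intro a ha ha'
      have := hA ha'
      rw [Finset.mem_sdiff] at this
      exact this.2 (Finset.mem_union_right _ ha)
    simp only [hc, if_pos hcond, mul_one]
  · intro B _
    apply mul_nonneg (wt_nonneg h0 h1 T B)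
    split_ifs <;> norm_num

end R851CS
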