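import Mathlib
import Pool.Agent.R851.CS.Prob

/-! Systems of switches. -/

namespace R851CS
open Finset

structure Sys (L N : ℕ) (I : Finset ℕ) (lo hi : ℕ → ℕ → Finset ℕ) : Prop where
  loI : ∀ k < L, ∀ c < N, lo k c ⊆ I
  hiI : ∀ k < L, ∀ c < N, hi k c ⊆ I
  card_eq : ∀ k < L, ∀ c < N, (lo k c).card = (hi k c).card
  sum_eq : ∀ k < L, ∀ c < N, ∑ a ∈ hi k c, a = ∑ a ∈ lo k c, a + 2 ^ k
  dj : ∀ k < L, ∀ c < N, Disjoint (lo k c) (hi k c)
  dj' : ∀ k < L, ∀ c < N, ∀ k' < L, ∀ c' < N, (k, c) ≠ (k', c') →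
    Disjoint (lo k c ∪ hi k c) (lo k' c' ∪ hi k' c')

section
variable (L N : ℕ) (lo hi : ℕ → ℕ → Finset ℕ)

def St0 (A : Finset ℕ) (k c : ℕ) : Prop := lo k c ⊆ A ∧ Disjoint (hi k c) A
def St1 (A : Finset ℕ) (k c : ℕ) : Prop := hi k c ⊆ A ∧ Disjoint (lo k c) A
def Act (A : Finset ℕ) (k c : ℕ) : Prop := St0 lo hi A k c ∨ St1 lo hi A k c
def Good (A : Finset ℕ) : Prop := ∀ k < L, ∃ c < N, Act lo hi A k c
noncomputable def cs (A : Finset ℕ) (k : ℕ) : ℕ := sInf {c | c < N ∧ Act lo hi A k c}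
noncomputable def TS (A S : Finset ℕ) : Finset ℕ :=
  S.biUnion (fun k => lo k (cs N lo hi A k) ∪ hi k (cs N lo hi A k))
noncomputable def tog (A S : Finset ℕ) : Finset ℕ := symmDiff A (TS N lo hi A S)
end

variable {L N : ℕ} {I : Finset ℕ} {lo hi : ℕ → ℕ → Finset ℕ}

theorem cs_spec {A : Finset ℕ} (hg : Good L N lo hi A) {k : ℕ} (hk : k < L) :
    cs N lo hi A k < N ∧ Act lo hi A k (cs N lo hi A k) := by
  have : (cs N lo hi A k) ∈ {c | c < N ∧ Act lo hi A k c} := Nat.sInf_mem (hg k hk)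
  exact this

theorem mem_TS (hs : Sys L N I lo hi) {A S : Finset ℕ} (hg : Good L N lo hi A) (hS : S ⊆ range L)
    {k c a : ℕ} (hk : k < L) (hc : c < N) (ha : a ∈ lo k c ∪ hi k c) :
    a ∈ TS N lo hi A S ↔ (k ∈ S ∧ c = cs N lo hi A k) := by
  unfold TS
  rw [Finset.mem_biUnion]
  constructor
  · rintro ⟨k', hk', ha'⟩
    have hk'L := Finset.mem_range.1 (hS hk')
    by_contra hne
    have : (k, c) ≠ (k', cs N lo hi A k') := by
      intro h
      injection h with h1 h2
      subst h1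
      exact hne ⟨hk', h2⟩
    exact Finset.disjoint_left.1 (hs.dj' k hk c hc k' hk'L _ (cs_spec hg hk'L).1 this) ha ha'
  · rintro ⟨h1, h2⟩
    refine ⟨k, h1, ?_⟩
    rw [← h2]; exact ha

theorem mem_tog {A S : Finset ℕ} {a : ℕ} :
    a ∈ tog N lo hi A S ↔ ((a ∈ A ∧ a ∉ TS N lo hi A S) ∨ (a ∈ TS N lo hi A S ∧ a ∉ A)) := by
  unfold tog
  rw [Finset.mem_symmDiff]

theorem st_tog_of_mem (hs : Sys L N I lo hi) {A S : Finset ℕ} (hg : Good L N lo hi A)
    (hS : S ⊆ range L) {k c : ℕ} (hk : k < L) (hc : c < N) (h : k ∈ S ∧ c = cs N lo hi A k) :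
    (St0 lo hi (tog N lo hi A S) k c ↔ St1 lo hi A k c) ∧
    (St1 lo hi (tog N lo hi A S) k c ↔ St0 lo hi A k c) := by
  have key : ∀ a ∈ lo k c ∪ hi k c, (a ∈ tog N lo hi A S ↔ a ∉ A) := by
    intro a ha
    have := (mem_TS hs hg hS hk hc ha).2 h
    rw [mem_tog]; tauto
  constructor
  · unfold St0 St1
    rw [Finset.disjoint_left, Finset.disjoint_left]
    constructor
    · rintro ⟨h1, h2⟩
      refine ⟨fun a ha => ?_, fun a ha => ?_⟩
      · have := h2 ha
        rw [key a (Finset.mem_union_right _ ha)] at this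
        exact not_not.1 this
      · exact (key a (Finset.mem_union_left _ ha)).1 (h1 ha)
    · rintro ⟨h1, h2⟩
      refine ⟨fun a ha => ?_, fun a ha => ?_⟩
      · exact (key a (Finset.mem_union_left _ ha)).2 (h2 ha)
      · rw [key a (Finset.mem_union_right _ ha)]
        exact not_not.2 (h1 ha)
  · unfold St0 St1
    rw [Finset.disjoint_left, Finset.disjoint_left]
    constructor
    · rintro ⟨h1, h2⟩
      refine ⟨fun a ha => ?_, fun a ha => ?_⟩
      · have := h2 ha
        rw [key a (Finset.mem_union_left _ ha)] at this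
        exact not_not.1 this
      · exact (key a (Finset.mem_union_right _ ha)).1 (h1 ha)
    · rintro ⟨h1, h2⟩
      refine ⟨fun a ha => ?_, fun a ha => ?_⟩
      · exact (key a (Finset.mem_union_right _ ha)).2 (h2 ha)
      · rw [key a (Finset.mem_union_left _ ha)]
        exact not_not.2 (h1 ha)

theorem st_tog_of_not_mem (hs : Sys L N I lo hi) {A S : Finset ℕ} (hg : Good L N lo hi A)
    (hS : S ⊆ range L) {k c : ℕ} (hk : k < L) (hc : c < N) (h : ¬ (k ∈ S ∧ c = cs N lo hi A k)) :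
    (St0 lo hi (tog N lo hi A S) k c ↔ St0 lo hi A k c) ∧
    (St1 lo hi (tog N lo hi A S) k c ↔ St1 lo hi A k c) := by
  have key : ∀ a ∈ lo k c ∪ hi k c, (a ∈ tog N lo hi A S ↔ a ∈ A) := by
    intro a ha
    have : a ∉ TS N lo hi A S := fun h' => h ((mem_TS hs hg hS hk hc ha).1 h')
    rw [mem_tog]; tauto
  constructor
  · unfold St0
    rw [Finset.disjoint_left, Finset.disjoint_left]
    constructor
    · rintro ⟨h1, h2⟩
      refine ⟨fun a ha => (key a (Finset.mem_union_left _ ha)).1 (h1 ha), fun a ha h3 => ?_⟩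
      exact h2 ha ((key a (Finset.mem_union_right _ ha)).2 h3)
    · rintro ⟨h1, h2⟩
      refine ⟨fun a ha => (key a (Finset.mem_union_left _ ha)).2 (h1 ha), fun a ha h3 => ?_⟩
      exact h2 ha ((key a (Finset.mem_union_right _ ha)).1 h3)
  · unfold St1
    rw [Finset.disjoint_left, Finset.disjoint_left]
    constructor
    · rintro ⟨h1, h2⟩
      refine ⟨fun a ha => (key a (Finset.mem_union_right _ ha)).1 (h1 ha), fun a ha h3 => ?_⟩
      exact h2 ha ((key a (Finset.mem_union_left _ ha)).2 h3)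
    · rintro ⟨h1, h2⟩
      refine ⟨fun a ha => (key a (Finset.mem_union_right _ ha)).2 (h1 ha), fun a ha h3 => ?_⟩
      exact h2 ha ((key a (Finset.mem_union_left _ ha)).1 h3)

theorem act_tog (hs : Sys L N I lo hi) {A S : Finset ℕ} (hg : Good L N lo hi A)
    (hS : S ⊆ range L) {k c : ℕ} (hk : k < L) (hc : c < N) :
    Act lo hi (tog N lo hi A S) k c ↔ Act lo hi A k c := by
  unfold Act
  by_cases h : k ∈ S ∧ c = cs N lo hi A k
  · obtain ⟨h1, h2⟩ := st_tog_of_mem hs hg hS hk hc h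
    rw [h1, h2, or_comm]
  · obtain ⟨h1, h2⟩ := st_tog_of_not_mem hs hg hS hk hc h
    rw [h1, h2]

theorem good_tog (hs : Sys L N I lo hi) {A S : Finset ℕ} (hg : Good L N lo hi A)
    (hS : S ⊆ range L) : Good L N lo hi (tog N lo hi A S) := by
  intro k hk
  obtain ⟨c, hc, h⟩ := hg k hk
  exact ⟨c, hc, (act_tog hs hg hS hk hc).2 h⟩

theorem cs_tog (hs : Sys L N I lo hi) {A S : Finset ℕ} (hg : Good L N lo hi A)
    (hS : S ⊆ range L) {k : ℕ} (hk : k < L) :
    cs N lo hi (tog N lo hi A S) k = cs N lo hi A k := by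
  unfold cs
  congr 1
  ext c
  constructor
  · rintro ⟨h1, h2⟩; exact ⟨h1, (act_tog hs hg hS hk h1).1 h2⟩
  · rintro ⟨h1, h2⟩; exact ⟨h1, (act_tog hs hg hS hk h1).2 h2⟩

theorem TS_tog (hs : Sys L N I lo hi) {A S : Finset ℕ} (hg : Good L N lo hi A)
    (hS : S ⊆ range L) {S' : Finset ℕ} (hS' : S' ⊆ range L) :
    TS N lo hi (tog N lo hi A S) S' = TS N lo hi A S' := by
  unfold TS
  apply Finset.biUnion_congr rfl
  intro k hk
  rw [cs_tog hs hg hS (Finset.mem_range.1 (hS' hk))]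

theorem tog_tog (hs : Sys L N I lo hi) {A S : Finset ℕ} (hg : Good L N lo hi A)
    (hS : S ⊆ range L) : tog N lo hi (tog N lo hi A S) S = A := by
  show symmDiff (tog N lo hi A S) (TS N lo hi (tog N lo hi A S) S) = A
  rw [TS_tog hs hg hS hS]
  unfold tog
  exact symmDiff_symmDiff_cancel_right _ _

theorem TS_sub (hs : Sys L N I lo hi) {A S : Finset ℕ} (hg : Good L N lo hi A)
    (hS : S ⊆ range L) : TS N lo hi A S ⊆ I := by
  unfold TS
  intro a ha
  obtain ⟨k, hk, ha⟩ := Finset.mem_biUnion.1 ha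
  have hkL := Finset.mem_range.1 (hS hk)
  have hc := (cs_spec hg hkL).1
  rcases Finset.mem_union.1 ha with h | h
  · exact hs.loI k hkL _ hc h
  · exact hs.hiI k hkL _ hc h

theorem mem_tog_of_not_mem (hs : Sys L N I lo hi) {A S : Finset ℕ} (hg : Good L N lo hi A)
    (hS : S ⊆ range L) {a : ℕ} (ha : a ∉ I) : a ∈ tog N lo hi A S ↔ a ∈ A := by
  have : a ∉ TS N lo hi A S := fun h => ha (TS_sub hs hg hS h)
  rw [mem_tog]; tauto

theorem tog_sub (hs : Sys L N I lo hi) {A S G : Finset ℕ} (hg : Good L N lo hi A)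
    (hS : S ⊆ range L) (hA : A ⊆ G) (hI : I ⊆ G) : tog N lo hi A S ⊆ G := by
  intro a ha
  rw [mem_tog] at ha
  rcases ha with h | h
  · exact hA h.1
  · exact hI (TS_sub hs hg hS h.1)

theorem sum_symmDiff (A B : Finset ℕ) (φ : ℕ → ℤ) :
    ∑ a ∈ symmDiff A B, φ a = ∑ a ∈ A, φ a + ∑ b ∈ B, (if b ∈ A then - φ b else φ b) := by
  have h1 : ∑ b ∈ B, (if b ∈ A then - φ b else φ b) = ∑ b ∈ B \ A, φ b - ∑ b ∈ A ∩ B, φ b := by
    rw [Finset.sum_ite, Finset.sum_neg_distrib]
    have e1 : B.filter (fun b => b ∈ A) = A ∩ B := by ext; simp; tauto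
    have e2 : B.filter (fun b => ¬ b ∈ A) = B \ A := by ext; simp
    rw [e1, e2]; ring
  have h2 : ∑ a ∈ A, φ a = ∑ a ∈ A \ B, φ a + ∑ a ∈ A ∩ B, φ a := by
    rw [← Finset.sum_inter_add_sum_sdiff A B, add_comm]
  have h3 : ∑ a ∈ symmDiff A B, φ a = ∑ a ∈ A \ B, φ a + ∑ a ∈ B \ A, φ a := by
    rw [symmDiff_def, Finset.sup_eq_union, Finset.sum_union]
    exact disjoint_sdiff_sdiff
  rw [h1, h2, h3]; ring

open Classical in
theorem tog_sum (hs : Sys L N I lo hi) {A S : Finset ℕ} (hg : Good L N lo hi A)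
    (hS : S ⊆ range L) (φ : ℕ → ℤ) :
    ∑ a ∈ tog N lo hi A S, φ a = ∑ a ∈ A, φ a +
      ∑ k ∈ S, (if St0 lo hi A k (cs N lo hi A k) then (1 : ℤ) else -1) *
        (∑ a ∈ hi k (cs N lo hi A k), φ a - ∑ a ∈ lo k (cs N lo hi A k), φ a) := by
  unfold tog
  rw [sum_symmDiff]
  congr 1
  unfold TS
  rw [Finset.sum_biUnion]
  · apply Finset.sum_congr rfl
    intro k hk
    have hkL := Finset.mem_range.1 (hS hk)
    obtain ⟨hc, ha⟩ := cs_spec hg hkL
    set c := cs N lo hi A k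
    rw [Finset.sum_union (hs.dj k hkL c hc)]
    by_cases h0 : St0 lo hi A k c
    · rw [if_pos h0]
      have e1 : ∑ b ∈ lo k c, (if b ∈ A then - φ b else φ b) = - ∑ b ∈ lo k c, φ b := by
        rw [← Finset.sum_neg_distrib]
        apply Finset.sum_congr rfl
        intro b hb
        rw [if_pos (h0.1 hb)]
      have e2 : ∑ b ∈ hi k c, (if b ∈ A then - φ b else φ b) = ∑ b ∈ hi k c, φ b := by
        apply Finset.sum_congr rfl
        intro b hb
        rw [if_neg (Finset.disjoint_left.1 h0.2 hb)]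
      rw [e1, e2]; ring
    · rw [if_neg h0]
      have h1 : St1 lo hi A k c := ha.resolve_left h0
      have e1 : ∑ b ∈ hi k c, (if b ∈ A then - φ b else φ b) = - ∑ b ∈ hi k c, φ b := by
        rw [← Finset.sum_neg_distrib]
        apply Finset.sum_congr rfl
        intro b hb
        rw [if_pos (h1.1 hb)]
      have e2 : ∑ b ∈ lo k c, (if b ∈ A then - φ b else φ b) = ∑ b ∈ lo k c, φ b := by
        apply Finset.sum_congr rfl
        intro b hb
        rw [if_neg (Finset.disjoint_left.1 h1.2 hb)]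
      rw [e1, e2]; ring
  · intro k hk k' hk' hne
    have hkL := Finset.mem_range.1 (hS hk)
    have hkL' := Finset.mem_range.1 (hS hk')
    exact hs.dj' k hkL _ (cs_spec hg hkL).1 k' hkL' _ (cs_spec hg hkL').1 (by
      intro h; injection h with h1 h2; exact hne h1)

open Classical in
theorem card_tog (hs : Sys L N I lo hi) {A S : Finset ℕ} (hg : Good L N lo hi A)
    (hS : S ⊆ range L) : (tog N lo hi A S).card = A.card := by
  have h := tog_sum hs hg hS (fun _ => 1)
  simp only [Finset.sum_const, nsmul_eq_mul, mul_one] at h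
  have : ∑ k ∈ S, (if St0 lo hi A k (cs N lo hi A k) then (1 : ℤ) else -1) *
        (((hi k (cs N lo hi A k)).card : ℤ) - ((lo k (cs N lo hi A k)).card : ℤ)) = 0 := by
    apply Finset.sum_eq_zero
    intro k hk
    have hkL := Finset.mem_range.1 (hS hk)
    rw [hs.card_eq k hkL _ (cs_spec hg hkL).1]
    ring
  have h' : (((tog N lo hi A S).card : ℕ) : ℤ) = ((A.card : ℕ) : ℤ) := by
    rw [h, this, add_zero]
  exact_mod_cast h'

open Classical in
noncomputable def NA (L N : ℕ) (lo hi : ℕ → ℕ → Finset ℕ) (A : Finset ℕ) : Finset ℕ :=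
  (range L).filter (fun k => ¬ St0 lo hi A k (cs N lo hi A k))

noncomputable def vv (L N : ℕ) (lo hi : ℕ → ℕ → Finset ℕ) (A S : Finset ℕ) : ℕ :=
  ∑ k ∈ symmDiff S (NA L N lo hi A), 2 ^ k

open Classical in
theorem NA_sub (A : Finset ℕ) : NA L N lo hi A ⊆ range L := by
  unfold NA
  exact Finset.filter_subset _ _

theorem vv_lt {A S : Finset ℕ} (hS : S ⊆ range L) : vv L N lo hi A S < 2 ^ L := by
  unfold vv
  apply Nat.geomSum_lt le_rfl
  intro k hk
  rw [Finset.mem_symmDiff] at hk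
  rcases hk with h | h
  · exact Finset.mem_range.1 (hS h.1)
  · exact Finset.mem_range.1 (NA_sub A h.1)

theorem vv_inj {A S S' : Finset ℕ} (h : vv L N lo hi A S = vv L N lo hi A S') : S = S' := by
  unfold vv at h
  have := Finset.geomSum_injective (n := 2) le_rfl h
  exact symmDiff_left_injective _ this

open Classical in
theorem tog_sum_pow (hs : Sys L N I lo hi) {A S : Finset ℕ} (hg : Good L N lo hi A)
    (hS : S ⊆ range L) (φ : ℕ → ℤ)
    (hφ : ∀ k < L, ∀ c < N, ∑ a ∈ hi k c, φ a = ∑ a ∈ lo k c, φ a + 2 ^ k) :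
    ∑ a ∈ tog N lo hi A S, φ a + ∑ k ∈ NA L N lo hi A, (2 : ℤ) ^ k
      = ∑ a ∈ A, φ a + (vv L N lo hi A S : ℤ) := by
  rw [tog_sum hs hg hS φ]
  have h1 : ∑ k ∈ S, (if St0 lo hi A k (cs N lo hi A k) then (1 : ℤ) else -1) *
        (∑ a ∈ hi k (cs N lo hi A k), φ a - ∑ a ∈ lo k (cs N lo hi A k), φ a)
      = ∑ k ∈ S, (if k ∈ NA L N lo hi A then - (2 : ℤ) ^ k else 2 ^ k) := by
    apply Finset.sum_congr rfl
    intro k hk
    have hkL := Finset.mem_range.1 (hS hk)
    rw [hφ k hkL _ (cs_spec hg hkL).1]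
    have : k ∈ NA L N lo hi A ↔ ¬ St0 lo hi A k (cs N lo hi A k) := by
      unfold NA
      rw [Finset.mem_filter, Finset.mem_range]
      tauto
    by_cases h : St0 lo hi A k (cs N lo hi A k)
    · rw [if_pos h, if_neg (by rw [this]; exact not_not.2 h)]; ring
    · rw [if_neg h, if_pos (by rw [this]; exact h)]; ring
  rw [h1]
  have h2 := sum_symmDiff (NA L N lo hi A) S (fun k => (2 : ℤ) ^ k)
  have h3 : (vv L N lo hi A S : ℤ) = ∑ k ∈ symmDiff (NA L N lo hi A) S, (2 : ℤ) ^ k := by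
    unfold vv
    rw [symmDiff_comm]
    push_cast
    rfl
  rw [h3, h2]
  ring

open Classical in
theorem avg (hs : Sys L N I lo hi) {p : ℝ} (h0 : 0 ≤ p) (h1 : p ≤ 1) {G : Finset ℕ} (hI : I ⊆ G)
    (g : Finset ℕ → ℝ) (hg0 : ∀ A ⊆ G, 0 ≤ g A)
    (hginv : ∀ A ⊆ G, Good L N lo hi A → ∀ S ⊆ range L, g (tog N lo hi A S) = g A)
    (P : Finset ℕ → Prop) (M : ℕ)
    (hM : ∀ A ⊆ G, Good L N lo hi A →
      ((range L).powerset.filter (fun S => P (tog N lo hi A S))).card ≤ M) :
    Ex p G (fun A => if Good L N lo hi A ∧ P A then g A else 0) ≤ (M / 2 ^ L) * Ex p G g := by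
  set GG := G.powerset.filter (fun A => Good L N lo hi A) with hGG
  set w : Finset ℕ → ℝ := fun A => p ^ A.card * (1 - p) ^ (G.card - A.card) with hw
  have hw0 : ∀ A, 0 ≤ w A := fun A => wt_nonneg h0 h1 G A
  have e1 : Ex p G (fun A => if Good L N lo hi A ∧ P A then g A else 0)
      = ∑ A ∈ GG, w A * (if P A then g A else 0) := by
    unfold Ex
    rw [hGG, Finset.sum_filter]
    apply Finset.sum_congr rfl
    intro A _
    by_cases ha : Good L N lo hi A <;> by_cases hb : P A <;> simp [ha, hb, hw]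
  have e2 : ∀ S ∈ (range L).powerset, ∑ A ∈ GG, w A * (if P A then g A else 0)
      = ∑ A ∈ GG, w A * (if P (tog N lo hi A S) then g A else 0) := by
    intro S hS
    rw [Finset.mem_powerset] at hS
    symm
    apply Finset.sum_bij' (fun A _ => tog N lo hi A S) (fun A _ => tog N lo hi A S)
    · intro A hA
      rw [hGG, Finset.mem_filter, Finset.mem_powerset] at hA ⊢
      exact ⟨tog_sub hs hA.2 hS hA.1 hI, good_tog hs hA.2 hS⟩
    · intro A hA
      rw [hGG, Finset.mem_filter, Finset.mem_powerset] at hA ⊢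
      exact ⟨tog_sub hs hA.2 hS hA.1 hI, good_tog hs hA.2 hS⟩
    · intro A hA
      rw [hGG, Finset.mem_filter, Finset.mem_powerset] at hA
      exact tog_tog hs hA.2 hS
    · intro A hA
      rw [hGG, Finset.mem_filter, Finset.mem_powerset] at hA
      exact tog_tog hs hA.2 hS
    · intro A hA
      rw [hGG, Finset.mem_filter, Finset.mem_powerset] at hA
      simp only [hw]
      rw [card_tog hs hA.2 hS, hginv A hA.1 hA.2 S hS]
  have e3 : (2 : ℝ) ^ L * ∑ A ∈ GG, w A * (if P A then g A else 0)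
      = ∑ A ∈ GG, w A * (g A * (((range L).powerset.filter (fun S => P (tog N lo hi A S))).card : ℝ)) := by
    have : (2 : ℝ) ^ L * ∑ A ∈ GG, w A * (if P A then g A else 0)
        = ∑ S ∈ (range L).powerset, ∑ A ∈ GG, w A * (if P A then g A else 0) := by
      rw [Finset.sum_const, Finset.card_powerset, Finset.card_range, nsmul_eq_mul]
      push_cast
      rfl
    rw [this, Finset.sum_congr rfl e2, Finset.sum_comm]
    apply Finset.sum_congr rfl
    intro A _
    rw [← Finset.mul_sum]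
    congr 1
    rw [← Finset.sum_filter, Finset.sum_const, nsmul_eq_mul, mul_comm]
  have e4 : ∑ A ∈ GG, w A * (g A * (((range L).powerset.filter (fun S => P (tog N lo hi A S))).card : ℝ))
      ≤ M * Ex p G g := by
    unfold Ex
    rw [Finset.mul_sum]
    refine le_trans (b := ∑ A ∈ GG, M * (w A * g A)) ?_ ?_
    · apply Finset.sum_le_sum
      intro A hA
      rw [hGG, Finset.mem_filter, Finset.mem_powerset] at hA
      have hc : (((range L).powerset.filter (fun S => P (tog N lo hi A S))).card : ℝ) ≤ M := by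
        exact_mod_cast hM A hA.1 hA.2
      have := mul_le_mul_of_nonneg_left hc (mul_nonneg (hw0 A) (hg0 A hA.1))
      nlinarith
    · apply Finset.sum_le_sum_of_subset_of_nonneg (Finset.filter_subset _ _)
      intro A hA _
      rw [Finset.mem_powerset] at hA
      exact mul_nonneg (Nat.cast_nonneg _) (mul_nonneg (hw0 A) (hg0 A hA))
  rw [e1, div_mul_eq_mul_div, le_div_iff₀ (by positivity), mul_comm, e3]
  exact e4

end R851CS
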