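import Mathlib
import Pool.Agent.R851.CS.Switch

namespace R851CS
open Finset

variable {L N : ℕ} {I : Finset ℕ} {lo hi : ℕ → ℕ → Finset ℕ}

open Classical in
noncomputable def ii (lo hi : ℕ → ℕ → Finset ℕ) (k c : ℕ) (A : Finset ℕ) : ℝ :=
  if St0 lo hi A k c then 1 else 0

theorem ii_le (k c : ℕ) (A : Finset ℕ) : 0 ≤ 1 - ii lo hi k c A := by
  unfold ii; split_ifs <;> norm_num

theorem Ex_one_sub (p : ℝ) (G : Finset ℕ) (f : Finset ℕ → ℝ) :
    Ex p G (fun A => 1 - f A) = 1 - Ex p G f := by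
  have h := Ex_add p G (fun A => 1 - f A) f
  have h2 : Ex p G (fun A => 1 - f A + f A) = 1 := by
    refine (Ex_congr (g := fun _ => (1 : ℝ)) ?_).trans (Ex_const p G 1)
    intro A _
    ring
  rw [h2] at h
  linarith

theorem ii_congr {k c : ℕ} {A B : Finset ℕ} (h : St0 lo hi A k c ↔ St0 lo hi B k c) :
    ii lo hi k c A = ii lo hi k c B := by
  unfold ii
  by_cases h1 : St0 lo hi A k c
  · rw [if_pos h1, if_pos (h.1 h1)]
  · rw [if_neg h1, if_neg (fun h2 => h1 (h.2 h2))]

theorem prod_le (hs : Sys L N I lo hi) {p : ℝ} (h0 : 0 ≤ p) (h1 : p ≤ 1) {G : Finset ℕ}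
    (hI : I ⊆ G) (Q : ℕ) (hQ : ∀ k < L, ∀ c < N, (lo k c).card ≤ Q)
    (g : Finset ℕ → ℝ) (hg0 : ∀ A ⊆ G, 0 ≤ g A) (hgI : ∀ A ⊆ G, g A = g (A \ I))
    {k : ℕ} (hk : k < L) (m : ℕ) (hm : m ≤ N) :
    Ex p G (fun A => g A * ∏ c ∈ range m, (1 - ii lo hi k c A))
      ≤ (1 - (p * (1 - p)) ^ Q) ^ m * Ex p G g := by
  have hpp : 0 ≤ p * (1 - p) := mul_nonneg h0 (by linarith)
  have hpp1 : p * (1 - p) ≤ 1 := by nlinarith
  have hη : 0 ≤ 1 - (p * (1 - p)) ^ Q := by
    have := pow_le_one₀ (n := Q) hpp hpp1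
    linarith
  induction m with
  | zero => simp
  | succ m ih =>
    have hmN : m < N := by omega
    have ih' := ih (by omega)
    set T := lo k m ∪ hi k m with hT
    have hTI : T ⊆ I := Finset.union_subset (hs.loI k hk m hmN) (hs.hiI k hk m hmN)
    have e1 : Ex p G (fun A => g A * ∏ c ∈ range (m + 1), (1 - ii lo hi k c A))
        = Ex p G (fun A => g A * ∏ c ∈ range m, (1 - ii lo hi k c A)) * Ex p G (fun A => 1 - ii lo hi k m A) := by
      rw [← Ex_indep p (hTI.trans hI) (fun A => g A * ∏ c ∈ range m, (1 - ii lo hi k c A)) (fun A => 1 - ii lo hi k m A)]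
      · apply Ex_congr
        intro A _
        rw [Finset.prod_range_succ]; ring
      · intro A hA
        have hsub : A \ T ⊆ G := Finset.sdiff_subset.trans hA
        have hg' : g A = g (A \ T) := by
          rw [hgI A hA, hgI (A \ T) hsub]
          congr 1
          ext a
          simp only [Finset.mem_sdiff]
          constructor
          · rintro ⟨h, h'⟩; exact ⟨⟨h, fun h'' => h' (hTI h'')⟩, h'⟩
          · rintro ⟨⟨h, _⟩, h'⟩; exact ⟨h, h'⟩
        show g A * _ = g (A \ T) * _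
        rw [← hg']
        congr 1
        apply Finset.prod_congr rfl
        intro c hc
        rw [Finset.mem_range] at hc
        have hdj := hs.dj' k hk c (by omega) k hk m hmN (by intro h; injection h with _ h2; omega)
        have hiff : St0 lo hi A k c ↔ St0 lo hi (A \ T) k c := by
          unfold St0
          rw [Finset.disjoint_left, Finset.disjoint_left]
          constructor
          · rintro ⟨a1, a2⟩
            refine ⟨fun a ha => ?_, fun a ha ha' => a2 ha (Finset.mem_sdiff.1 ha').1⟩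
            rw [Finset.mem_sdiff]
            exact ⟨a1 ha, fun h => Finset.disjoint_left.1 hdj (Finset.mem_union_left _ ha) h⟩
          · rintro ⟨a1, a2⟩
            refine ⟨fun a ha => (Finset.mem_sdiff.1 (a1 ha)).1, fun a ha ha' => a2 ha ?_⟩
            rw [Finset.mem_sdiff]
            exact ⟨ha', fun h => Finset.disjoint_left.1 hdj (Finset.mem_union_right _ ha) h⟩
        rw [ii_congr hiff]
      · intro A hA
        have hiff : St0 lo hi A k m ↔ St0 lo hi (A ∩ T) k m := by
          unfold St0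
          rw [Finset.disjoint_left, Finset.disjoint_left]
          constructor
          · rintro ⟨a1, a2⟩
            refine ⟨fun a ha => ?_, fun a ha ha' => a2 ha (Finset.mem_inter.1 ha').1⟩
            rw [Finset.mem_inter]
            exact ⟨a1 ha, Finset.mem_union_left _ ha⟩
          · rintro ⟨a1, a2⟩
            refine ⟨fun a ha => (Finset.mem_inter.1 (a1 ha)).1, fun a ha ha' => a2 ha ?_⟩
            rw [Finset.mem_inter]
            exact ⟨ha', Finset.mem_union_right _ ha⟩
        show 1 - ii lo hi k m A = 1 - ii lo hi k m (A ∩ T)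
        rw [ii_congr hiff]
    have e2 : Ex p G (fun A => 1 - ii lo hi k m A) ≤ 1 - (p * (1 - p)) ^ Q := by
      rw [Ex_one_sub]
      have h := Ex_pattern h0 h1 ((hs.loI k hk m hmN).trans hI) ((hs.hiI k hk m hmN).trans hI) (hs.dj k hk m hmN)
      have h3 : (p * (1 - p)) ^ Q ≤ p ^ (lo k m).card * (1 - p) ^ (hi k m).card := by
        rw [← hs.card_eq k hk m hmN, ← mul_pow]
        exact pow_le_pow_of_le_one hpp hpp1 (hQ k hk m hmN)
      have h4 : Ex p G (ii lo hi k m) = Ex p G (fun A => if lo k m ⊆ A ∧ Disjoint (hi k m) A then 1 else 0) := by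
        apply Ex_congr
        intro A _
        unfold ii St0
        congr
      rw [h4]
      linarith
    have e3 : 0 ≤ Ex p G (fun A => g A * ∏ c ∈ range m, (1 - ii lo hi k c A)) :=
      Ex_nonneg h0 h1 (fun A hA => mul_nonneg (hg0 A hA) (Finset.prod_nonneg (fun c _ => ii_le k c A)))
    rw [e1, pow_succ]
    calc _ ≤ Ex p G (fun A => g A * ∏ c ∈ range m, (1 - ii lo hi k c A)) * (1 - (p * (1 - p)) ^ Q) :=
          mul_le_mul_of_nonneg_left e2 e3
      _ ≤ ((1 - (p * (1 - p)) ^ Q) ^ m * Ex p G g) * (1 - (p * (1 - p)) ^ Q) :=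
          mul_le_mul_of_nonneg_right ih' hη
      _ = _ := by ring

open Classical in
theorem fail_le (hs : Sys L N I lo hi) {p : ℝ} (h0 : 0 ≤ p) (h1 : p ≤ 1) {G : Finset ℕ}
    (hI : I ⊆ G) (Q : ℕ) (hQ : ∀ k < L, ∀ c < N, (lo k c).card ≤ Q)
    (g : Finset ℕ → ℝ) (hg0 : ∀ A ⊆ G, 0 ≤ g A) (hgI : ∀ A ⊆ G, g A = g (A \ I)) :
    Ex p G (fun A => if Good L N lo hi A then 0 else g A)
      ≤ L * (1 - (p * (1 - p)) ^ Q) ^ N * Ex p G g := by
  have hb : ∀ A ⊆ G, (if Good L N lo hi A then 0 else g A)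
      ≤ ∑ k ∈ range L, g A * ∏ c ∈ range N, (1 - ii lo hi k c A) := by
    intro A hA
    have hnn : ∀ k ∈ range L, 0 ≤ g A * ∏ c ∈ range N, (1 - ii lo hi k c A) := fun k _ =>
      mul_nonneg (hg0 A hA) (Finset.prod_nonneg (fun c _ => ii_le k c A))
    split_ifs with hgood
    · exact Finset.sum_nonneg hnn
    · unfold Good at hgood
      push Not at hgood
      obtain ⟨k, hk, hk'⟩ := hgood
      refine le_trans (le_of_eq ?_) (Finset.single_le_sum hnn (Finset.mem_range.2 hk))
      have : ∏ c ∈ range N, (1 - ii lo hi k c A) = 1 := by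
        apply Finset.prod_eq_one
        intro c hc
        have : ¬ St0 lo hi A k c := fun h => hk' c (Finset.mem_range.1 hc) (Or.inl h)
        unfold ii
        rw [if_neg this]; ring
      rw [this, mul_one]
  refine le_trans (Ex_mono h0 h1 hb) ?_
  rw [Ex_sum]
  refine le_trans (Finset.sum_le_sum (fun k hk => prod_le hs h0 h1 hI Q hQ g hg0 hgI (Finset.mem_range.1 hk) N le_rfl)) ?_
  rw [Finset.sum_const, Finset.card_range, nsmul_eq_mul, mul_assoc]

end R851CS
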