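import Mathlib

namespace R851CS
open Finset

/-- The set of consecutive sums of (the increasing enumeration of) a finite set `A`:
sums of the elements of `A` lying between two elements `x ≤ y` of `A`. -/
def consecSums (A : Finset ℕ) : Finset ℕ :=
  ((A ×ˢ A).filter (fun p => p.1 ≤ p.2)).image
    (fun p => ∑ a ∈ A.filter (fun a => p.1 ≤ a ∧ a ≤ p.2), a)

def win (A : Finset ℕ) (x y : ℕ) : Finset ℕ := A.filter (fun a => x < a ∧ a ≤ y)
def W (A : Finset ℕ) (x y : ℕ) : ℕ := ∑ a ∈ win A x y, a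
def Cn (A : Finset ℕ) (x y : ℕ) : ℕ := (win A x y).card

theorem mem_win {A : Finset ℕ} {x y a : ℕ} : a ∈ win A x y ↔ a ∈ A ∧ x < a ∧ a ≤ y := by
  unfold win; rw [Finset.mem_filter]

theorem W_mem {A : Finset ℕ} {x y : ℕ} (hy : y ∈ A) (hxy : x < y) : W A x y ∈ consecSums A := by
  have hne : (win A x y).Nonempty := ⟨y, mem_win.2 ⟨hy, hxy, le_rfl⟩⟩
  have hm := Finset.min'_mem _ hne
  rw [mem_win] at hm
  unfold consecSums
  rw [Finset.mem_image]
  refine ⟨((win A x y).min' hne, y), ?_, ?_⟩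
  · rw [Finset.mem_filter, Finset.mem_product]
    exact ⟨⟨hm.1, hy⟩, hm.2.2⟩
  · unfold W
    congr 1
    ext a
    rw [Finset.mem_filter, mem_win]
    constructor
    · rintro ⟨h1, h2, h3⟩
      simp only at h2 h3
      exact ⟨h1, by omega, h3⟩
    · rintro ⟨h1, h2, h3⟩
      exact ⟨h1, Finset.min'_le _ _ (mem_win.2 ⟨h1, h2, h3⟩), h3⟩

theorem win_split {A : Finset ℕ} {x y z : ℕ} (h1 : x ≤ y) (h2 : y ≤ z) :
    win A x z = win A x y ∪ win A y z ∧ Disjoint (win A x y) (win A y z) := by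
  constructor
  · ext a
    rw [Finset.mem_union, mem_win, mem_win, mem_win]
    constructor
    · rintro ⟨h3, h4, h5⟩
      by_cases h : a ≤ y
      · exact Or.inl ⟨h3, h4, h⟩
      · exact Or.inr ⟨h3, by omega, h5⟩
    · rintro (⟨h3, h4, h5⟩ | ⟨h3, h4, h5⟩)
      · exact ⟨h3, h4, by omega⟩
      · exact ⟨h3, by omega, h5⟩
  · rw [Finset.disjoint_left]
    intro a ha ha'
    rw [mem_win] at ha ha'
    omega

theorem W_add {A : Finset ℕ} {x y z : ℕ} (h1 : x ≤ y) (h2 : y ≤ z) :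
    W A x z = W A x y + W A y z := by
  unfold W
  obtain ⟨h3, h4⟩ := win_split (A := A) h1 h2
  rw [h3, Finset.sum_union h4]

theorem Cn_add {A : Finset ℕ} {x y z : ℕ} (h1 : x ≤ y) (h2 : y ≤ z) :
    Cn A x z = Cn A x y + Cn A y z := by
  unfold Cn
  obtain ⟨h3, h4⟩ := win_split (A := A) h1 h2
  rw [h3, Finset.card_union_of_disjoint h4]

theorem le_W {A : Finset ℕ} {x y : ℕ} (hy : y ∈ A) (hxy : x < y) : y ≤ W A x y := by
  unfold W
  exact Finset.single_le_sum (f := fun a => a) (fun _ _ => Nat.zero_le _) (mem_win.2 ⟨hy, hxy, le_rfl⟩)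

theorem one_le_Cn {A : Finset ℕ} {x y : ℕ} (hy : y ∈ A) (hxy : x < y) : 1 ≤ Cn A x y := by
  unfold Cn
  exact Finset.card_pos.2 ⟨y, mem_win.2 ⟨hy, hxy, le_rfl⟩⟩

theorem W_step {A : Finset ℕ} {x y y' : ℕ} (hy' : y' ∈ A) (h : y < y') (hx : x ≤ y) :
    W A x y + y' ≤ W A x y' := by
  rw [W_add hx h.le]
  have := le_W hy' h
  omega

theorem W_ge {A : Finset ℕ} {x y c : ℕ} (h : c ≤ x + 1) : Cn A x y * c ≤ W A x y := by
  unfold W Cn
  rw [← smul_eq_mul]
  apply Finset.card_nsmul_le_sum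
  intro a ha
  rw [mem_win] at ha
  omega

theorem W_le {A : Finset ℕ} {x y c : ℕ} (h : ∀ a ∈ A, a ≤ y → a ≤ c) : W A x y ≤ Cn A x y * c := by
  unfold W Cn
  rw [← smul_eq_mul]
  apply Finset.sum_le_card_nsmul
  intro a ha
  rw [mem_win] at ha
  exact h a ha.1 ha.2.2

theorem fib {β : Type*} [DecidableEq β] (P : Finset (ℕ × ℕ)) (f : ℕ × ℕ → β)
    (hf : ∀ p ∈ P, ∀ q ∈ P, f p = f q → p.2 = q.2 → p = q) :
    P.card ≤ (P.image f).card + ((P ×ˢ P).filter (fun z => z.2.2 < z.1.2 ∧ f z.1 = f z.2)).card := by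
  classical
  set R := P.filter (fun p => ∀ q ∈ P, f q = f p → p.2 ≤ q.2) with hR
  have h1 : R.card ≤ (P.image f).card := by
    apply Finset.card_le_card_of_injOn f
    · intro p hp
      have hp' : p ∈ R := hp
      rw [hR, Finset.mem_filter] at hp'
      exact Finset.mem_coe.2 (Finset.mem_image_of_mem f hp'.1)
    · intro p hp q hq h
      have hp' : p ∈ R := hp
      have hq' : q ∈ R := hq
      rw [hR, Finset.mem_filter] at hp' hq'
      exact hf p hp'.1 q hq'.1 h (le_antisymm (hp'.2 q hq'.1 h.symm) (hq'.2 p hp'.1 h))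
  have h2 : (P \ R).card ≤ ((P ×ˢ P).filter (fun z => z.2.2 < z.1.2 ∧ f z.1 = f z.2)).card := by
    have : P \ R ⊆ ((P ×ˢ P).filter (fun z => z.2.2 < z.1.2 ∧ f z.1 = f z.2)).image Prod.fst := by
      intro p hp
      rw [Finset.mem_sdiff, hR, Finset.mem_filter] at hp
      obtain ⟨hp1, hp2⟩ := hp
      have hp3 : ∃ q ∈ P, f q = f p ∧ q.2 < p.2 := by
        by_contra hcon
        push Not at hcon
        exact hp2 ⟨hp1, hcon⟩
      obtain ⟨q, hq, hq1, hq2⟩ := hp3
      rw [Finset.mem_image]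
      refine ⟨(p, q), ?_, rfl⟩
      rw [Finset.mem_filter, Finset.mem_product]
      exact ⟨⟨hp1, hq⟩, hq2, hq1.symm⟩
    exact (Finset.card_le_card this).trans Finset.card_image_le
  have h3 : (P \ R).card + R.card = P.card :=
    Finset.card_sdiff_add_card_eq_card (Finset.filter_subset _ _)
  omega

section
variable (A U : Finset ℕ) (V : ℕ → Finset ℕ)

def Dset (j : ℕ) : Finset ℕ := (range j).biUnion (fun i => (U ×ˢ V i).image (fun p => W A p.1 p.2))
def cross (j : ℕ) : ℕ := ((U ×ˢ V j).filter (fun p => W A p.1 p.2 ∈ Dset A U V j)).card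
def inn (j : ℕ) : ℕ :=
  (((U ×ˢ V j) ×ˢ (U ×ˢ V j)).filter (fun z => z.2.2 < z.1.2 ∧ W A z.1.1 z.1.2 = W A z.2.1 z.2.2)).card
end

theorem W_inj_left {A : Finset ℕ} {x x' y : ℕ} (hx : x ∈ A) (hx' : x' ∈ A) (h1 : x < y) (h2 : x' < y)
    (h : W A x y = W A x' y) (hpos : 0 < x) : x = x' := by
  rcases lt_trichotomy x x' with h3 | h3 | h3
  · have h4 := W_add (A := A) h3.le h2.le
    have h5 := le_W hx' h3
    omega
  · exact h3
  · have h4 := W_add (A := A) h3.le h1.le
    have h5 := le_W hx h3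
    omega

theorem Dset_card {A U : Finset ℕ} {V : ℕ → Finset ℕ} (hU : ∀ x ∈ U, x ∈ A ∧ 0 < x)
    (hUV : ∀ j, ∀ y ∈ V j, ∀ x ∈ U, x < y) (K : ℕ) :
    ∑ j ∈ range K, U.card * (V j).card ≤ (Dset A U V K).card + ∑ j ∈ range K, (cross A U V j + inn A U V j) := by
  classical
  induction K with
  | zero => simp
  | succ K ih =>
    rw [Finset.sum_range_succ, Finset.sum_range_succ]
    set f : ℕ × ℕ → ℕ := fun p => W A p.1 p.2 with hf
    set P := (U ×ˢ V K).filter (fun p => ¬ (W A p.1 p.2 ∈ Dset A U V K)) with hP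
    have h1 : P.card ≤ (P.image f).card + ((P ×ˢ P).filter (fun z => z.2.2 < z.1.2 ∧ f z.1 = f z.2)).card := by
      apply fib
      intro p hp q hq h h'
      rw [hP, Finset.mem_filter, Finset.mem_product] at hp hq
      have e1 := hU _ hp.1.1
      have e2 := hU _ hq.1.1
      have e3 := hUV K _ hp.1.2 _ hp.1.1
      have e4 := hUV K _ hq.1.2 _ hq.1.1
      rw [hf] at h
      simp only at h
      rw [← h'] at e4
      rw [← h'] at h
      have := W_inj_left e1.1 e2.1 e3 e4 h e1.2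
      exact Prod.ext this h'
    have h2 : ((P ×ˢ P).filter (fun z => z.2.2 < z.1.2 ∧ f z.1 = f z.2)).card ≤ inn A U V K := by
      unfold inn
      apply Finset.card_le_card
      intro z hz
      rw [Finset.mem_filter, Finset.mem_product] at hz ⊢
      refine ⟨⟨(Finset.mem_filter.1 hz.1.1).1, (Finset.mem_filter.1 hz.1.2).1⟩, hz.2⟩
    have h3 : (U ×ˢ V K).card = cross A U V K + P.card := by
      unfold cross
      rw [hP, Finset.card_filter_add_card_filter_not]
    have h4 : (P.image f).card + (Dset A U V K).card ≤ (Dset A U V (K + 1)).card := by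
      rw [← Finset.card_union_of_disjoint]
      · apply Finset.card_le_card
        intro v hv
        unfold Dset
        rw [Finset.mem_biUnion]
        rcases Finset.mem_union.1 hv with h | h
        · obtain ⟨p, hp, rfl⟩ := Finset.mem_image.1 h
          refine ⟨K, Finset.mem_range.2 (Nat.lt_succ_self K), ?_⟩
          rw [hP, Finset.mem_filter] at hp
          exact Finset.mem_image_of_mem _ hp.1
        · unfold Dset at h
          rw [Finset.mem_biUnion] at h
          obtain ⟨i, hi, hi'⟩ := h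
          exact ⟨i, Finset.mem_range.2 ((Finset.mem_range.1 hi).trans (Nat.lt_succ_self K)), hi'⟩
      · rw [Finset.disjoint_left]
        intro v hv hv'
        obtain ⟨p, hp, rfl⟩ := Finset.mem_image.1 hv
        rw [hP, Finset.mem_filter] at hp
        exact hp.2 hv'
    rw [Finset.card_product] at h3
    omega

theorem Dset_sub {A U : Finset ℕ} {V : ℕ → Finset ℕ} (hV : ∀ j, V j ⊆ A)
    (hUV : ∀ j, ∀ y ∈ V j, ∀ x ∈ U, x < y) (K : ℕ) : Dset A U V K ⊆ consecSums A := by
  intro v hv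
  unfold Dset at hv
  rw [Finset.mem_biUnion] at hv
  obtain ⟨i, _, hi⟩ := hv
  obtain ⟨p, hp, rfl⟩ := Finset.mem_image.1 hi
  rw [Finset.mem_product] at hp
  exact W_mem (hV i hp.2) (hUV i _ hp.2 _ hp.1)

/-- two windows with the same number of elements and the same sum have the same elements -/
theorem win_unique {A : Finset ℕ} {y1 z1 y2 z2 : ℕ} (hy2 : y2 ∈ A) (h1 : y1 < y2)
    (hyz2 : y2 < z2) (hz2 : z2 ∈ A) (hC : Cn A y1 z1 = Cn A y2 z2) : W A y1 z1 < W A y2 z2 := by
  by_cases h : z2 ≤ z1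
  · exfalso
    have e1 := Cn_add (A := A) (x := y1) (y := y2) (z := z1) h1.le (by omega)
    have e2 := one_le_Cn hy2 h1
    have e3 := Cn_add (A := A) (x := y2) (y := z2) (z := z1) hyz2.le h
    omega
  · push Not at h
    -- z1 < z2
    rcases le_or_gt z1 y2 with h3 | h3
    · -- windows disjoint
      have e1 : W A y1 z1 ≤ Cn A y1 z1 * z1 := W_le (fun a _ ha => ha)
      have e2 : Cn A y2 z2 * (z1 + 1) ≤ W A y2 z2 := W_ge (by omega)
      have e3 := one_le_Cn hz2 hyz2
      rw [hC] at e1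
      nlinarith
    · have e1 := Cn_add (A := A) (x := y1) (y := y2) (z := z1) h1.le h3.le
      have e2 := Cn_add (A := A) (x := y2) (y := z1) (z := z2) h3.le h.le
      have e3 := W_add (A := A) (x := y1) (y := y2) (z := z1) h1.le h3.le
      have e4 := W_add (A := A) (x := y2) (y := z1) (z := z2) h3.le h.le
      have e5 : W A y1 y2 ≤ Cn A y1 y2 * y2 := W_le (fun a _ ha => ha)
      have e6 : Cn A z1 z2 * (z1 + 1) ≤ W A z1 z2 := W_ge (by omega)
      have e7 : Cn A y1 y2 = Cn A z1 z2 := by omega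
      have e8 := one_le_Cn hz2 h
      rw [e7] at e5
      have : Cn A z1 z2 * y2 < Cn A z1 z2 * (z1 + 1) := by nlinarith
      omega

end R851CS
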