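import Mathlib
import Pool.Agent.R851.CS.Det

namespace R851CS
open Finset

/-- there is a window of `A` above `B0` with `r` elements and sum `m` -/
def Ev (A : Finset ℕ) (B0 r m : ℕ) : Prop := ∃ y' y, B0 ≤ y' ∧ y' < y ∧ Cn A y' y = r ∧ W A y' y = m

theorem W_strict {A : Finset ℕ} {x y y' : ℕ} (hy : y ∈ A) (hy' : y' ∈ A) (h : x < y) (h' : x < y')
    (hW : W A x y = W A x y') : y = y' := by
  rcases lt_trichotomy y y' with h3 | h3 | h3
  · have h4 := W_step (A := A) hy' h3 h.le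
    omega
  · exact h3
  · have h4 := W_step (A := A) hy h3 h'.le
    omega

open Classical in
theorem inn_le {A U : Finset ℕ} {V : ℕ → Finset ℕ} {B0 n x0 l : ℕ}
    (hU : ∀ x ∈ U, x ∈ A ∧ x0 < x ∧ x ≤ B0) (hV : ∀ j, V j ⊆ A) (hVB : ∀ j, ∀ y ∈ V j, B0 < y)
    (hVd : ∀ j j', j ≠ j' → Disjoint (V j) (V j'))
    (hVl : ∀ j, ∀ y' ∈ V j, ∀ y ∈ V j, y' < y → Cn A y' y ≤ l)
    (hAn : ∀ a ∈ A, a ≤ n) (hn : n ≤ 4 * (x0 + 1)) (K : ℕ) :
    ∑ j ∈ range K, inn A U V j ≤ ∑ t ∈ (U ×ˢ U).filter (fun t => t.1 < t.2),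
      ((Icc 1 l).filter (fun r => Ev A B0 r (W A t.1 t.2) ∧ r ≤ Cn A t.1 t.2 ∧ Cn A t.1 t.2 ≤ 4 * r)).card := by
  -- step 1: reorganise
  have h1 : ∀ j, inn A U V j ≤ ∑ t ∈ (U ×ˢ U).filter (fun t => t.1 < t.2),
      ((V j ×ˢ V j).filter (fun b => b.1 < b.2 ∧ W A b.1 b.2 = W A t.1 t.2)).card := by
    intro j
    rw [← Finset.card_sigma]
    unfold inn
    apply Finset.card_le_card_of_injOn
      (fun z => (⟨(z.2.1, z.1.1), (z.2.2, z.1.2)⟩ : (_ : ℕ × ℕ) × ℕ × ℕ))
    · intro z hz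
      have hz' := Finset.mem_coe.1 hz
      rw [Finset.mem_filter, Finset.mem_product, Finset.mem_product, Finset.mem_product] at hz'
      obtain ⟨⟨⟨hx, hy⟩, ⟨hx', hy'⟩⟩, hlt, hW⟩ := hz'
      have ex := hU _ hx
      have ex' := hU _ hx'
      have ey := hVB j _ hy
      have ey' := hVB j _ hy'
      have e1 := W_add (A := A) (x := z.1.1) (y := z.2.2) (z := z.1.2) (by omega) hlt.le
      have e2 := le_W (hV j hy) hlt
      have hxx : z.2.1 < z.1.1 := by
        by_contra hcon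
        push Not at hcon
        have e3 := W_add (A := A) (x := z.1.1) (y := z.2.1) (z := z.2.2) hcon (by omega)
        omega
      have e3 := W_add (A := A) (x := z.2.1) (y := z.1.1) (z := z.2.2) hxx.le (by omega)
      apply Finset.mem_coe.2
      rw [Finset.mem_sigma, Finset.mem_filter, Finset.mem_filter, Finset.mem_product, Finset.mem_product]
      refine ⟨⟨⟨hx', hx⟩, hxx⟩, ⟨hy', hy⟩, hlt, ?_⟩
      show W A z.2.2 z.1.2 = W A z.2.1 z.1.1
      omega
    · intro z _ z' _ h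
      simp only [Sigma.mk.injEq, heq_eq_eq, Prod.mk.injEq] at h
      obtain ⟨⟨a1, a2⟩, a3, a4⟩ := h
      exact Prod.ext (Prod.ext a2 a4) (Prod.ext a1 a3)
  refine (Finset.sum_le_sum (fun j _ => h1 j)).trans ?_
  rw [Finset.sum_comm]
  apply Finset.sum_le_sum
  intro t ht
  rw [Finset.mem_filter, Finset.mem_product] at ht
  obtain ⟨⟨ht1, ht2⟩, htlt⟩ := ht
  have eu1 := hU _ ht1
  have eu2 := hU _ ht2
  rw [← Finset.card_sigma]
  apply Finset.card_le_card_of_injOn (fun z => Cn A z.2.1 z.2.2)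
  · intro z hz
    have hz' := Finset.mem_coe.1 hz
    rw [Finset.mem_sigma, Finset.mem_filter, Finset.mem_product] at hz'
    obtain ⟨_, ⟨hy', hy⟩, hlt, hW⟩ := hz'
    have ey := hVB _ _ hy
    have ey' := hVB _ _ hy'
    apply Finset.mem_coe.2
    rw [Finset.mem_filter, Finset.mem_Icc]
    refine ⟨⟨one_le_Cn (hV _ hy) hlt, hVl _ _ hy' _ hy hlt⟩, ⟨z.2.1, z.2.2, ey'.le, hlt, rfl, hW⟩, ?_, ?_⟩
    · have e1 : Cn A z.2.1 z.2.2 * (B0 + 1) ≤ W A z.2.1 z.2.2 := W_ge (by omega)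
      have e2 : W A t.1 t.2 ≤ Cn A t.1 t.2 * B0 := W_le (fun a _ ha => by omega)
      by_contra hcon
      push Not at hcon
      show False
      have : Cn A t.1 t.2 * B0 < Cn A z.2.1 z.2.2 * (B0 + 1) := by nlinarith
      omega
    · have e1 : W A z.2.1 z.2.2 ≤ Cn A z.2.1 z.2.2 * n := W_le (fun a ha _ => hAn a ha)
      have e2 : Cn A t.1 t.2 * (x0 + 1) ≤ W A t.1 t.2 := W_ge (by omega)
      have e3 := one_le_Cn (hV _ hy) hlt
      by_contra hcon
      push Not at hcon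
      have e4 : Cn A z.2.1 z.2.2 * n ≤ Cn A z.2.1 z.2.2 * (4 * (x0 + 1)) := Nat.mul_le_mul_left _ hn
      have e5 : (4 * Cn A z.2.1 z.2.2) * (x0 + 1) < Cn A t.1 t.2 * (x0 + 1) :=
        Nat.mul_lt_mul_of_pos_right hcon (by omega)
      have e6 : Cn A z.2.1 z.2.2 * (4 * (x0 + 1)) = (4 * Cn A z.2.1 z.2.2) * (x0 + 1) := by ring
      omega
  · intro z hz z' hz' h
    have hz1 := Finset.mem_coe.1 hz
    have hz1' := Finset.mem_coe.1 hz'
    rw [Finset.mem_sigma, Finset.mem_filter, Finset.mem_product] at hz1 hz1'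
    obtain ⟨_, ⟨hy', hy⟩, hlt, hW⟩ := hz1
    obtain ⟨_, ⟨hy2', hy2⟩, hlt2, hW2⟩ := hz1'
    simp only at h
    have e1 : z.2.1 = z'.2.1 := by
      rcases lt_trichotomy z.2.1 z'.2.1 with h3 | h3 | h3
      · have := win_unique (hV _ hy2') h3 hlt2 (hV _ hy2) h
        omega
      · exact h3
      · have := win_unique (hV _ hy') h3 hlt (hV _ hy) h.symm
        omega
    have e2 : z.2.2 = z'.2.2 := by
      apply W_strict (hV _ hy) (hV _ hy2) hlt (by rw [e1]; exact hlt2)
      rw [hW, ← hW2, e1]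
    have e3 : z.1 = z'.1 := by
      by_contra hne
      have := Finset.disjoint_left.1 (hVd _ _ hne) hy
      rw [e2] at this
      exact this hy2
    rcases z with ⟨a, b⟩
    rcases z' with ⟨a', b'⟩
    simp only at e1 e2 e3
    subst e3
    congr
    exact Prod.ext e1 e2

/-- number of `x ∈ U` above `x'` with a bounded number of elements in between -/
theorem count_Cn {A U : Finset ℕ} (hU : U ⊆ A) (x' c : ℕ) :
    (U.filter (fun x => x' < x ∧ Cn A x' x ≤ c)).card ≤ c := by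
  have : (U.filter (fun x => x' < x ∧ Cn A x' x ≤ c)).card ≤ (Icc 1 c).card := by
    apply Finset.card_le_card_of_injOn (fun x => Cn A x' x)
    · intro x hx
      have hx' := Finset.mem_coe.1 hx
      rw [Finset.mem_filter] at hx'
      apply Finset.mem_coe.2
      rw [Finset.mem_Icc]
      exact ⟨one_le_Cn (hU hx'.1) hx'.2.1, hx'.2.2⟩
    · intro x hx y hy h
      have hx' := Finset.mem_coe.1 hx
      have hy' := Finset.mem_coe.1 hy
      rw [Finset.mem_filter] at hx' hy'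
      simp only at h
      rcases lt_trichotomy x y with h3 | h3 | h3
      · have e1 := Cn_add (A := A) hx'.2.1.le h3.le
        have e2 := one_le_Cn (hU hy'.1) h3
        omega
      · exact h3
      · have e1 := Cn_add (A := A) hy'.2.1.le h3.le
        have e2 := one_le_Cn (hU hx'.1) h3
        omega
  rwa [Nat.card_Icc, Nat.add_sub_cancel] at this

open Classical in
/-- pointwise bound: small windows are treated trivially -/
theorem inn_le' {A U : Finset ℕ} {V : ℕ → Finset ℕ} {B0 n x0 l : ℕ}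
    (hU : ∀ x ∈ U, x ∈ A ∧ x0 < x ∧ x ≤ B0) (hV : ∀ j, V j ⊆ A) (hVB : ∀ j, ∀ y ∈ V j, B0 < y)
    (hVd : ∀ j j', j ≠ j' → Disjoint (V j) (V j'))
    (hVl : ∀ j, ∀ y' ∈ V j, ∀ y ∈ V j, y' < y → Cn A y' y ≤ l)
    (hAn : ∀ a ∈ A, a ≤ n) (hn : n ≤ 4 * (x0 + 1)) (K R0 : ℕ) :
    ∑ j ∈ range K, inn A U V j ≤ 4 * R0 * R0 * U.card + ∑ r ∈ Ico R0 (l + 1),
      ((U ×ˢ U).filter (fun t => t.1 < t.2 ∧ Ev A B0 r (W A t.1 t.2) ∧ r ≤ Cn A t.1 t.2 ∧ Cn A t.1 t.2 ≤ 4 * r)).card := by
  refine (inn_le hU hV hVB hVd hVl hAn hn K).trans ?_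
  have h1 : ∀ t ∈ (U ×ˢ U).filter (fun t => t.1 < t.2),
      ((Icc 1 l).filter (fun r => Ev A B0 r (W A t.1 t.2) ∧ r ≤ Cn A t.1 t.2 ∧ Cn A t.1 t.2 ≤ 4 * r)).card
      ≤ ((range R0).filter (fun r => Cn A t.1 t.2 ≤ 4 * r)).card
        + ((Ico R0 (l + 1)).filter (fun r => Ev A B0 r (W A t.1 t.2) ∧ r ≤ Cn A t.1 t.2 ∧ Cn A t.1 t.2 ≤ 4 * r)).card := by
    intro t _
    rw [← Finset.card_union_of_disjoint]
    · apply Finset.card_le_card
      intro r hr
      rw [Finset.mem_filter, Finset.mem_Icc] at hr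
      rw [Finset.mem_union, Finset.mem_filter, Finset.mem_filter, Finset.mem_range, Finset.mem_Ico]
      by_cases h : r < R0
      · exact Or.inl ⟨h, hr.2.2.2⟩
      · exact Or.inr ⟨⟨by omega, by omega⟩, hr.2⟩
    · rw [Finset.disjoint_left]
      intro r hr hr'
      rw [Finset.mem_filter, Finset.mem_range] at hr
      rw [Finset.mem_filter, Finset.mem_Ico] at hr'
      omega
  refine (Finset.sum_le_sum h1).trans ?_
  rw [Finset.sum_add_distrib]
  apply Nat.add_le_add
  · have h2 : ∀ t ∈ (U ×ˢ U).filter (fun t => t.1 < t.2),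
        ((range R0).filter (fun r => Cn A t.1 t.2 ≤ 4 * r)).card ≤ if Cn A t.1 t.2 ≤ 4 * R0 then R0 else 0 := by
      intro t _
      split_ifs with h
      · refine (Finset.card_filter_le _ _).trans ?_
        rw [Finset.card_range]
      · rw [Nat.le_zero, Finset.card_eq_zero, Finset.filter_eq_empty_iff]
        intro r hr
        rw [Finset.mem_range] at hr
        omega
    refine (Finset.sum_le_sum h2).trans ?_
    rw [← Finset.sum_filter, Finset.sum_const, smul_eq_mul]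
    have h3 : (((U ×ˢ U).filter (fun t => t.1 < t.2)).filter (fun t => Cn A t.1 t.2 ≤ 4 * R0)).card
        ≤ U.card * (4 * R0) := by
      have : ((U ×ˢ U).filter (fun t => t.1 < t.2)).filter (fun t => Cn A t.1 t.2 ≤ 4 * R0)
          ⊆ U.biUnion (fun x' => (U.filter (fun x => x' < x ∧ Cn A x' x ≤ 4 * R0)).image (fun x => (x', x))) := by
        intro t ht
        rw [Finset.mem_filter, Finset.mem_filter, Finset.mem_product] at ht
        rw [Finset.mem_biUnion]
        refine ⟨t.1, ht.1.1.1, ?_⟩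
        rw [Finset.mem_image]
        exact ⟨t.2, Finset.mem_filter.2 ⟨ht.1.1.2, ht.1.2, ht.2⟩, rfl⟩
      refine (Finset.card_le_card this).trans ?_
      refine Finset.card_biUnion_le.trans ?_
      rw [← smul_eq_mul]
      apply Finset.sum_le_card_nsmul
      intro x' _
      refine Finset.card_image_le.trans ?_
      exact count_Cn (fun x hx => (hU x hx).1) x' (4 * R0)
    calc _ ≤ U.card * (4 * R0) * R0 := Nat.mul_le_mul_right _ h3
      _ = _ := by ring
  · apply le_of_eq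
    rw [Finset.sum_filter]
    simp_rw [Finset.card_filter]
    rw [Finset.sum_comm]
    apply Finset.sum_congr rfl
    intro t _
    by_cases ht : t.1 < t.2
    · rw [if_pos ht]
      apply Finset.sum_congr rfl
      intro r _
      simp [ht]
    · rw [if_neg ht]
      symm
      apply Finset.sum_eq_zero
      intro r _
      rw [if_neg (fun h => ht h.1)]

end R851CS
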