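import Mathlib
import Pool.Agent.R851.CS.Switch

namespace R851CS
open Finset

def uu (d t : ℕ) : ℕ := 2 * d * (t / d) + t % d

theorem uu_div {d : ℕ} (hd : 0 < d) (t : ℕ) : uu d t / d = 2 * (t / d) := by
  unfold uu
  have : 2 * d * (t / d) + t % d = t % d + d * (2 * (t / d)) := by ring
  rw [this, Nat.add_mul_div_left _ _ hd, Nat.div_eq_of_lt (Nat.mod_lt _ hd)]
  ring

theorem uu_mod {d : ℕ} (t : ℕ) : uu d t % d = t % d := by
  unfold uu
  have : 2 * d * (t / d) + t % d = t % d + d * (2 * (t / d)) := by ring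
  rw [this, Nat.add_mul_mod_self_left, Nat.mod_mod]

theorem uu_le (d t : ℕ) : uu d t ≤ 2 * t := by
  unfold uu
  have := Nat.div_add_mod t d
  nlinarith [Nat.zero_le (t % d)]

theorem uu_inj {d : ℕ} (hd : 0 < d) {t t' : ℕ} (h : uu d t = uu d t') : t = t' := by
  have h1 := uu_div hd t
  have h2 := uu_div hd t'
  have h3 := uu_mod (d := d) t
  have h4 := uu_mod (d := d) t'
  rw [h] at h1 h3
  have h5 : t / d = t' / d := by omega
  have h6 : t % d = t' % d := by omega
  rw [← Nat.div_add_mod t d, ← Nat.div_add_mod t' d, h5, h6]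

theorem uu_ne {d : ℕ} (hd : 0 < d) (t t' : ℕ) : uu d t ≠ uu d t' + d := by
  intro h
  have h1 := uu_div hd t
  have h2 := uu_div hd t'
  rw [h, Nat.add_div_right _ hd, h2] at h1
  omega

section
variable (b N : ℕ) (d q : ℕ → ℕ)
def len (k : ℕ) : ℕ := 2 * N * q k + 2 * d k
def off (k : ℕ) : ℕ := b + ∑ j ∈ range k, len N d q j
def Lo (k c : ℕ) : Finset ℕ := (Ico (c * q k) ((c + 1) * q k)).image (fun t => off b N d q k + uu (d k) t)
def Hi (k c : ℕ) : Finset ℕ := (Ico (c * q k) ((c + 1) * q k)).image (fun t => off b N d q k + uu (d k) t + d k)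
end

variable {b N : ℕ} {d q : ℕ → ℕ}

theorem off_succ (k : ℕ) : off b N d q (k + 1) = off b N d q k + len N d q k := by
  unfold off
  rw [Finset.sum_range_succ, add_assoc]

theorem off_mono {k k' : ℕ} (h : k ≤ k') : off b N d q k ≤ off b N d q k' := by
  unfold off
  have := Finset.sum_le_sum_of_subset (f := len N d q) (Finset.range_mono h)
  omega

theorem mem_range_of_LoHi (hd : ∀ k, 0 < d k) {k c a : ℕ} (hc : c < N)
    (ha : a ∈ Lo b N d q k c ∪ Hi b N d q k c) :
    off b N d q k ≤ a ∧ a < off b N d q (k + 1) := by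
  have hcq : (c + 1) * q k ≤ N * q k := Nat.mul_le_mul_right _ hc
  rw [off_succ]
  unfold len
  rw [Finset.mem_union] at ha
  rcases ha with ha | ha
  · obtain ⟨t, ht, rfl⟩ := Finset.mem_image.1 ha
    rw [Finset.mem_Ico] at ht
    have h1 := uu_le (d k) t
    have h2 := hd k
    constructor
    · omega
    · have : 2 * N * q k = 2 * (N * q k) := by ring
      omega
  · obtain ⟨t, ht, rfl⟩ := Finset.mem_image.1 ha
    rw [Finset.mem_Ico] at ht
    have h1 := uu_le (d k) t
    have h2 := hd k
    constructor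
    · omega
    · have : 2 * N * q k = 2 * (N * q k) := by ring
      omega

theorem sys_exist (hd : ∀ k, 0 < d k) (hdq : ∀ k, d k * q k = 2 ^ k) (L : ℕ) :
    Sys L N (Ico b (off b N d q L)) (Lo b N d q) (Hi b N d q) := by
  have hoff0 : off b N d q 0 = b := by unfold off; simp
  have hsub : ∀ k < L, ∀ c < N, Lo b N d q k c ∪ Hi b N d q k c ⊆ Ico b (off b N d q L) := by
    intro k hk c hc a ha
    obtain ⟨h1, h2⟩ := mem_range_of_LoHi hd hc ha
    have h3 := off_mono (b := b) (N := N) (d := d) (q := q) (Nat.zero_le k)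
    have h4 := off_mono (b := b) (N := N) (d := d) (q := q) (show k + 1 ≤ L by omega)
    rw [hoff0] at h3
    rw [Finset.mem_Ico]
    omega
  have injLo : ∀ k c, Set.InjOn (fun t => off b N d q k + uu (d k) t) (Ico (c * q k) ((c + 1) * q k) : Set ℕ) := by
    intro k c t _ t' _ h
    simp only at h
    exact uu_inj (hd k) (by omega)
  have injHi : ∀ k c, Set.InjOn (fun t => off b N d q k + uu (d k) t + d k) (Ico (c * q k) ((c + 1) * q k) : Set ℕ) := by
    intro k c t _ t' _ h
    simp only at h
    exact uu_inj (hd k) (by omega)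
  have hcard : ∀ k c, ((c + 1) * q k - c * q k) = q k := by
    intro k c
    rw [← Nat.sub_mul]; simp
  refine ⟨fun k hk c hc => Finset.subset_union_left.trans (hsub k hk c hc),
    fun k hk c hc => Finset.subset_union_right.trans (hsub k hk c hc), ?_, ?_, ?_, ?_⟩
  · intro k _ c _
    unfold Lo Hi
    rw [Finset.card_image_of_injOn (by exact_mod_cast injLo k c), Finset.card_image_of_injOn (by exact_mod_cast injHi k c)]
  · intro k _ c _
    unfold Lo Hi
    rw [Finset.sum_image (by intro x hx y hy h; exact injHi k c (by exact_mod_cast hx) (by exact_mod_cast hy) h),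
      Finset.sum_image (by intro x hx y hy h; exact injLo k c (by exact_mod_cast hx) (by exact_mod_cast hy) h)]
    rw [Finset.sum_add_distrib (g := fun _ => d k)]
    rw [Finset.sum_const, Nat.card_Ico, hcard, smul_eq_mul, mul_comm (q k), hdq]
  · intro k _ c _
    unfold Lo Hi
    rw [Finset.disjoint_left]
    intro a ha ha'
    obtain ⟨t, ht, rfl⟩ := Finset.mem_image.1 ha
    obtain ⟨t', ht', h⟩ := Finset.mem_image.1 ha'
    exact uu_ne (hd k) t t' (by omega)
  · intro k hk c hc k' hk' c' hc' hne
    rw [Finset.disjoint_left]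
    intro a ha ha'
    by_cases hkk : k = k'
    · subst hkk
      have hcc : c ≠ c' := fun h => hne (by rw [h])
      have hdisj : ∀ t ∈ Ico (c * q k) ((c + 1) * q k), ∀ t' ∈ Ico (c' * q k) ((c' + 1) * q k), t ≠ t' := by
        intro t ht t' ht' h
        subst h
        rw [Finset.mem_Ico] at ht ht'
        rcases lt_or_gt_of_ne hcc with h1 | h1
        · have : (c + 1) * q k ≤ c' * q k := Nat.mul_le_mul_right _ h1
          omega
        · have : (c' + 1) * q k ≤ c * q k := Nat.mul_le_mul_right _ h1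
          omega
      rw [Finset.mem_union] at ha ha'
      rcases ha with ha | ha <;> rcases ha' with ha' | ha'
      · obtain ⟨t, ht, rfl⟩ := Finset.mem_image.1 ha
        obtain ⟨t', ht', h⟩ := Finset.mem_image.1 ha'
        exact hdisj t ht t' ht' (uu_inj (hd k) (by omega))
      · obtain ⟨t, ht, rfl⟩ := Finset.mem_image.1 ha
        obtain ⟨t', ht', h⟩ := Finset.mem_image.1 ha'
        exact uu_ne (hd k) t t' (by omega)
      · obtain ⟨t, ht, rfl⟩ := Finset.mem_image.1 ha
        obtain ⟨t', ht', h⟩ := Finset.mem_image.1 ha'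
        exact uu_ne (hd k) t' t (by omega)
      · obtain ⟨t, ht, rfl⟩ := Finset.mem_image.1 ha
        obtain ⟨t', ht', h⟩ := Finset.mem_image.1 ha'
        exact hdisj t ht t' ht' (uu_inj (hd k) (by omega))
    · obtain ⟨h1, h2⟩ := mem_range_of_LoHi hd hc ha
      obtain ⟨h3, h4⟩ := mem_range_of_LoHi hd hc' ha'
      rcases lt_or_gt_of_ne hkk with h | h
      · have := off_mono (b := b) (N := N) (d := d) (q := q) (show k + 1 ≤ k' by omega)
        omega
      · have := off_mono (b := b) (N := N) (d := d) (q := q) (show k' + 1 ≤ k by omega)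
        omega

theorem card_Lo_le (k c : ℕ) : (Lo b N d q k c).card ≤ q k := by
  unfold Lo
  refine Finset.card_image_le.trans ?_
  rw [Nat.card_Ico, ← Nat.sub_mul]; simp

end R851CS
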