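import Mathlib
import Pool.Agent.R851.CS.Fail
import Pool.Agent.R851.CS.SysExist
import Pool.Agent.R851.CS.InDet

namespace R851CS
open Finset

theorem sum_ge_of_ge (s : Finset ℕ) (c : ℕ) (h : ∀ a ∈ s, c ≤ a) :
    2 * s.card * c + s.card * (s.card - 1) ≤ 2 * ∑ a ∈ s, a := by
  induction s using Finset.induction_on_max with
  | empty => simp
  | insert a s ha ih =>
    have hna : a ∉ s := fun h' => lt_irrefl _ (ha a h')
    rw [Finset.sum_insert hna, Finset.card_insert_of_notMem hna]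
    have ih' := ih (fun b hb => h b (Finset.mem_insert_of_mem hb))
    have hc : s.card + c ≤ a := by
      have hsub : s ⊆ Ico c a := by
        intro b hb
        rw [Finset.mem_Ico]
        exact ⟨h b (Finset.mem_insert_of_mem hb), ha b hb⟩
      have h1 := Finset.card_le_card hsub
      rw [Nat.card_Ico] at h1
      have h2 := h a (Finset.mem_insert_self a s)
      omega
    rw [Nat.add_sub_cancel]
    rcases Nat.eq_zero_or_pos s.card with h0 | h0
    · rw [h0] at ih' hc ⊢
      simp at ih' hc ⊢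
      omega
    · obtain ⟨k, hk⟩ : ∃ k, s.card = k + 1 := ⟨s.card - 1, by omega⟩
      rw [hk] at ih' hc ⊢
      rw [Nat.add_sub_cancel] at ih'
      nlinarith

theorem sum_le_of_lt (s : Finset ℕ) (C : ℕ) (h : ∀ a ∈ s, a < C) :
    2 * ∑ a ∈ s, a + s.card * (s.card + 1) ≤ 2 * s.card * C := by
  induction s using Finset.induction_on_min with
  | empty => simp
  | insert a s ha ih =>
    have hna : a ∉ s := fun h' => lt_irrefl _ (ha a h')
    rw [Finset.sum_insert hna, Finset.card_insert_of_notMem hna]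
    have ih' := ih (fun b hb => h b (Finset.mem_insert_of_mem hb))
    have hc : a + 1 + s.card ≤ C := by
      have hsub : s ⊆ Ioo a C := by
        intro b hb
        rw [Finset.mem_Ioo]
        exact ⟨ha b hb, h b (Finset.mem_insert_of_mem hb)⟩
      have h1 := Finset.card_le_card hsub
      rw [Nat.card_Ioo] at h1
      have h2 := h a (Finset.mem_insert_self a s)
      omega
    nlinarith

/-- a set of `r` naturals with sum `m` has elements on both sides of the core around `m / r` -/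
theorem core_lt (s : Finset ℕ) {r m : ℕ} (hr : 6 ≤ r) (hc : s.card = r) (hs : ∑ a ∈ s, a = m) :
    r / 4 ≤ m / r ∧ (∃ a ∈ s, a < m / r - r / 4) ∧ (∃ a ∈ s, m / r - r / 4 + r / 2 ≤ a) := by
  have hrpos : 0 < r := by omega
  have hz1 : r * (m / r) ≤ m := Nat.mul_div_le m r
  have hz2 : m < r * (m / r + 1) := by
    have := Nat.lt_mul_div_succ m hrpos
    exact this
  set z := m / r with hz
  have h4 : 4 * (r / 4) ≤ r := Nat.mul_div_le r 4
  have h2 : 2 * (r / 2) ≤ r := Nat.mul_div_le r 2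
  set u := r / 4 with hu
  set v := r / 2 with hv
  have hbase := sum_ge_of_ge s 0 (fun a _ => Nat.zero_le a)
  rw [hc, hs] at hbase
  obtain ⟨k, hk⟩ : ∃ k, r = k + 1 := ⟨r - 1, by omega⟩
  have hzu : u ≤ z := by
    rw [hk, Nat.add_sub_cancel] at hbase
    by_contra hcon
    push Not at hcon
    have h5 : r * (z + 1) ≤ r * u := Nat.mul_le_mul_left _ hcon
    have h6 : m < r * u := by omega
    have h7 : 2 * m < 2 * (r * u) := by omega
    have h8 : 4 * (r * u) ≤ r * r := by nlinarith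
    nlinarith
  refine ⟨hzu, ?_, ?_⟩
  · by_contra hcon
    push Not at hcon
    have h5 := sum_ge_of_ge s (z - u) hcon
    rw [hc, hs] at h5
    obtain ⟨w, hw⟩ : ∃ w, z = w + u := ⟨z - u, by omega⟩
    rw [hw, Nat.add_sub_cancel] at h5
    rw [hw] at hz2
    rw [hk, Nat.add_sub_cancel] at h5
    rw [hk] at hz2 h4
    have h9 : 2 * (k + 1) * w + (k + 1) * k < 2 * ((k + 1) * (w + u + 1)) := by omega
    have h10 : k < 2 * (u + 1) := by nlinarith
    omega
  · by_contra hcon
    push Not at hcon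
    have h5 := sum_le_of_lt s (z - u + v) hcon
    rw [hc, hs] at h5
    obtain ⟨w, hw⟩ : ∃ w, z = w + u := ⟨z - u, by omega⟩
    rw [hw, Nat.add_sub_cancel] at h5
    rw [hw] at hz1
    have h9 : 2 * (r * (w + u)) + r * (r + 1) ≤ 2 * r * (w + v) := by omega
    have h10 : 2 * u + (r + 1) ≤ 2 * v := by nlinarith
    omega

theorem win_congr {A A' : Finset ℕ} {x y : ℕ} (h : ∀ a, x < a → a ≤ y → (a ∈ A ↔ a ∈ A')) :
    win A x y = win A' x y := by
  ext a
  rw [mem_win, mem_win]
  constructor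
  · rintro ⟨h1, h2, h3⟩; exact ⟨(h a h2 h3).1 h1, h2, h3⟩
  · rintro ⟨h1, h2, h3⟩; exact ⟨(h a h2 h3).2 h1, h2, h3⟩

theorem W_congr {A A' : Finset ℕ} {x y : ℕ} (h : ∀ a, x < a → a ≤ y → (a ∈ A ↔ a ∈ A')) :
    W A x y = W A' x y := by unfold W; rw [win_congr h]

theorem Cn_congr {A A' : Finset ℕ} {x y : ℕ} (h : ∀ a, x < a → a ≤ y → (a ∈ A ↔ a ∈ A')) :
    Cn A x y = Cn A' x y := by unfold Cn; rw [win_congr h]

variable {L N : ℕ} {I : Finset ℕ} {lo hi : ℕ → ℕ → Finset ℕ}

theorem W_cast (A : Finset ℕ) (x y : ℕ) :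
    (W A x y : ℤ) = ∑ a ∈ A, (if x < a ∧ a ≤ y then (a : ℤ) else 0) := by
  unfold W win
  rw [Finset.sum_filter]
  push_cast
  rfl

theorem Cn_cast (A : Finset ℕ) (x y : ℕ) :
    (Cn A x y : ℤ) = ∑ a ∈ A, (if x < a ∧ a ≤ y then (1 : ℤ) else 0) := by
  unfold Cn win
  rw [Finset.card_filter]
  push_cast
  rfl

/-- effect of a toggle on a window containing the whole system -/
theorem W_tog (hs : Sys L N I lo hi) {A S : Finset ℕ} (hg : Good L N lo hi A) (hS : S ⊆ range L)
    {x y : ℕ} (hI : ∀ a ∈ I, x < a ∧ a ≤ y) :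
    W (tog N lo hi A S) x y + ∑ k ∈ NA L N lo hi A, 2 ^ k = W A x y + vv L N lo hi A S := by
  have h := tog_sum_pow hs hg hS (fun a => if x < a ∧ a ≤ y then (a : ℤ) else 0) (by
    intro k hk c hc
    have e1 : ∑ a ∈ hi k c, (if x < a ∧ a ≤ y then (a : ℤ) else 0) = ∑ a ∈ hi k c, (a : ℤ) :=
      Finset.sum_congr rfl (fun a ha => if_pos (hI a (hs.hiI k hk c hc ha)))
    have e2 : ∑ a ∈ lo k c, (if x < a ∧ a ≤ y then (a : ℤ) else 0) = ∑ a ∈ lo k c, (a : ℤ) :=
      Finset.sum_congr rfl (fun a ha => if_pos (hI a (hs.loI k hk c hc ha)))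
    rw [e1, e2]
    have h3 : ((∑ a ∈ hi k c, a : ℕ) : ℤ) = (((∑ a ∈ lo k c, a) + 2 ^ k : ℕ) : ℤ) := by
      rw [hs.sum_eq k hk c hc]
    push_cast at h3
    exact h3)
  rw [← W_cast, ← W_cast] at h
  exact_mod_cast h

open Classical in
theorem Cn_tog (hs : Sys L N I lo hi) {A S : Finset ℕ} (hg : Good L N lo hi A) (hS : S ⊆ range L)
    {x y : ℕ} (hI : ∀ a ∈ I, x < a ∧ a ≤ y) :
    Cn (tog N lo hi A S) x y = Cn A x y := by
  have h := tog_sum hs hg hS (fun a => if x < a ∧ a ≤ y then (1 : ℤ) else 0)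
  rw [← Cn_cast, ← Cn_cast] at h
  rw [Finset.sum_eq_zero, add_zero] at h
  · exact_mod_cast h
  · intro k hk
    have hkL := Finset.mem_range.1 (hS hk)
    obtain ⟨hc, _⟩ := cs_spec hg hkL
    have e1 : ∑ a ∈ hi k (cs N lo hi A k), (if x < a ∧ a ≤ y then (1 : ℤ) else 0) = (hi k (cs N lo hi A k)).card := by
      rw [Finset.sum_congr rfl (fun a ha => if_pos (hI a (hs.hiI k hkL _ hc ha)))]
      simp
    have e2 : ∑ a ∈ lo k (cs N lo hi A k), (if x < a ∧ a ≤ y then (1 : ℤ) else 0) = (lo k (cs N lo hi A k)).card := by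
      rw [Finset.sum_congr rfl (fun a ha => if_pos (hI a (hs.loI k hkL _ hc ha)))]
      simp
    rw [e1, e2, hs.card_eq k hkL _ hc]
    ring

theorem W_eq_zero {A : Finset ℕ} {x y : ℕ} (h : Cn A x y = 0) : W A x y = 0 := by
  unfold Cn at h
  rw [Finset.card_eq_zero] at h
  unfold W
  rw [h, Finset.sum_empty]

/-- at most one toggle produces a window with given number of elements and sum -/
theorem ev_unique (hs : Sys L N I lo hi) {A S1 S2 : Finset ℕ} (hg : Good L N lo hi A)
    (hS1 : S1 ⊆ range L) (hS2 : S2 ⊆ range L) {e f : ℕ} (hI : ∀ a ∈ I, e < a ∧ a ≤ f)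
    (hL : 2 ^ L ≤ f + 1 - e) {y1 z1 y2 z2 r m : ℕ} (h1 : y1 ≤ e) (h2 : f ≤ z1) (h3 : y2 ≤ e) (h4 : f ≤ z2)
    (hef : e ≤ f)
    (hc1 : Cn (tog N lo hi A S1) y1 z1 = r) (hw1 : W (tog N lo hi A S1) y1 z1 = m)
    (hc2 : Cn (tog N lo hi A S2) y2 z2 = r) (hw2 : W (tog N lo hi A S2) y2 z2 = m) (hy : y1 ≤ y2) :
    S1 = S2 := by
  have cong : ∀ S ⊆ range L, ∀ a, (a ≤ e ∨ f < a) → (a ∈ tog N lo hi A S ↔ a ∈ A) := by
    intro S hS a ha
    apply mem_tog_of_not_mem hs hg hS
    intro haI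
    have := hI a haI
    omega
  have key : ∀ S ⊆ range L, ∀ y z, y ≤ e → f ≤ z →
      Cn (tog N lo hi A S) y z = Cn A y e + Cn A e f + Cn A f z ∧
      W (tog N lo hi A S) y z + ∑ k ∈ NA L N lo hi A, 2 ^ k = W A y e + W A e f + W A f z + vv L N lo hi A S := by
    intro S hS y z hye hfz
    have a1 := Cn_add (A := tog N lo hi A S) (x := y) (y := e) (z := z) hye (by omega)
    have a2 := Cn_add (A := tog N lo hi A S) (x := e) (y := f) (z := z) hef hfz
    have a3 := W_add (A := tog N lo hi A S) (x := y) (y := e) (z := z) hye (by omega)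
    have a4 := W_add (A := tog N lo hi A S) (x := e) (y := f) (z := z) hef hfz
    have b1 : Cn (tog N lo hi A S) y e = Cn A y e := Cn_congr (fun a _ h => cong S hS a (Or.inl h))
    have b2 : Cn (tog N lo hi A S) f z = Cn A f z := Cn_congr (fun a h _ => cong S hS a (Or.inr h))
    have b3 : W (tog N lo hi A S) y e = W A y e := W_congr (fun a _ h => cong S hS a (Or.inl h))
    have b4 : W (tog N lo hi A S) f z = W A f z := W_congr (fun a h _ => cong S hS a (Or.inr h))
    have b5 := Cn_tog hs hg hS hI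
    have b6 := W_tog hs hg hS hI
    constructor
    · omega
    · omega
  obtain ⟨k1, k2⟩ := key S1 hS1 y1 z1 h1 h2
  obtain ⟨k3, k4⟩ := key S2 hS2 y2 z2 h3 h4
  have c1 := Cn_add (A := A) (x := y1) (y := y2) (z := e) hy h3
  have c2 := W_add (A := A) (x := y1) (y := y2) (z := e) hy h3
  rcases Nat.eq_zero_or_pos (Cn A y1 y2) with ht | ht
  · have d1 := W_eq_zero ht
    have d2 : Cn A f z1 = Cn A f z2 := by omega
    have d3 : W A f z1 = W A f z2 := by
      rcases le_total z1 z2 with hz | hz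
      · have d4 := Cn_add (A := A) h2 hz
        have d5 := W_add (A := A) h2 hz
        have d6 := W_eq_zero (A := A) (x := z1) (y := z2) (by omega)
        omega
      · have d4 := Cn_add (A := A) h4 hz
        have d5 := W_add (A := A) h4 hz
        have d6 := W_eq_zero (A := A) (x := z2) (y := z1) (by omega)
        omega
    exact vv_inj (L := L) (N := N) (lo := lo) (hi := hi) (A := A) (by omega)
  · exfalso
    have hz : z1 ≤ z2 := by
      by_contra hcon
      push Not at hcon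
      have d4 := Cn_add (A := A) h4 hcon.le
      omega
    have d4 := Cn_add (A := A) h2 hz
    have d5 := W_add (A := A) h2 hz
    have d6 : Cn A z1 z2 = Cn A y1 y2 := by omega
    have d7 : Cn A z1 z2 * (f + 1) ≤ W A z1 z2 := W_ge (by omega)
    have d8 : W A y1 y2 ≤ Cn A y1 y2 * e := W_le (fun a _ ha => by omega)
    have d9 := vv_lt (L := L) (N := N) (lo := lo) (hi := hi) (A := A) hS1
    rw [d6] at d7
    have d10 : Cn A y1 y2 * (f + 1) = Cn A y1 y2 * e + Cn A y1 y2 * (f + 1 - e) := by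
      rw [← Nat.mul_add]; congr 1; omega
    have d11 : f + 1 - e ≤ Cn A y1 y2 * (f + 1 - e) := Nat.le_mul_of_pos_left _ ht
    omega

end R851CS
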