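import Mathlib
import Pool.Agent.R851.CS.Event

namespace R851CS
open Finset

theorem off_le (b N L : ℕ) : off b N (fun k => 2 ^ k) (fun _ => 1) L ≤ b + (2 * N * L + 2 * 2 ^ L) := by
  unfold off len
  rw [Finset.sum_add_distrib, Finset.sum_const, Finset.card_range, ← Finset.mul_sum]
  have h := Nat.geomSum_lt (m := 2) (n := L) (s := range L) le_rfl (fun k hk => Finset.mem_range.1 hk)
  have : L • (2 * N * 1) = 2 * N * L := by rw [smul_eq_mul]; ring
  rw [this]
  omega

theorem loc_tog {β : Type*} {L N : ℕ} {I : Finset ℕ} {lo hi : ℕ → ℕ → Finset ℕ} (hs : Sys L N I lo hi)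
    {A S : Finset ℕ} (hg : Good L N lo hi A) (hS : S ⊆ range L) {B0 : ℕ} (hI : ∀ a ∈ I, B0 < a)
    (g : Finset ℕ → β) (hgl : ∀ A, g A = g (A.filter (fun a => a ≤ B0))) :
    g (tog N lo hi A S) = g A := by
  rw [hgl, hgl A]
  congr 1
  ext a
  rw [Finset.mem_filter, Finset.mem_filter]
  constructor
  · rintro ⟨h1, h2⟩
    exact ⟨(mem_tog_of_not_mem hs hg hS (fun h => absurd (hI a h) (by omega))).1 h1, h2⟩
  · rintro ⟨h1, h2⟩
    exact ⟨(mem_tog_of_not_mem hs hg hS (fun h => absurd (hI a h) (by omega))).2 h1, h2⟩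

theorem loc_sdiff {β : Type*} {I : Finset ℕ} {A : Finset ℕ} {B0 : ℕ} (hI : ∀ a ∈ I, B0 < a)
    (g : Finset ℕ → β) (hgl : ∀ A, g A = g (A.filter (fun a => a ≤ B0))) : g A = g (A \ I) := by
  rw [hgl, hgl (A \ I)]
  congr 1
  ext a
  rw [Finset.mem_filter, Finset.mem_filter, Finset.mem_sdiff]
  constructor
  · rintro ⟨h1, h2⟩
    exact ⟨⟨h1, fun h => absurd (hI a h) (by omega)⟩, h2⟩
  · rintro ⟨⟨h1, _⟩, h2⟩
    exact ⟨h1, h2⟩

open Classical in
theorem ev_prob {p : ℝ} (h0 : 0 ≤ p) (h1 : p ≤ 1) {n B0 r m N L : ℕ} (hr : 6 ≤ r)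
    (hspan : 2 * N * L + 2 * 2 ^ L ≤ r / 2) (g : Finset ℕ → ℝ) (hg0 : ∀ A, 0 ≤ g A)
    (hgl : ∀ A, g A = g (A.filter (fun a => a ≤ B0))) :
    Ex p (Icc 1 n) (fun A => if Ev A B0 r m then g A else 0)
      ≤ (1 / 2 ^ L + L * (1 - p * (1 - p)) ^ N) * Ex p (Icc 1 n) g := by
  have hpp : 0 ≤ p * (1 - p) := mul_nonneg h0 (by linarith)
  have hpp1 : p * (1 - p) ≤ 1 := by nlinarith
  set c0 := m / r - r / 4 with hc0
  have hEv : ∀ A ⊆ Icc 1 n, ∀ y' y, B0 ≤ y' → y' < y → Cn A y' y = r → W A y' y = m →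
      B0 < c0 ∧ c0 + r / 2 ≤ n ∧ y' < c0 ∧ c0 + r / 2 ≤ y := by
    intro A hA y' y hB hy hC hW
    obtain ⟨_, ⟨a1, ha1, hlt⟩, ⟨a2, ha2, hge⟩⟩ := core_lt (win A y' y) hr hC hW
    rw [mem_win] at ha1 ha2
    have := Finset.mem_Icc.1 (hA ha2.1)
    refine ⟨by omega, by omega, by omega, by omega⟩
  by_cases hcase : B0 < c0 ∧ c0 + r / 2 ≤ n
  · obtain ⟨hcB, hcn⟩ := hcase
    have hs := sys_exist (b := c0) (N := N) (d := fun k => 2 ^ k) (q := fun _ => 1)
      (fun k => by positivity) (fun k => by simp) L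
    set I := Ico c0 (off c0 N (fun k => 2 ^ k) (fun _ => 1) L) with hIdef
    set lo := Lo c0 N (fun k => 2 ^ k) (fun _ => 1)
    set hi := Hi c0 N (fun k => 2 ^ k) (fun _ => 1)
    have hI1 : ∀ a ∈ I, c0 ≤ a ∧ a < c0 + r / 2 := by
      intro a ha
      rw [hIdef, Finset.mem_Ico] at ha
      have := off_le c0 N L
      omega
    have hIG : I ⊆ Icc 1 n := by
      intro a ha
      have := hI1 a ha
      rw [Finset.mem_Icc]; omega
    have hIB : ∀ a ∈ I, B0 < a := by
      intro a ha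
      have := hI1 a ha
      omega
    have hsplit : ∀ A ⊆ Icc 1 n, (if Ev A B0 r m then g A else 0)
        ≤ (if Good L N lo hi A ∧ Ev A B0 r m then g A else 0) + (if Good L N lo hi A then 0 else g A) := by
      intro A _
      by_cases ha : Good L N lo hi A <;> by_cases hb : Ev A B0 r m <;> simp [ha, hb, hg0 A]
    refine (Ex_mono h0 h1 hsplit).trans ?_
    rw [Ex_add]
    have hA1 := avg hs h0 h1 hIG g (fun A _ => hg0 A)
      (fun A _ hgood S hS => loc_tog hs hgood hS hIB g hgl) (fun A => Ev A B0 r m) 1 (by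
        intro A hA hgood
        apply Finset.card_le_one.2
        intro S1 hS1 S2 hS2
        rw [Finset.mem_filter, Finset.mem_powerset] at hS1 hS2
        obtain ⟨hS1, y1, z1, b1, b2, b3, b4⟩ := hS1
        obtain ⟨hS2, y2, z2, d1, d2, d3, d4⟩ := hS2
        have e1 := hEv _ (tog_sub hs hgood hS1 hA hIG) y1 z1 b1 b2 b3 b4
        have e2 := hEv _ (tog_sub hs hgood hS2 hA hIG) y2 z2 d1 d2 d3 d4
        have hI' : ∀ a ∈ I, c0 - 1 < a ∧ a ≤ c0 + r / 2 - 1 := by
          intro a ha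
          have := hI1 a ha
          omega
        have hL : 2 ^ L ≤ (c0 + r / 2 - 1) + 1 - (c0 - 1) := by
          have : 0 < 2 ^ L := by positivity
          omega
        rcases le_total y1 y2 with hy | hy
        · exact ev_unique hs hgood hS1 hS2 hI' hL (by omega) (by omega) (by omega) (by omega) (by omega)
            b3 b4 d3 d4 hy
        · exact (ev_unique hs hgood hS2 hS1 hI' hL (by omega) (by omega) (by omega) (by omega) (by omega)
            d3 d4 b3 b4 hy).symm)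
    have hA2 := fail_le hs h0 h1 hIG 1 (fun k _ c _ => card_Lo_le k c) g (fun A _ => hg0 A)
      (fun A _ => loc_sdiff hIB g hgl)
    rw [pow_one] at hA2
    have := add_le_add hA1 hA2
    refine this.trans (le_of_eq ?_)
    push_cast
    ring
  · have hz : Ex p (Icc 1 n) (fun A => if Ev A B0 r m then g A else 0) = 0 := by
      refine (Ex_congr (g := fun _ => (0 : ℝ)) ?_).trans (Ex_const p (Icc 1 n) 0)
      intro A hA
      rw [if_neg]
      rintro ⟨y', y, b1, b2, b3, b4⟩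
      have := hEv A hA y' y b1 b2 b3 b4
      exact hcase ⟨this.1, this.2.1⟩
    rw [hz]
    apply mul_nonneg
    · have h2 : 0 ≤ (1 - p * (1 - p)) ^ N := pow_nonneg (by linarith) _
      positivity
    · exact Ex_nonneg h0 h1 (fun A _ => hg0 A)

open Classical in
/-- the same with a sum depending on the part of `A` below `B0` -/
theorem ev_prob' {p : ℝ} (h0 : 0 ≤ p) (h1 : p ≤ 1) {n B0 r N L : ℕ} (hr : 6 ≤ r)
    (hspan : 2 * N * L + 2 * 2 ^ L ≤ r / 2) (mm : Finset ℕ → ℕ) (F : Finset ℕ → Prop)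
    (hml : ∀ A, mm A = mm (A.filter (fun a => a ≤ B0)))
    (hFl : ∀ A, F A ↔ F (A.filter (fun a => a ≤ B0))) (M : ℕ) (hM : ∀ A ⊆ Icc 1 n, mm A < M) :
    Ex p (Icc 1 n) (fun A => if F A ∧ Ev A B0 r (mm A) then 1 else 0)
      ≤ (1 / 2 ^ L + L * (1 - p * (1 - p)) ^ N) * Ex p (Icc 1 n) (fun A => if F A then 1 else 0) := by
  have e1 : Ex p (Icc 1 n) (fun A => if F A ∧ Ev A B0 r (mm A) then 1 else 0)
      = ∑ m ∈ range M, Ex p (Icc 1 n) (fun A => if Ev A B0 r m then (if F A ∧ mm A = m then 1 else 0) else 0) := by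
    rw [← Ex_sum]
    apply Ex_congr
    intro A hA
    rw [Finset.sum_eq_single (mm A)]
    · by_cases ha : F A <;> by_cases hb : Ev A B0 r (mm A) <;> simp [ha, hb]
    · intro m _ hm
      have : ¬ (F A ∧ mm A = m) := fun h => hm h.2.symm
      simp [this]
    · intro h
      exact absurd (Finset.mem_range.2 (hM A hA)) h
  have e2 : Ex p (Icc 1 n) (fun A => if F A then 1 else 0)
      = ∑ m ∈ range M, Ex p (Icc 1 n) (fun A => if F A ∧ mm A = m then 1 else 0) := by
    rw [← Ex_sum]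
    apply Ex_congr
    intro A hA
    rw [Finset.sum_eq_single (mm A)]
    · by_cases ha : F A <;> simp [ha]
    · intro m _ hm
      have : ¬ (F A ∧ mm A = m) := fun h => hm h.2.symm
      simp [this]
    · intro h
      exact absurd (Finset.mem_range.2 (hM A hA)) h
  rw [e1, e2, Finset.mul_sum]
  apply Finset.sum_le_sum
  intro m _
  apply ev_prob h0 h1 hr hspan
  · intro A; split_ifs <;> norm_num
  · intro A
    have h3 := hml A
    have h4 := hFl A
    by_cases ha : F A ∧ mm A = m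
    · rw [if_pos ha, if_pos]
      exact ⟨h4.1 ha.1, by rw [← h3]; exact ha.2⟩
    · rw [if_neg ha, if_neg]
      rintro ⟨h5, h6⟩
      exact ha ⟨h4.2 h5, by rw [h3]; exact h6⟩

end R851CS
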