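import Mathlib
import Pool.Agent.R851.CS.EvProb

namespace R851CS
open Finset

def UU (x0 D : ℕ) (A : Finset ℕ) : Finset ℕ := A.filter (fun a => x0 < a ∧ a ≤ x0 + D)
def VV (B0 l : ℕ) (A : Finset ℕ) (j : ℕ) : Finset ℕ :=
  A.filter (fun a => B0 + (2 * j + 1) * l < a ∧ a ≤ B0 + (2 * j + 2) * l)

def GG (L N B0 l : ℕ) (d q : ℕ → ℕ) (j : ℕ) (A : Finset ℕ) : Prop :=
  Good L N (Lo (B0 + 2 * j * l + 1) N d q) (Hi (B0 + 2 * j * l + 1) N d q) A

def crossA (x0 D B0 l : ℕ) (j : ℕ) (A : Finset ℕ) : ℕ := cross A (UU x0 D A) (VV B0 l A) j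

theorem good_loc {L N : ℕ} {I : Finset ℕ} {lo hi : ℕ → ℕ → Finset ℕ} (hs : Sys L N I lo hi)
    {e : ℕ} (hI : ∀ a ∈ I, a ≤ e) (A : Finset ℕ) :
    Good L N lo hi A ↔ Good L N lo hi (A.filter (fun a => a ≤ e)) := by
  have hst : ∀ k < L, ∀ c < N, (St0 lo hi A k c ↔ St0 lo hi (A.filter (fun a => a ≤ e)) k c) ∧
      (St1 lo hi A k c ↔ St1 lo hi (A.filter (fun a => a ≤ e)) k c) := by
    intro k hk c hc
    have h1 := fun a ha => hI a (hs.loI k hk c hc ha)
    have h2 := fun a ha => hI a (hs.hiI k hk c hc ha)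
    have f1 : (lo k c ⊆ A ↔ lo k c ⊆ A.filter (fun a => a ≤ e)) :=
      ⟨fun h a ha => Finset.mem_filter.2 ⟨h ha, h1 a ha⟩, fun h a ha => (Finset.mem_filter.1 (h ha)).1⟩
    have f2 : (hi k c ⊆ A ↔ hi k c ⊆ A.filter (fun a => a ≤ e)) :=
      ⟨fun h a ha => Finset.mem_filter.2 ⟨h ha, h2 a ha⟩, fun h a ha => (Finset.mem_filter.1 (h ha)).1⟩
    have f3 : (Disjoint (hi k c) A ↔ Disjoint (hi k c) (A.filter (fun a => a ≤ e))) := by
      rw [Finset.disjoint_left, Finset.disjoint_left]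
      exact ⟨fun h a ha ha' => h ha (Finset.mem_filter.1 ha').1,
        fun h a ha ha' => h ha (Finset.mem_filter.2 ⟨ha', h2 a ha⟩)⟩
    have f4 : (Disjoint (lo k c) A ↔ Disjoint (lo k c) (A.filter (fun a => a ≤ e))) := by
      rw [Finset.disjoint_left, Finset.disjoint_left]
      exact ⟨fun h a ha ha' => h ha (Finset.mem_filter.1 ha').1,
        fun h a ha ha' => h ha (Finset.mem_filter.2 ⟨ha', h1 a ha⟩)⟩
    unfold St0 St1
    rw [← f1, ← f2, ← f3, ← f4]
    exact ⟨Iff.rfl, Iff.rfl⟩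
  unfold Good Act
  constructor
  · intro h k hk
    obtain ⟨c, hc, h'⟩ := h k hk
    obtain ⟨g1, g2⟩ := hst k hk c hc
    exact ⟨c, hc, by rw [← g1, ← g2]; exact h'⟩
  · intro h k hk
    obtain ⟨c, hc, h'⟩ := h k hk
    obtain ⟨g1, g2⟩ := hst k hk c hc
    exact ⟨c, hc, by rw [g1, g2]; exact h'⟩

theorem UU_congr {x0 D : ℕ} {A A' : Finset ℕ} (h : ∀ a, a ≤ x0 + D → (a ∈ A ↔ a ∈ A')) :
    UU x0 D A = UU x0 D A' := by
  ext a
  unfold UU
  rw [Finset.mem_filter, Finset.mem_filter]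
  constructor
  · rintro ⟨h1, h2, h3⟩; exact ⟨(h a h3).1 h1, h2, h3⟩
  · rintro ⟨h1, h2, h3⟩; exact ⟨(h a h3).2 h1, h2, h3⟩

theorem VV_congr {B0 l j : ℕ} {A A' : Finset ℕ} (h : ∀ a, a ≤ B0 + (2 * j + 2) * l → (a ∈ A ↔ a ∈ A')) :
    VV B0 l A j = VV B0 l A' j := by
  ext a
  unfold VV
  rw [Finset.mem_filter, Finset.mem_filter]
  constructor
  · rintro ⟨h1, h2, h3⟩; exact ⟨(h a h3).1 h1, h2, h3⟩
  · rintro ⟨h1, h2, h3⟩; exact ⟨(h a h3).2 h1, h2, h3⟩

theorem Dset_congr {x0 D B0 l j : ℕ} {A A' : Finset ℕ} (hxB : x0 + D ≤ B0)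
    (h : ∀ a, a ≤ B0 + 2 * j * l → (a ∈ A ↔ a ∈ A')) :
    Dset A (UU x0 D A) (VV B0 l A) j = Dset A' (UU x0 D A') (VV B0 l A') j := by
  unfold Dset
  have hU : UU x0 D A = UU x0 D A' := UU_congr (fun a ha => h a (by omega))
  apply Finset.biUnion_congr rfl
  intro i hi
  rw [Finset.mem_range] at hi
  have hij : (2 * i + 2) * l ≤ 2 * j * l := Nat.mul_le_mul_right _ (by omega)
  have hV : VV B0 l A i = VV B0 l A' i := VV_congr (fun a ha => h a (by omega))
  rw [hU, hV]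
  apply Finset.image_congr
  intro p hp
  have hp' := Finset.mem_coe.1 hp
  rw [Finset.mem_product] at hp'
  have h2 := hp'.2
  unfold VV at h2
  rw [Finset.mem_filter] at h2
  exact W_congr (fun a _ ha => h a (by omega))

theorem cross_loc {x0 D B0 l j : ℕ} (hxB : x0 + D ≤ B0) {A A' : Finset ℕ}
    (h : ∀ a, a ≤ B0 + (2 * j + 2) * l → (a ∈ A ↔ a ∈ A')) :
    crossA x0 D B0 l j A = crossA x0 D B0 l j A' := by
  have hij : 2 * j * l ≤ (2 * j + 2) * l := Nat.mul_le_mul_right _ (by omega)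
  unfold crossA cross
  rw [Dset_congr hxB (fun a ha => h a (by omega))]
  have hU : UU x0 D A = UU x0 D A' := UU_congr (fun a ha => h a (by omega))
  have hV : VV B0 l A j = VV B0 l A' j := VV_congr h
  rw [hU, hV]
  congr 1
  apply Finset.filter_congr
  intro p hp
  rw [Finset.mem_product] at hp
  have h2 := hp.2
  unfold VV at h2
  rw [Finset.mem_filter] at h2
  rw [W_congr (fun a _ ha => h a (by omega))]

open Classical in
/-- averaging for one pair `(x, y)` -/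
theorem cross_pair {p : ℝ} (h0 : 0 ≤ p) (h1 : p ≤ 1) {n x0 D B0 l j L N : ℕ} {d q : ℕ → ℕ}
    (hd : ∀ k, 0 < d k) (hdq : ∀ k, d k * q k = 2 ^ k)
    (hspan : off (B0 + 2 * j * l + 1) N d q L ≤ B0 + 2 * j * l + 1 + l)
    (hxB : x0 + D ≤ B0) (hn : B0 + (2 * j + 2) * l ≤ n) (hL : 2 ^ L ≤ B0 + 1)
    (g : Finset ℕ → ℝ) (hg0 : ∀ A, 0 ≤ g A)
    (hgl : ∀ A, g A = g (A.filter (fun a => a ≤ B0 + 2 * j * l)))
    {x y : ℕ} (hx : x0 < x ∧ x ≤ x0 + D) (hy : B0 + (2 * j + 1) * l < y ∧ y ≤ B0 + (2 * j + 2) * l) :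
    Ex p (Icc 1 n) (fun A => if GG L N B0 l d q j A ∧
        (x ∈ A ∧ y ∈ A ∧ W A x y ∈ Dset A (UU x0 D A) (VV B0 l A) j) then g A else 0)
      ≤ ((D : ℕ) / 2 ^ L) * Ex p (Icc 1 n) g := by
  set b := B0 + 2 * j * l + 1 with hb
  have hs := sys_exist (b := b) (N := N) hd hdq L
  set I := Ico b (off b N d q L) with hI
  have hj1 : (2 * j + 1) * l = 2 * j * l + l := by ring
  have hj2 : (2 * j + 2) * l = 2 * j * l + 2 * l := by ring
  have hI1 : ∀ a ∈ I, B0 + 2 * j * l < a ∧ a ≤ B0 + 2 * j * l + l := by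
    intro a ha
    rw [hI, Finset.mem_Ico] at ha
    omega
  have hIG : I ⊆ Icc 1 n := by
    intro a ha
    have := hI1 a ha
    rw [Finset.mem_Icc]; omega
  unfold GG
  have key := avg hs h0 h1 hIG g (fun A _ => hg0 A)
    (fun A _ hgood S hS => loc_tog hs hgood hS (fun a ha => (hI1 a ha).1) g hgl)
    (fun A => x ∈ A ∧ y ∈ A ∧ W A x y ∈ Dset A (UU x0 D A) (VV B0 l A) j) D ?_
  · refine le_trans (le_of_eq ?_) key
    apply Ex_congr
    intro A _
    congr
  intro A hA hgood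
  have hcong : ∀ S ⊆ range L, ∀ a, a ≤ B0 + 2 * j * l →
      (a ∈ A ↔ a ∈ tog N (Lo b N d q) (Hi b N d q) A S) := by
    intro S hS a ha
    rw [mem_tog_of_not_mem hs hgood hS]
    intro haI
    have := hI1 a haI
    omega
  have hD : ∀ S ⊆ range L, Dset (tog N (Lo b N d q) (Hi b N d q) A S)
      (UU x0 D (tog N (Lo b N d q) (Hi b N d q) A S)) (VV B0 l (tog N (Lo b N d q) (Hi b N d q) A S)) j
      = Dset A (UU x0 D A) (VV B0 l A) j := by
    intro S hS
    exact (Dset_congr hxB (hcong S hS)).symm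
  set FF := (range L).powerset.filter (fun S => (x ∈ tog N (Lo b N d q) (Hi b N d q) A S ∧
    y ∈ tog N (Lo b N d q) (Hi b N d q) A S ∧ W (tog N (Lo b N d q) (Hi b N d q) A S) x y ∈
    Dset (tog N (Lo b N d q) (Hi b N d q) A S)
      (UU x0 D (tog N (Lo b N d q) (Hi b N d q) A S)) (VV B0 l (tog N (Lo b N d q) (Hi b N d q) A S)) j)) with hFF
  have hch : ∀ S ∈ FF, ∃ x' ∈ UU x0 D A, ∃ y', y' ∈ A ∧ B0 < y' ∧ x' < y' ∧
      W (tog N (Lo b N d q) (Hi b N d q) A S) x y = W A x' y' := by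
    intro S hS
    rw [hFF, Finset.mem_filter, Finset.mem_powerset] at hS
    obtain ⟨hSr, _, _, hm⟩ := hS
    rw [hD S hSr] at hm
    unfold Dset at hm
    rw [Finset.mem_biUnion] at hm
    obtain ⟨i, _, hi⟩ := hm
    obtain ⟨pp, hpp, heq⟩ := Finset.mem_image.1 hi
    rw [Finset.mem_product] at hpp
    have h3 := hpp.2
    unfold VV at h3
    rw [Finset.mem_filter] at h3
    have h4 := hpp.1
    unfold UU at h4
    rw [Finset.mem_filter] at h4
    exact ⟨pp.1, hpp.1, pp.2, h3.1, by omega, by omega, heq.symm⟩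
  choose! fx hfx fy hfy1 hfy2 hfy3 hfy4 using hch
  have hcard : FF.card ≤ (UU x0 D A).card := by
    apply Finset.card_le_card_of_injOn fx
    · intro S hS
      exact Finset.mem_coe.2 (hfx S (Finset.mem_coe.1 hS))
    · intro S1 hS1 S2 hS2 heq
      have hS1 := Finset.mem_coe.1 hS1
      have hS2 := Finset.mem_coe.1 hS2
      have hr1 : S1 ⊆ range L := Finset.mem_powerset.1 (Finset.mem_filter.1 hS1).1
      have hr2 : S2 ⊆ range L := Finset.mem_powerset.1 (Finset.mem_filter.1 hS2).1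
      have hIxy : ∀ a ∈ I, x < a ∧ a ≤ y := by
        intro a ha
        have := hI1 a ha
        omega
      have w1 := W_tog hs hgood hr1 hIxy
      have w2 := W_tog hs hgood hr2 hIxy
      rw [hfy4 S1 hS1] at w1
      rw [hfy4 S2 hS2, ← heq] at w2
      have v1 := vv_lt (L := L) (N := N) (lo := Lo b N d q) (hi := Hi b N d q) (A := A) hr1
      have v2 := vv_lt (L := L) (N := N) (lo := Lo b N d q) (hi := Hi b N d q) (A := A) hr2
      rcases lt_trichotomy (fy S1) (fy S2) with h3 | h3 | h3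
      · have := W_step (A := A) (hfy1 S2 hS2) h3 (hfy3 S1 hS1).le
        have := hfy2 S2 hS2
        omega
      · rw [← h3] at w2
        exact vv_inj (L := L) (N := N) (lo := Lo b N d q) (hi := Hi b N d q) (A := A) (by omega)
      · have h5 := hfy3 S2 hS2
        rw [← heq] at h5
        have := W_step (A := A) (hfy1 S1 hS1) h3 h5.le
        have := hfy2 S1 hS1
        omega
  have hFe : ∀ F' : Finset (Finset ℕ), F' = FF → F'.card ≤ (UU x0 D A).card := by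
    intro F' h; rw [h]; exact hcard
  refine (hFe _ ?_).trans ?_
  · rw [hFF]
    congr!
  have : UU x0 D A ⊆ Ioc x0 (x0 + D) := by
    intro a ha
    unfold UU at ha
    rw [Finset.mem_filter] at ha
    rw [Finset.mem_Ioc]; exact ha.2
  have h6 := Finset.card_le_card this
  rw [Nat.card_Ioc] at h6
  omega

end R851CS
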