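import Mathlib
import Pool.Agent.R851.CS.Cross

namespace R851CS
open Finset

open Classical in
noncomputable def xj (L N x0 D B0 l : ℕ) (d q : ℕ → ℕ) (j : ℕ) (A : Finset ℕ) : ℝ :=
  if GG L N B0 l d q j A then (crossA x0 D B0 l j A : ℝ) / (D * l) else 0

noncomputable def ZZ (L N x0 D B0 l : ℕ) (d q : ℕ → ℕ) (J : ℕ) (A : Finset ℕ) : ℝ :=
  ∏ j ∈ range J, (1 + xj L N x0 D B0 l d q j A)

theorem xj_nonneg (L N x0 D B0 l : ℕ) (d q : ℕ → ℕ) (j : ℕ) (A : Finset ℕ) :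
    0 ≤ xj L N x0 D B0 l d q j A := by
  unfold xj
  split_ifs
  · positivity
  · exact le_rfl

theorem ZZ_nonneg (L N x0 D B0 l : ℕ) (d q : ℕ → ℕ) (J : ℕ) (A : Finset ℕ) :
    0 ≤ ZZ L N x0 D B0 l d q J A := by
  unfold ZZ
  apply Finset.prod_nonneg
  intro j _
  have := xj_nonneg L N x0 D B0 l d q j A
  linarith

variable {n x0 D B0 l L N : ℕ} {d q : ℕ → ℕ}

theorem xj_loc (hd : ∀ k, 0 < d k) (hdq : ∀ k, d k * q k = 2 ^ k) {j : ℕ}
    (hspan : off (B0 + 2 * j * l + 1) N d q L ≤ B0 + 2 * j * l + 1 + l)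
    (hxB : x0 + D ≤ B0) {e : ℕ} (he : B0 + (2 * j + 2) * l ≤ e) (A : Finset ℕ) :
    xj L N x0 D B0 l d q j A = xj L N x0 D B0 l d q j (A.filter (fun a => a ≤ e)) := by
  have hs := sys_exist (b := B0 + 2 * j * l + 1) (N := N) hd hdq L
  have hj2 : (2 * j + 2) * l = 2 * j * l + 2 * l := by ring
  have h1 := good_loc hs (e := e) (by
    intro a ha
    rw [Finset.mem_Ico] at ha
    omega) A
  have h2 : crossA x0 D B0 l j A = crossA x0 D B0 l j (A.filter (fun a => a ≤ e)) := by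
    apply cross_loc hxB
    intro a ha
    rw [Finset.mem_filter]
    constructor
    · intro h; exact ⟨h, by omega⟩
    · intro h; exact h.1
  unfold xj GG
  by_cases hg : Good L N (Lo (B0 + 2 * j * l + 1) N d q) (Hi (B0 + 2 * j * l + 1) N d q) A
  · rw [if_pos hg, if_pos (h1.1 hg), h2]
  · rw [if_neg hg, if_neg (fun h => hg (h1.2 h))]

theorem ZZ_loc (hd : ∀ k, 0 < d k) (hdq : ∀ k, d k * q k = 2 ^ k)
    (hspan : ∀ b, off b N d q L ≤ b + l) (hxB : x0 + D ≤ B0) (J : ℕ) (A : Finset ℕ) :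
    ZZ L N x0 D B0 l d q J A = ZZ L N x0 D B0 l d q J (A.filter (fun a => a ≤ B0 + 2 * J * l)) := by
  unfold ZZ
  apply Finset.prod_congr rfl
  intro j hj
  rw [Finset.mem_range] at hj
  have hjJ : (2 * j + 2) * l ≤ 2 * J * l := Nat.mul_le_mul_right _ (by omega)
  rw [xj_loc (e := B0 + 2 * J * l) hd hdq (hspan _) hxB (by omega) A]

open Classical in
theorem crossA_eq (j : ℕ) (A : Finset ℕ) :
    (crossA x0 D B0 l j A : ℝ) = ∑ x ∈ Ioc x0 (x0 + D),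
      ∑ y ∈ Ioc (B0 + (2 * j + 1) * l) (B0 + (2 * j + 2) * l),
        (if x ∈ A ∧ y ∈ A ∧ W A x y ∈ Dset A (UU x0 D A) (VV B0 l A) j then (1 : ℝ) else 0) := by
  unfold crossA cross
  rw [← Finset.sum_product', ← Finset.sum_filter, Finset.sum_const, nsmul_eq_mul, mul_one]
  congr 2
  ext z
  rw [Finset.mem_filter, Finset.mem_filter, Finset.mem_product, Finset.mem_product]
  unfold UU VV
  rw [Finset.mem_filter, Finset.mem_filter, Finset.mem_Ioc, Finset.mem_Ioc]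
  tauto

open Classical in
theorem ZZ_step {p : ℝ} (h0 : 0 ≤ p) (h1 : p ≤ 1) (hd : ∀ k, 0 < d k) (hdq : ∀ k, d k * q k = 2 ^ k)
    (hspan : ∀ b, off b N d q L ≤ b + l) (hxB : x0 + D ≤ B0) (hL : 2 ^ L ≤ B0 + 1)
    (hD : 0 < D) (hl : 0 < l) {J : ℕ} (hn : B0 + (2 * J + 2) * l ≤ n) :
    Ex p (Icc 1 n) (ZZ L N x0 D B0 l d q (J + 1))
      ≤ (1 + (D : ℝ) / 2 ^ L) * Ex p (Icc 1 n) (ZZ L N x0 D B0 l d q J) := by
  have hDR : (0 : ℝ) < D := by exact_mod_cast hD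
  have hlR : (0 : ℝ) < l := by exact_mod_cast hl
  have e1 : Ex p (Icc 1 n) (ZZ L N x0 D B0 l d q (J + 1))
      = Ex p (Icc 1 n) (ZZ L N x0 D B0 l d q J) + (1 / ((D : ℝ) * l)) * ∑ x ∈ Ioc x0 (x0 + D),
      ∑ y ∈ Ioc (B0 + (2 * J + 1) * l) (B0 + (2 * J + 2) * l),
        Ex p (Icc 1 n) (fun A => if GG L N B0 l d q J A ∧
        (x ∈ A ∧ y ∈ A ∧ W A x y ∈ Dset A (UU x0 D A) (VV B0 l A) J) then ZZ L N x0 D B0 l d q J A else 0) := by
    have e2 : ∀ x ∈ Ioc x0 (x0 + D), ∑ y ∈ Ioc (B0 + (2 * J + 1) * l) (B0 + (2 * J + 2) * l),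
        Ex p (Icc 1 n) (fun A => if GG L N B0 l d q J A ∧
        (x ∈ A ∧ y ∈ A ∧ W A x y ∈ Dset A (UU x0 D A) (VV B0 l A) J) then ZZ L N x0 D B0 l d q J A else 0)
        = Ex p (Icc 1 n) (fun A => ∑ y ∈ Ioc (B0 + (2 * J + 1) * l) (B0 + (2 * J + 2) * l),
          (if GG L N B0 l d q J A ∧
        (x ∈ A ∧ y ∈ A ∧ W A x y ∈ Dset A (UU x0 D A) (VV B0 l A) J) then ZZ L N x0 D B0 l d q J A else 0)) := by
      intro x _
      rw [Ex_sum]
    rw [Finset.sum_congr rfl e2, ← Ex_sum, ← Ex_mul_left, ← Ex_add]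
    apply Ex_congr
    intro A _
    have e3 : ZZ L N x0 D B0 l d q (J + 1) A = ZZ L N x0 D B0 l d q J A * (1 + xj L N x0 D B0 l d q J A) := by
      unfold ZZ; rw [Finset.prod_range_succ]
    rw [e3, mul_add, mul_one]
    congr 1
    unfold xj
    by_cases hg : GG L N B0 l d q J A
    · rw [if_pos hg, crossA_eq]
      rw [div_eq_mul_one_div, mul_comm (∑ x ∈ Ioc x0 (x0 + D), _) (1 / ((D : ℝ) * l)), ← mul_assoc,
        mul_comm (ZZ L N x0 D B0 l d q J A), mul_assoc]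
      congr 1
      rw [Finset.mul_sum]
      apply Finset.sum_congr rfl
      intro x _
      rw [Finset.mul_sum]
      apply Finset.sum_congr rfl
      intro y _
      by_cases hP : x ∈ A ∧ y ∈ A ∧ W A x y ∈ Dset A (UU x0 D A) (VV B0 l A) J
      · rw [if_pos hP, if_pos ⟨hg, hP⟩, mul_one]
      · rw [if_neg hP, if_neg (fun h => hP h.2), mul_zero]
    · rw [if_neg hg, mul_zero]
      symm
      rw [Finset.sum_eq_zero, mul_zero]
      intro x _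
      apply Finset.sum_eq_zero
      intro y _
      rw [if_neg (fun h => hg h.1)]
  rw [e1, show (1 + (D : ℝ) / 2 ^ L) * Ex p (Icc 1 n) (ZZ L N x0 D B0 l d q J)
    = Ex p (Icc 1 n) (ZZ L N x0 D B0 l d q J) + (D : ℝ) / 2 ^ L * Ex p (Icc 1 n) (ZZ L N x0 D B0 l d q J) by ring]
  have e4 : ∑ x ∈ Ioc x0 (x0 + D), ∑ y ∈ Ioc (B0 + (2 * J + 1) * l) (B0 + (2 * J + 2) * l),
        Ex p (Icc 1 n) (fun A => if GG L N B0 l d q J A ∧
        (x ∈ A ∧ y ∈ A ∧ W A x y ∈ Dset A (UU x0 D A) (VV B0 l A) J) then ZZ L N x0 D B0 l d q J A else 0)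
      ≤ ∑ x ∈ Ioc x0 (x0 + D), ∑ y ∈ Ioc (B0 + (2 * J + 1) * l) (B0 + (2 * J + 2) * l),
        (((D : ℕ) : ℝ) / 2 ^ L) * Ex p (Icc 1 n) (ZZ L N x0 D B0 l d q J) := by
    apply Finset.sum_le_sum
    intro x hx
    apply Finset.sum_le_sum
    intro y hy
    rw [Finset.mem_Ioc] at hx hy
    exact cross_pair h0 h1 hd hdq (hspan _) hxB hn hL _ (ZZ_nonneg L N x0 D B0 l d q J)
      (ZZ_loc hd hdq hspan hxB J) hx hy
  rw [Finset.sum_const, Finset.sum_const, Nat.card_Ioc, Nat.card_Ioc, smul_smul, nsmul_eq_mul] at e4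
  have h5 : x0 + D - x0 = D := by omega
  have h6 : B0 + (2 * J + 2) * l - (B0 + (2 * J + 1) * l) = l := by
    have : (2 * J + 2) * l = (2 * J + 1) * l + l := by ring
    omega
  rw [h5, h6] at e4
  push_cast at e4
  have h7 := mul_le_mul_of_nonneg_left e4 (show 0 ≤ 1 / ((D : ℝ) * l) by positivity)
  refine add_le_add le_rfl (h7.trans (le_of_eq ?_))
  field_simp

theorem ZZ_bound {p : ℝ} (h0 : 0 ≤ p) (h1 : p ≤ 1) (hd : ∀ k, 0 < d k) (hdq : ∀ k, d k * q k = 2 ^ k)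
    (hspan : ∀ b, off b N d q L ≤ b + l) (hxB : x0 + D ≤ B0) (hL : 2 ^ L ≤ B0 + 1)
    (hD : 0 < D) (hl : 0 < l) (K : ℕ) (hn : B0 + 2 * K * l ≤ n) :
    Ex p (Icc 1 n) (ZZ L N x0 D B0 l d q K) ≤ (1 + (D : ℝ) / 2 ^ L) ^ K := by
  induction K with
  | zero =>
    rw [pow_zero]
    refine le_of_eq ((Ex_congr (g := fun _ => (1 : ℝ)) ?_).trans (Ex_const p _ 1))
    intro A _
    unfold ZZ; simp
  | succ K ih =>
    have hK : 2 * K * l ≤ 2 * (K + 1) * l := Nat.mul_le_mul_right _ (by omega)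
    have ih' := ih (by omega)
    have hstep := ZZ_step h0 h1 hd hdq hspan hxB hL hD hl (J := K) (n := n) (by
      have : (2 * K + 2) * l = 2 * (K + 1) * l := by ring
      omega)
    refine hstep.trans ?_
    rw [pow_succ, mul_comm]
    exact mul_le_mul_of_nonneg_right ih' (by positivity)

end R851CS
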