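import Mathlib
import Pool.Agent.R851.CS.ZProd

namespace R851CS
open Finset

open Classical in
noncomputable def LC (x0 D B0 r : ℕ) (A : Finset ℕ) : ℕ :=
  ((UU x0 D A ×ˢ UU x0 D A).filter (fun t => t.1 < t.2 ∧ Ev A B0 r (W A t.1 t.2) ∧
    r ≤ Cn A t.1 t.2 ∧ Cn A t.1 t.2 ≤ 4 * r)).card

open Classical in
theorem LC_bound {p : ℝ} (h0 : 0 ≤ p) (h1 : p ≤ 1) {n x0 D B0 r N L : ℕ} (hr : 6 ≤ r)
    (hspan : 2 * N * L + 2 * 2 ^ L ≤ r / 2) (hxB : x0 + D ≤ B0) :
    Ex p (Icc 1 n) (fun A => (LC x0 D B0 r A : ℝ))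
      ≤ (1 / 2 ^ L + L * (1 - p * (1 - p)) ^ N) * (D * (4 * r)) := by
  have hpp1 : p * (1 - p) ≤ 1 := by nlinarith
  set β : ℝ := (1 / 2 ^ L + L * (1 - p * (1 - p)) ^ N) with hβ
  have hβ0 : 0 ≤ β := by
    have h2 : 0 ≤ (1 - p * (1 - p)) ^ N := pow_nonneg (by linarith) _
    positivity
  set F : ℕ → ℕ → Finset ℕ → Prop := fun x' x A =>
    x' ∈ A ∧ x ∈ A ∧ x' < x ∧ r ≤ Cn A x' x ∧ Cn A x' x ≤ 4 * r with hF
  have e1 : ∀ A ⊆ Icc 1 n, (LC x0 D B0 r A : ℝ) = ∑ x' ∈ Ioc x0 (x0 + D), ∑ x ∈ Ioc x0 (x0 + D),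
      (if F x' x A ∧ Ev A B0 r (W A x' x) then (1 : ℝ) else 0) := by
    intro A _
    unfold LC
    rw [← Finset.sum_product', ← Finset.sum_filter, Finset.sum_const, nsmul_eq_mul, mul_one]
    congr 2
    ext z
    rw [Finset.mem_filter, Finset.mem_filter, Finset.mem_product, Finset.mem_product]
    unfold UU
    rw [Finset.mem_filter, Finset.mem_filter, Finset.mem_Ioc, Finset.mem_Ioc]
    simp only [hF]
    tauto
  rw [Ex_congr e1, Ex_sum]
  have e2 : ∀ x' ∈ Ioc x0 (x0 + D), ∀ x ∈ Ioc x0 (x0 + D),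
      Ex p (Icc 1 n) (fun A => if F x' x A ∧ Ev A B0 r (W A x' x) then (1 : ℝ) else 0)
      ≤ β * Ex p (Icc 1 n) (fun A => if F x' x A then 1 else 0) := by
    intro x' hx' x hx
    rw [Finset.mem_Ioc] at hx' hx
    have hloc : ∀ A : Finset ℕ, ∀ a, a ≤ x → (a ∈ A ↔ a ∈ A.filter (fun a => a ≤ B0)) := by
      intro A a ha
      rw [Finset.mem_filter]
      constructor
      · intro h; exact ⟨h, by omega⟩
      · intro h; exact h.1
    have hM : ∀ A ⊆ Icc 1 n, (fun A => W A x' x) A < ∑ a ∈ Icc 1 n, a + 1 := by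
      intro A hA
      apply Nat.lt_succ_of_le
      show W A x' x ≤ _
      unfold W
      apply Finset.sum_le_sum_of_subset
      intro a ha
      rw [mem_win] at ha
      exact hA ha.1
    have hml : ∀ A, (fun A => W A x' x) A = (fun A => W A x' x) (A.filter (fun a => a ≤ B0)) := by
      intro A
      exact W_congr (fun a _ ha => hloc A a ha)
    have hFl : ∀ A, F x' x A ↔ F x' x (A.filter (fun a => a ≤ B0)) := by
      intro A
      simp only [hF]
      by_cases hlt : x' < x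
      · rw [← Cn_congr (A := A) (x := x') (y := x) (fun a _ ha => hloc A a ha), ← hloc A x le_rfl, ← hloc A x' hlt.le]
      · constructor
        · rintro ⟨_, _, h, _⟩; exact absurd h hlt
        · rintro ⟨_, _, h, _⟩; exact absurd h hlt
    have key := ev_prob' h0 h1 (n := n) (B0 := B0) hr hspan (fun A => W A x' x) (F x' x) hml hFl
      (∑ a ∈ Icc 1 n, a + 1) hM
    refine (le_of_eq ?_).trans (key.trans (le_of_eq ?_))
    · apply Ex_congr
      intro A _
      congr!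
    · congr 1
      apply Ex_congr
      intro A _
      congr!
  have e3 : ∑ x' ∈ Ioc x0 (x0 + D), Ex p (Icc 1 n) (fun A => ∑ x ∈ Ioc x0 (x0 + D),
      (if F x' x A ∧ Ev A B0 r (W A x' x) then (1 : ℝ) else 0))
      ≤ ∑ x' ∈ Ioc x0 (x0 + D), β * (4 * r) := by
    apply Finset.sum_le_sum
    intro x' hx'
    rw [Ex_sum]
    refine (Finset.sum_le_sum (fun x hx => e2 x' hx' x hx)).trans ?_
    rw [← Finset.mul_sum, ← Ex_sum]
    apply mul_le_mul_of_nonneg_left _ hβ0
    rw [← Ex_const p (Icc 1 n) (4 * (r : ℝ))]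
    apply Ex_mono h0 h1
    intro A _
    have h2 := count_Cn (A := A) (U := UU x0 D A) (Finset.filter_subset _ _) x' (4 * r)
    rw [← Finset.sum_filter, Finset.sum_const, nsmul_eq_mul, mul_one]
    have h3 : ((Ioc x0 (x0 + D)).filter (fun x => F x' x A)).card
        ≤ ((UU x0 D A).filter (fun x => x' < x ∧ Cn A x' x ≤ 4 * r)).card := by
      apply Finset.card_le_card
      intro x hx
      rw [Finset.mem_filter, Finset.mem_Ioc] at hx
      simp only [hF] at hx
      unfold UU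
      rw [Finset.mem_filter, Finset.mem_filter]
      exact ⟨⟨hx.2.2.1, hx.1⟩, hx.2.2.2.1, hx.2.2.2.2.2⟩
    exact_mod_cast h3.trans h2
  refine e3.trans (le_of_eq ?_)
  rw [Finset.sum_const, Nat.card_Ioc, nsmul_eq_mul]
  have : x0 + D - x0 = D := by omega
  rw [this]; ring

def innA (x0 D B0 l K : ℕ) (A : Finset ℕ) : ℕ := ∑ j ∈ range K, inn A (UU x0 D A) (VV B0 l A) j

theorem innA_le {n x0 D B0 l K R0 : ℕ} (hxB : x0 + D ≤ B0) (hn : n ≤ 4 * (x0 + 1)) {A : Finset ℕ}
    (hA : A ⊆ Icc 1 n) :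
    innA x0 D B0 l K A ≤ 4 * R0 * R0 * D + ∑ r ∈ Ico R0 (l + 1), LC x0 D B0 r A := by
  classical
  have hj1 : ∀ j, (2 * j + 1) * l = 2 * j * l + l := fun j => by ring
  have hj2 : ∀ j, (2 * j + 2) * l = 2 * j * l + 2 * l := fun j => by ring
  have hVm : ∀ j, ∀ y ∈ VV B0 l A j, y ∈ A ∧ B0 + 2 * j * l + l < y ∧ y ≤ B0 + 2 * j * l + 2 * l := by
    intro j y hy
    unfold VV at hy
    rw [Finset.mem_filter, hj1, hj2] at hy
    exact ⟨hy.1, by omega, by omega⟩
  have h := inn_le' (A := A) (U := UU x0 D A) (V := VV B0 l A) (B0 := B0) (n := n) (x0 := x0) (l := l)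
    (by
      intro x hx
      unfold UU at hx
      rw [Finset.mem_filter] at hx
      exact ⟨hx.1, hx.2.1, by omega⟩)
    (fun j => Finset.filter_subset _ _)
    (by intro j y hy; have := hVm j y hy; omega)
    (by
      intro j j' hne
      rw [Finset.disjoint_left]
      intro y hy hy'
      have e1 := hVm j y hy
      have e2 := hVm j' y hy'
      rcases lt_or_gt_of_ne hne with h | h
      · have : 2 * (j + 1) * l ≤ 2 * j' * l := Nat.mul_le_mul_right _ (by omega)
        have h3 : 2 * (j + 1) * l = 2 * j * l + 2 * l := by ring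
        omega
      · have : 2 * (j' + 1) * l ≤ 2 * j * l := Nat.mul_le_mul_right _ (by omega)
        have h3 : 2 * (j' + 1) * l = 2 * j' * l + 2 * l := by ring
        omega)
    (by
      intro j y' hy' y hy hlt
      have e1 := hVm j y hy
      have e2 := hVm j y' hy'
      have h3 : Cn A y' y ≤ (Ioc y' y).card := by
        unfold Cn
        apply Finset.card_le_card
        intro a ha
        rw [mem_win] at ha
        rw [Finset.mem_Ioc]; exact ha.2
      rw [Nat.card_Ioc] at h3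
      omega)
    (by intro a ha; exact (Finset.mem_Icc.1 (hA ha)).2) hn K R0
  have hUc : (UU x0 D A).card ≤ D := by
    have : UU x0 D A ⊆ Ioc x0 (x0 + D) := by
      intro a ha
      unfold UU at ha
      rw [Finset.mem_filter] at ha
      rw [Finset.mem_Ioc]; exact ha.2
    have h6 := Finset.card_le_card this
    rw [Nat.card_Ioc] at h6
    omega
  unfold innA
  refine h.trans (Nat.add_le_add (Nat.mul_le_mul_left _ hUc) (le_of_eq ?_))
  apply Finset.sum_congr rfl
  intro r _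
  unfold LC
  congr!

/-- the expected number of coincidences inside the blocks -/
theorem innA_bound {p : ℝ} (h0 : 0 ≤ p) (h1 : p ≤ 1) {n x0 D B0 l K N lam : ℕ}
    (hxB : x0 + D ≤ B0) (hn : n ≤ 4 * (x0 + 1)) (hlam : Nat.log 2 n ≤ lam) (hln : l ≤ n)
    (hfail : (n : ℝ) * (lam * (1 - p * (1 - p)) ^ N) ≤ 1) :
    Ex p (Icc 1 n) (fun A => (innA x0 D B0 l K A : ℝ))
      ≤ D * (4 * (8 * N * lam + 8) * (8 * N * lam + 8) + 68 * l) := by
  set R0 := 8 * N * lam + 8 with hR0
  have hpp : 0 ≤ p * (1 - p) := mul_nonneg h0 (by linarith)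
  have hpp1 : p * (1 - p) ≤ 1 := by nlinarith
  have hP0 : 0 ≤ (1 - p * (1 - p)) ^ N := pow_nonneg (by linarith) _
  have e1 : Ex p (Icc 1 n) (fun A => (innA x0 D B0 l K A : ℝ))
      ≤ Ex p (Icc 1 n) (fun A => (4 * R0 * R0 * D : ℝ) + ∑ r ∈ Ico R0 (l + 1), (LC x0 D B0 r A : ℝ)) := by
    apply Ex_mono h0 h1
    intro A hA
    have := innA_le (K := K) (l := l) (R0 := R0) hxB hn hA
    exact_mod_cast this
  refine e1.trans ?_
  rw [Ex_add, Ex_const, Ex_sum]
  have e2 : ∀ r ∈ Ico R0 (l + 1), Ex p (Icc 1 n) (fun A => (LC x0 D B0 r A : ℝ)) ≤ 68 * D := by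
    intro r hr
    rw [Finset.mem_Ico] at hr
    have hr8 : 8 ≤ r := by omega
    set L := Nat.log 2 (r / 8) with hL
    have hrn : r / 8 ≤ n := by omega
    have hLlam : L ≤ lam := (Nat.log_mono_right hrn).trans hlam
    have hpow1 : 2 ^ L ≤ r / 8 := Nat.pow_log_le_self 2 (by omega)
    have hpow2 : r / 8 < 2 ^ (L + 1) := Nat.lt_pow_succ_log_self (by norm_num) _
    have hspan : 2 * N * L + 2 * 2 ^ L ≤ r / 2 := by
      have h3 : 2 * N * L ≤ 2 * N * lam := Nat.mul_le_mul_left _ hLlam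
      have h4 : 8 * N * lam = 4 * (2 * N * lam) := by ring
      omega
    have h3 := LC_bound h0 h1 (n := n) (x0 := x0) (D := D) (B0 := B0) (show 6 ≤ r by omega) hspan hxB
    refine h3.trans ?_
    have hDR : (0 : ℝ) ≤ D := Nat.cast_nonneg _
    have hrR : (0 : ℝ) < r := by exact_mod_cast (show 0 < r by omega)
    have h4 : (r : ℝ) * (1 / 2 ^ L) ≤ 16 := by
      rw [mul_one_div, div_le_iff₀ (by positivity)]
      have : r < 16 * 2 ^ L := by
        have : 2 ^ (L + 1) = 2 * 2 ^ L := by ring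
        omega
      exact_mod_cast this.le
    have h5 : (r : ℝ) * (L * (1 - p * (1 - p)) ^ N) ≤ 1 := by
      refine le_trans ?_ hfail
      have hrn' : (r : ℝ) ≤ n := by exact_mod_cast (show r ≤ n by omega)
      have hLl : (L : ℝ) ≤ lam := by exact_mod_cast hLlam
      have h6 : (L : ℝ) * (1 - p * (1 - p)) ^ N ≤ lam * (1 - p * (1 - p)) ^ N :=
        mul_le_mul_of_nonneg_right hLl hP0
      exact mul_le_mul hrn' h6 (by positivity) (Nat.cast_nonneg _)
    have h7 : (1 / 2 ^ L + (L : ℝ) * (1 - p * (1 - p)) ^ N) * (D * (4 * r))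
        = 4 * D * (r * (1 / 2 ^ L) + r * (L * (1 - p * (1 - p)) ^ N)) := by ring
    rw [h7]
    nlinarith
  have e3 := Finset.sum_le_sum e2
  rw [Finset.sum_const, Nat.card_Ico, nsmul_eq_mul] at e3
  have e4 : (((l + 1 - R0 : ℕ)) : ℝ) ≤ l := by exact_mod_cast (show l + 1 - R0 ≤ l by omega)
  have e5 : (((l + 1 - R0 : ℕ)) : ℝ) * (68 * D) ≤ l * (68 * D) := mul_le_mul_of_nonneg_right e4 (by positivity)
  have e6 : (R0 : ℝ) = 8 * N * lam + 8 := by rw [hR0]; push_cast; ring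
  rw [e6]
  nlinarith

end R851CS
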