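import Mathlib
import Pool.Agent.R851.CS.InProb

namespace R851CS
open Finset

open Classical in
/-- probability that the `p`-random subset of `G` has the property `Q` -/
noncomputable def Pr (p : ℝ) (G : Finset ℕ) (Q : Finset ℕ → Prop) : ℝ :=
  Ex p G (fun A => if Q A then 1 else 0)

theorem Pr_mono {p : ℝ} (h0 : 0 ≤ p) (h1 : p ≤ 1) {G : Finset ℕ} {Q R : Finset ℕ → Prop}
    (h : ∀ A ⊆ G, Q A → R A) : Pr p G Q ≤ Pr p G R := by
  unfold Pr
  apply Ex_mono h0 h1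
  intro A hA
  by_cases hq : Q A
  · rw [if_pos hq, if_pos (h A hA hq)]
  · rw [if_neg hq]; split_ifs <;> norm_num

theorem Pr_le_one {p : ℝ} (h0 : 0 ≤ p) (h1 : p ≤ 1) {G : Finset ℕ} {Q : Finset ℕ → Prop} :
    Pr p G Q ≤ 1 := by
  unfold Pr
  refine (Ex_mono h0 h1 (g := fun _ => 1) ?_).trans (le_of_eq (Ex_const p G 1))
  intro A hA
  split_ifs <;> norm_num

theorem Pr_not (p : ℝ) {G : Finset ℕ} {Q : Finset ℕ → Prop} :
    Pr p G (fun A => ¬ Q A) = 1 - Pr p G Q := by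
  unfold Pr
  rw [← Ex_one_sub]
  apply Ex_congr
  intro A hA
  by_cases hq : Q A
  · rw [if_pos hq, if_neg (not_not.2 hq)]; norm_num
  · rw [if_neg hq, if_pos hq]; norm_num

theorem Pr_or {p : ℝ} (h0 : 0 ≤ p) (h1 : p ≤ 1) {G : Finset ℕ} {Q R : Finset ℕ → Prop} :
    Pr p G (fun A => Q A ∨ R A) ≤ Pr p G Q + Pr p G R := by
  unfold Pr
  rw [← Ex_add]
  apply Ex_mono h0 h1
  intro A hA
  by_cases hq : Q A <;> by_cases hr : R A <;> simp [hq, hr]

theorem Pr_exists {p : ℝ} (h0 : 0 ≤ p) (h1 : p ≤ 1) {G : Finset ℕ} {Q : ℕ → Finset ℕ → Prop} (K : ℕ) :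
    Pr p G (fun A => ∃ j < K, Q j A) ≤ ∑ j ∈ range K, Pr p G (Q j) := by
  unfold Pr
  rw [← Ex_sum]
  apply Ex_mono h0 h1
  intro A hA
  have hnn : ∀ j ∈ range K, (0 : ℝ) ≤ @ite ℝ (Q j A) (Classical.propDecidable _) 1 0 := by
    intro j _; split_ifs <;> norm_num
  by_cases hq : ∃ j < K, Q j A
  · rw [if_pos hq]
    obtain ⟨j, hj, hj'⟩ := hq
    refine le_trans (le_of_eq ?_) (Finset.single_le_sum hnn (Finset.mem_range.2 hj))
    rw [if_pos hj']
  · rw [if_neg hq]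
    exact Finset.sum_nonneg hnn

theorem Pr_markov {p : ℝ} (h0 : 0 ≤ p) (h1 : p ≤ 1) {G : Finset ℕ} {Q : Finset ℕ → Prop}
    {f : Finset ℕ → ℝ} {a : ℝ} (hf : ∀ A ⊆ G, 0 ≤ f A) (hQ : ∀ A ⊆ G, Q A → a ≤ f A) :
    a * Pr p G Q ≤ Ex p G f := by
  unfold Pr
  rw [← Ex_mul_left]
  apply Ex_mono h0 h1
  intro A hA
  by_cases hq : Q A
  · rw [if_pos hq, mul_one]; exact hQ A hA hq
  · rw [if_neg hq, mul_zero]; exact hf A hA

theorem Ex_restrict (p : ℝ) {G X : Finset ℕ} (hX : X ⊆ G) (h : Finset ℕ → ℝ) :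
    Ex p G (fun A => h (A ∩ X)) = Ex p X h := by
  have hd : Disjoint (G \ X) X := Finset.sdiff_disjoint
  have hG : G = (G \ X) ∪ X := (Finset.sdiff_union_of_subset hX).symm
  conv_lhs => rw [hG]
  rw [Ex_union p hd]
  rw [← Ex_const p (G \ X) (Ex p X h)]
  apply Ex_congr
  intro A hA
  apply Ex_congr
  intro B hB
  congr 1
  ext a
  rw [Finset.mem_inter, Finset.mem_union]
  constructor
  · rintro ⟨h | h, h'⟩
    · exact absurd h' (Finset.mem_sdiff.1 (hA h)).2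
    · exact h
  · intro h; exact ⟨Or.inr h, hB h⟩

/-- lower tail of the number of elements of `A` in `X` -/
theorem tail {p : ℝ} (h0 : 0 < p) (h1 : p < 1) {s : ℕ} (hs : (1 - p / 4) ^ s ≤ 1 / 2)
    {G X : Finset ℕ} (hX : X ⊆ G) :
    Pr p G (fun A => s * (A ∩ X).card ≤ X.card) ≤ ((1 - p / 2) / (1 - p / 4)) ^ X.card := by
  set t := (1 - p / 4) ^ s with ht
  have h14 : 0 < 1 - p / 4 := by linarith
  have ht0 : 0 < t := pow_pos h14 s
  have key : (1 - p / 4) ^ X.card * Pr p G (fun A => s * (A ∩ X).card ≤ X.card)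
      ≤ Ex p G (fun A => t ^ (A ∩ X).card) := by
    apply Pr_markov h0.le h1.le
    · intro A _; positivity
    · intro A _ h
      rw [ht, ← pow_mul]
      exact pow_le_pow_of_le_one h14.le (by linarith) h
  rw [Ex_restrict p hX (fun B => t ^ B.card), Ex_pow] at key
  have h2 : (p * t + (1 - p)) ^ X.card ≤ (1 - p / 2) ^ X.card := by
    apply pow_le_pow_left₀
    · have : 0 ≤ p * t := by positivity
      linarith
    · nlinarith
  rw [div_pow, le_div_iff₀ (pow_pos h14 _), mul_comm]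
  exact key.trans h2

end R851CS
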