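import Mathlib
import Pool.Agent.R851.CS.Tail

namespace R851CS
open Finset

theorem UU_eq (x0 D : ℕ) (A : Finset ℕ) : UU x0 D A = A ∩ Ioc x0 (x0 + D) := by
  ext a; unfold UU; rw [Finset.mem_filter, Finset.mem_inter, Finset.mem_Ioc]

theorem VV_eq (B0 l : ℕ) (A : Finset ℕ) (j : ℕ) :
    VV B0 l A j = A ∩ Ioc (B0 + (2 * j + 1) * l) (B0 + (2 * j + 2) * l) := by
  ext a; unfold VV; rw [Finset.mem_filter, Finset.mem_inter, Finset.mem_Ioc]

theorem UU_card_le (x0 D : ℕ) (A : Finset ℕ) : (UU x0 D A).card ≤ D := by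
  rw [UU_eq]
  refine (Finset.card_le_card Finset.inter_subset_right).trans ?_
  rw [Nat.card_Ioc]; omega

theorem VV_card_le (B0 l : ℕ) (A : Finset ℕ) (j : ℕ) : (VV B0 l A j).card ≤ l := by
  rw [VV_eq]
  refine (Finset.card_le_card Finset.inter_subset_right).trans ?_
  rw [Nat.card_Ioc]
  have : (2 * j + 2) * l = (2 * j + 1) * l + l := by ring
  omega

theorem crossA_le (x0 D B0 l j : ℕ) (A : Finset ℕ) : crossA x0 D B0 l j A ≤ D * l := by
  unfold crossA cross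
  refine (Finset.card_filter_le _ _).trans ?_
  rw [Finset.card_product]
  exact Nat.mul_le_mul (UU_card_le x0 D A) (VV_card_le B0 l A j)

theorem xj_le_one {L N x0 D B0 l : ℕ} (hD : 0 < D) (hl : 0 < l) (d q : ℕ → ℕ) (j : ℕ) (A : Finset ℕ) :
    xj L N x0 D B0 l d q j A ≤ 1 := by
  unfold xj
  split_ifs
  · have hDR : (0 : ℝ) < D := by exact_mod_cast hD
    have hlR : (0 : ℝ) < l := by exact_mod_cast hl
    rw [div_le_one (by positivity)]
    exact_mod_cast crossA_le x0 D B0 l j A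
  · exact zero_le_one

theorem det_step {x0 D B0 l K s L N : ℕ} {d q : ℕ → ℕ} (hxB : x0 + D ≤ B0)
    (hD : 0 < D) (hl : 0 < l) (hs : 0 < s) {A : Finset ℕ}
    (b1 : ¬ (s * (UU x0 D A).card ≤ D)) (b2 : ∀ j < K, ¬ (s * (VV B0 l A j).card ≤ l))
    (b3 : ∀ j < K, GG L N B0 l d q j A)
    (b4 : ∑ j ∈ range K, xj L N x0 D B0 l d q j A < K / (4 * (s : ℝ) ^ 2))
    (b5 : (innA x0 D B0 l K A : ℝ) < K * D * l / (4 * (s : ℝ) ^ 2)) :
    (K * D * l : ℝ) / (2 * (s : ℝ) ^ 2) ≤ (consecSums A).card := by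
  have hDR : (0 : ℝ) < D := by exact_mod_cast hD
  have hlR : (0 : ℝ) < l := by exact_mod_cast hl
  have hsR : (0 : ℝ) < s := by exact_mod_cast hs
  have hUV : ∀ j, ∀ y ∈ VV B0 l A j, ∀ x ∈ UU x0 D A, x < y := by
    intro j y hy x hx
    unfold VV at hy
    unfold UU at hx
    rw [Finset.mem_filter] at hy hx
    omega
  have h1 := Dset_card (A := A) (U := UU x0 D A) (V := VV B0 l A) (by
    intro x hx
    unfold UU at hx
    rw [Finset.mem_filter] at hx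
    exact ⟨hx.1, by omega⟩) hUV K
  have h2 := Finset.card_le_card (Dset_sub (A := A) (U := UU x0 D A) (V := VV B0 l A)
    (fun j => Finset.filter_subset _ _) hUV K)
  rw [Finset.sum_add_distrib] at h1
  have h3 : ∑ j ∈ range K, inn A (UU x0 D A) (VV B0 l A) j = innA x0 D B0 l K A := rfl
  rw [h3] at h1
  have h4 : (∑ j ∈ range K, (cross A (UU x0 D A) (VV B0 l A) j : ℝ))
      = D * l * ∑ j ∈ range K, xj L N x0 D B0 l d q j A := by
    rw [Finset.mul_sum]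
    apply Finset.sum_congr rfl
    intro j hj
    unfold xj
    rw [if_pos (b3 j (Finset.mem_range.1 hj))]
    unfold crossA
    field_simp
  have h5 : (∑ j ∈ range K, ((UU x0 D A).card * (VV B0 l A j).card : ℝ))
      ≥ K * (D * l / (s : ℝ) ^ 2) := by
    have h6 : ∀ j ∈ range K, (D * l / (s : ℝ) ^ 2) ≤ ((UU x0 D A).card * (VV B0 l A j).card : ℝ) := by
      intro j hj
      have e1 := b2 j (Finset.mem_range.1 hj)
      have e1' : (l : ℝ) ≤ s * (VV B0 l A j).card := by exact_mod_cast (Nat.lt_of_not_le e1).le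
      have e2' : (D : ℝ) ≤ s * (UU x0 D A).card := by exact_mod_cast (Nat.lt_of_not_le b1).le
      rw [div_le_iff₀ (by positivity)]
      calc (D : ℝ) * l ≤ (s * (UU x0 D A).card) * (s * (VV B0 l A j).card) := by
            apply mul_le_mul e2' e1' hlR.le (by positivity)
        _ = _ := by ring
    have := Finset.sum_le_sum h6
    rw [Finset.sum_const, Finset.card_range, nsmul_eq_mul] at this
    exact this
  have h1' : (∑ j ∈ range K, ((UU x0 D A).card * (VV B0 l A j).card : ℝ))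
      ≤ (Dset A (UU x0 D A) (VV B0 l A) K).card + ((∑ j ∈ range K, (cross A (UU x0 D A) (VV B0 l A) j : ℝ))
        + innA x0 D B0 l K A) := by exact_mod_cast h1
  have h2' : ((Dset A (UU x0 D A) (VV B0 l A) K).card : ℝ) ≤ (consecSums A).card := by exact_mod_cast h2
  rw [h4] at h1'
  have h7 : (D : ℝ) * l * ∑ j ∈ range K, xj L N x0 D B0 l d q j A ≤ D * l * (K / (4 * (s : ℝ) ^ 2)) :=
    mul_le_mul_of_nonneg_left b4.le (by positivity)
  have h8 : (K * D * l : ℝ) / (2 * (s : ℝ) ^ 2)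
      = K * (D * l / (s : ℝ) ^ 2) - D * l * (K / (4 * (s : ℝ) ^ 2)) - K * D * l / (4 * (s : ℝ) ^ 2) := by
    field_simp; ring
  rw [h8]
  linarith

theorem exp_half_le {x : ℝ} (h0 : 0 ≤ x) (h1 : x ≤ 1) : Real.exp (x / 2) ≤ 1 + x := by
  have h2 : 1 - x / 2 ≤ Real.exp (-(x / 2)) := by
    have := Real.add_one_le_exp (-(x / 2)); linarith
  have h3 : 0 < 1 - x / 2 := by linarith
  have h4 : Real.exp (x / 2) * Real.exp (-(x / 2)) = 1 := by rw [← Real.exp_add]; simp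
  have h5 : 0 < Real.exp (x / 2) := Real.exp_pos _
  have h6 : Real.exp (x / 2) * (1 - x / 2) ≤ 1 := by
    calc _ ≤ Real.exp (x / 2) * Real.exp (-(x / 2)) := mul_le_mul_of_nonneg_left h2 h5.le
      _ = 1 := h4
  have h7 : 1 ≤ (1 + x) * (1 - x / 2) := by nlinarith
  nlinarith

theorem ZZ_ge {L N x0 D B0 l : ℕ} (hD : 0 < D) (hl : 0 < l) (d q : ℕ → ℕ) (K : ℕ) (A : Finset ℕ) :
    Real.exp ((∑ j ∈ range K, xj L N x0 D B0 l d q j A) / 2) ≤ ZZ L N x0 D B0 l d q K A := by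
  rw [Finset.sum_div, Real.exp_sum]
  unfold ZZ
  apply Finset.prod_le_prod
  · intro j _; exact (Real.exp_pos _).le
  · intro j _
    exact exp_half_le (xj_nonneg _ _ _ _ _ _ _ _ _ _) (xj_le_one hD hl _ _ _ _)

/-- upper tail of the number of coincidences between blocks -/
theorem b4_prob {p : ℝ} (h0 : 0 ≤ p) (h1 : p ≤ 1) {n x0 D B0 l K s L N : ℕ} {d q : ℕ → ℕ}
    (hd : ∀ k, 0 < d k) (hdq : ∀ k, d k * q k = 2 ^ k)
    (hspan : ∀ b, off b N d q L ≤ b + l) (hxB : x0 + D ≤ B0) (hL : 2 ^ L ≤ B0 + 1)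
    (hD : 0 < D) (hl : 0 < l) (hs : 0 < s) (hn : B0 + 2 * K * l ≤ n)
    (hDL : (D : ℝ) / 2 ^ L ≤ 1 / (16 * (s : ℝ) ^ 2)) :
    Pr p (Icc 1 n) (fun A => (K : ℝ) / (4 * (s : ℝ) ^ 2) ≤ ∑ j ∈ range K, xj L N x0 D B0 l d q j A)
      ≤ Real.exp (-(K / (16 * (s : ℝ) ^ 2))) := by
  have hsR : (0 : ℝ) < s := by exact_mod_cast hs
  have key : Real.exp (K / (4 * (s : ℝ) ^ 2) / 2) *
      Pr p (Icc 1 n) (fun A => (K : ℝ) / (4 * (s : ℝ) ^ 2) ≤ ∑ j ∈ range K, xj L N x0 D B0 l d q j A)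
      ≤ Ex p (Icc 1 n) (ZZ L N x0 D B0 l d q K) := by
    apply Pr_markov h0 h1
    · intro A _; exact ZZ_nonneg _ _ _ _ _ _ _ _ _ _
    · intro A _ h
      refine le_trans ?_ (ZZ_ge hD hl d q K A)
      apply Real.exp_le_exp.2
      linarith
  have h2 := ZZ_bound h0 h1 hd hdq hspan hxB hL hD hl K hn
  have h3 : (1 + (D : ℝ) / 2 ^ L) ^ K ≤ Real.exp (K / (16 * (s : ℝ) ^ 2)) := by
    have e1 : 1 + (D : ℝ) / 2 ^ L ≤ Real.exp (1 / (16 * (s : ℝ) ^ 2)) := by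
      refine le_trans ?_ (Real.add_one_le_exp _)
      linarith
    refine (pow_le_pow_left₀ (by positivity) e1 K).trans (le_of_eq ?_)
    rw [← Real.exp_nat_mul]
    congr 1; ring
  have h4 := key.trans (h2.trans h3)
  have h5 : Real.exp (K / (4 * (s : ℝ) ^ 2) / 2) = Real.exp (K / (16 * (s : ℝ) ^ 2)) *
      Real.exp (K / (16 * (s : ℝ) ^ 2)) := by
    rw [← Real.exp_add]; congr 1; ring
  rw [h5] at h4
  have h6 := Real.exp_pos (K / (16 * (s : ℝ) ^ 2))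
  rw [Real.exp_neg]
  have h7 : Real.exp (K / (16 * (s : ℝ) ^ 2)) *
      Pr p (Icc 1 n) (fun A => (K : ℝ) / (4 * (s : ℝ) ^ 2) ≤ ∑ j ∈ range K, xj L N x0 D B0 l d q j A) ≤ 1 := by
    by_contra hcon
    push Not at hcon
    have := mul_lt_mul_of_pos_left hcon h6
    rw [mul_one, ← mul_assoc] at this
    linarith
  rw [← one_div, le_div_iff₀ h6, mul_comm]
  exact h7

theorem b5_prob {p : ℝ} (h0 : 0 ≤ p) (h1 : p ≤ 1) {n x0 D B0 l K s N lam : ℕ}
    (hxB : x0 + D ≤ B0) (hn : n ≤ 4 * (x0 + 1)) (hlam : Nat.log 2 n ≤ lam) (hln : l ≤ n)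
    (hfail : (n : ℝ) * (lam * (1 - p * (1 - p)) ^ N) ≤ 1) (hD : 0 < D) (hl : 0 < l) (hs : 0 < s)
    (hK : 0 < K) (hl4 : 4 * (8 * N * lam + 8) * (8 * N * lam + 8) ≤ l) :
    Pr p (Icc 1 n) (fun A => (K * D * l : ℝ) / (4 * (s : ℝ) ^ 2) ≤ (innA x0 D B0 l K A : ℝ))
      ≤ 276 * (s : ℝ) ^ 2 / K := by
  have hsR : (0 : ℝ) < s := by exact_mod_cast hs
  have hDR : (0 : ℝ) < D := by exact_mod_cast hD
  have hlR : (0 : ℝ) < l := by exact_mod_cast hl
  have hKR : (0 : ℝ) < K := by exact_mod_cast hK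
  have key : (K * D * l : ℝ) / (4 * (s : ℝ) ^ 2) *
      Pr p (Icc 1 n) (fun A => (K * D * l : ℝ) / (4 * (s : ℝ) ^ 2) ≤ (innA x0 D B0 l K A : ℝ))
      ≤ Ex p (Icc 1 n) (fun A => (innA x0 D B0 l K A : ℝ)) := by
    apply Pr_markov h0 h1
    · intro A _; positivity
    · intro A _ h; exact h
  have h2 := innA_bound h0 h1 (K := K) hxB hn hlam hln hfail
  have h3 : (4 * (8 * N * lam + 8) * (8 * N * lam + 8) : ℝ) ≤ l := by exact_mod_cast hl4
  have h4 := key.trans h2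
  have h5 : (D : ℝ) * (4 * (8 * N * lam + 8) * (8 * N * lam + 8) + 68 * l) ≤ D * (69 * l) :=
    mul_le_mul_of_nonneg_left (by linarith) hDR.le
  have h6 := h4.trans h5
  rw [le_div_iff₀ hKR]
  rw [div_mul_eq_mul_div, div_le_iff₀ (by positivity)] at h6
  have h7 : (D * l : ℝ) * (K * Pr p (Icc 1 n) (fun A => (K * D * l : ℝ) / (4 * (s : ℝ) ^ 2) ≤ (innA x0 D B0 l K A : ℝ)))
      ≤ (D * l : ℝ) * (276 * (s : ℝ) ^ 2) := by nlinarith
  have h8 := le_of_mul_le_mul_left h7 (by positivity)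
  linarith

end R851CS
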