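import Mathlib
import Pool.Agent.R851.CS.Step

namespace R851CS
open Finset

theorem sum_min_le (k0 κ : ℕ) : ∑ k ∈ range (k0 + κ), 2 ^ (min k k0) ≤ (κ + 1) * 2 ^ k0 := by
  induction κ with
  | zero =>
    rw [add_zero, zero_add, one_mul]
    have : ∑ k ∈ range k0, 2 ^ (min k k0) = ∑ k ∈ range k0, 2 ^ k := by
      apply Finset.sum_congr rfl
      intro k hk
      rw [Finset.mem_range] at hk
      rw [min_eq_left hk.le]
    rw [this]
    exact (Nat.geomSum_lt (m := 2) (n := k0) le_rfl (fun k hk => Finset.mem_range.1 hk)).le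
  | succ κ ih =>
    rw [← add_assoc, Finset.sum_range_succ, min_eq_right (by omega)]
    have : (κ + 1 + 1) * 2 ^ k0 = (κ + 1) * 2 ^ k0 + 2 ^ k0 := by ring
    omega

theorem span_le (b N k0 κ : ℕ) :
    off b N (fun k => 2 ^ (min k k0)) (fun k => 2 ^ (k - min k k0)) (k0 + κ)
      ≤ b + (2 * N * 2 ^ κ * (k0 + κ) + 2 * (κ + 1) * 2 ^ k0) := by
  unfold off len
  rw [Finset.sum_add_distrib, ← Finset.mul_sum, ← Finset.mul_sum]
  have h1 := sum_min_le k0 κ
  have h2 : ∑ k ∈ range (k0 + κ), 2 ^ (k - min k k0) ≤ ∑ k ∈ range (k0 + κ), 2 ^ κ := by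
    apply Finset.sum_le_sum
    intro k hk
    rw [Finset.mem_range] at hk
    apply Nat.pow_le_pow_right (by norm_num)
    omega
  rw [Finset.sum_const, Finset.card_range, smul_eq_mul] at h2
  have h3 : 2 * N * ∑ k ∈ range (k0 + κ), 2 ^ (k - min k k0) ≤ 2 * N * 2 ^ κ * (k0 + κ) := by
    calc _ ≤ 2 * N * ((k0 + κ) * 2 ^ κ) := Nat.mul_le_mul_left _ h2
      _ = _ := by ring
  have h4 : 2 * ∑ k ∈ range (k0 + κ), 2 ^ (min k k0) ≤ 2 * (κ + 1) * 2 ^ k0 := by
    calc _ ≤ 2 * ((κ + 1) * 2 ^ k0) := Nat.mul_le_mul_left _ h1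
      _ = _ := by ring
  omega

open Classical in
theorem step_n {p : ℝ} (h0 : 0 < p) (h1 : p < 1) {s K κ n : ℕ} (hs : 0 < s)
    (hst : (1 - p / 4) ^ s ≤ 1 / 2) (hK : 0 < K) (hκ : 32 * K * (κ + 1) ≤ 2 ^ κ)
    (c1 : 2 ^ κ ≤ n / 2 + 1) (c2 : 32 * K * 2 ^ κ * (Nat.log 2 n) ^ 3 ≤ n) (c3 : 32 * K + 2 ≤ n)
    (c4 : 64 * s ^ 2 ≤ n)
    (c5 : 8 * K * (4 * (8 * (Nat.log 2 n) ^ 2 * Nat.log 2 n + 8) * (8 * (Nat.log 2 n) ^ 2 * Nat.log 2 n + 8)) ≤ n)
    (c6 : (n : ℝ) * ((Nat.log 2 n : ℕ) * (1 - p * (1 - p)) ^ ((Nat.log 2 n) ^ 2)) ≤ 1) :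
    Pr p (Icc 1 n) (fun A => ¬ ((n : ℝ) ^ 2 / (4096 * (s : ℝ) ^ 4) ≤ (consecSums A).card))
      ≤ ((1 - p / 2) / (1 - p / 4)) ^ (n / (64 * s ^ 2)) + K * ((1 - p / 2) / (1 - p / 4)) ^ (n / (8 * K))
        + K * ((Nat.log 2 n : ℕ) * (1 - (p * (1 - p)) ^ (2 ^ κ)) ^ ((Nat.log 2 n) ^ 2))
        + Real.exp (-(K / (16 * (s : ℝ) ^ 2))) + 276 * (s : ℝ) ^ 2 / K := by
  set lam := Nat.log 2 n with hlam
  set x0 := n / 4 with hx0
  set B0 := n / 2 with hB0
  set D := n / (64 * s ^ 2) with hD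
  set l := n / (8 * K) with hl
  set La := Nat.log 2 (B0 + 1) with hLa
  set ρ := (1 - p / 2) / (1 - p / 4) with hρ
  have hsR : (0 : ℝ) < s := by exact_mod_cast hs
  have hKR : (0 : ℝ) < K := by exact_mod_cast hK
  have hs2 : 0 < s ^ 2 := by positivity
  have hDpos : 0 < D := Nat.div_pos c4 (by positivity)
  have hlpos : 0 < l := Nat.div_pos (by omega) (by positivity)
  have hD1 : D ≤ n / 64 := Nat.div_le_div_left (by omega) (by norm_num)
  have hxB : x0 + D ≤ B0 := by omega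
  have hnx : n ≤ 4 * (x0 + 1) := by omega
  have hl1 : 8 * K * l ≤ n := by rw [hl]; exact Nat.mul_div_le n (8 * K)
  have hl2 : n < 8 * K * (l + 1) := by
    have := Nat.lt_mul_div_succ n (show 0 < 8 * K by positivity)
    rw [← hl] at this
    exact this
  have hD2 : n < 64 * s ^ 2 * (D + 1) := by
    have := Nat.lt_mul_div_succ n (show 0 < 64 * s ^ 2 by positivity)
    rw [← hD] at this
    exact this
  have hln : l ≤ n := Nat.div_le_self _ _
  have hBn : B0 + 2 * K * l ≤ n := by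
    have : 8 * K * l = 4 * (2 * K * l) := by ring
    omega
  have hκLa : κ ≤ La := by
    rw [hLa]
    exact Nat.le_log_of_pow_le (by norm_num) c1
  have hLapow : 2 ^ La ≤ B0 + 1 := Nat.pow_log_le_self 2 (by omega)
  have hLapow2 : B0 + 1 < 2 ^ (La + 1) := Nat.lt_pow_succ_log_self (by norm_num) _
  have hLalam : La ≤ lam := by
    rw [hLa, hlam]
    exact Nat.log_mono_right (by omega)
  obtain ⟨k0, hk0⟩ : ∃ k0, La = k0 + κ := ⟨La - κ, by omega⟩
  set d : ℕ → ℕ := fun k => 2 ^ (min k k0) with hd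
  set q : ℕ → ℕ := fun k => 2 ^ (k - min k k0) with hq
  have hdpos : ∀ k, 0 < d k := fun k => by simp only [hd]; positivity
  have hdq : ∀ k, d k * q k = 2 ^ k := by
    intro k
    simp only [hd, hq]
    rw [← pow_add]
    congr 1; omega
  have hspan : ∀ b, off b (lam ^ 2) d q La ≤ b + l := by
    intro b
    rw [hk0]
    refine (span_le b (lam ^ 2) k0 κ).trans ?_
    apply Nat.add_le_add_left
    have e1 : 2 * lam ^ 2 * 2 ^ κ * (k0 + κ) ≤ 2 * lam ^ 2 * 2 ^ κ * lam := Nat.mul_le_mul_left _ (by omega)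
    have e2 : 16 * K * (2 * lam ^ 2 * 2 ^ κ * lam) = 32 * K * 2 ^ κ * lam ^ 3 := by ring
    have e3 : 16 * K * (2 * (κ + 1) * 2 ^ k0) ≤ B0 + 1 := by
      calc 16 * K * (2 * (κ + 1) * 2 ^ k0) = (32 * K * (κ + 1)) * 2 ^ k0 := by ring
        _ ≤ 2 ^ κ * 2 ^ k0 := Nat.mul_le_mul_right _ hκ
        _ = 2 ^ La := by rw [hk0, pow_add]; ring
        _ ≤ B0 + 1 := hLapow
    have e4 : 8 * K * (l + 1) = 8 * K * l + 8 * K := by ring
    have e5 : 16 * K * l = 2 * (8 * K * l) := by ring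
    have e6 : 16 * K * (2 * lam ^ 2 * 2 ^ κ * (k0 + κ) + 2 * (κ + 1) * 2 ^ k0) ≤ 16 * K * l := by
      rw [mul_add]
      have := Nat.mul_le_mul_left (16 * K) e1
      omega
    exact Nat.le_of_mul_le_mul_left e6 (by positivity)
  have hLpos : (0 : ℝ) < 2 ^ La := by positivity
  have hDL : (D : ℝ) / 2 ^ La ≤ 1 / (16 * (s : ℝ) ^ 2) := by
    rw [div_le_div_iff₀ hLpos (by positivity), one_mul]
    have e1 : 64 * s ^ 2 * D ≤ n := by rw [hD]; exact Nat.mul_div_le n (64 * s ^ 2)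
    have e2 : n ≤ 4 * 2 ^ La := by
      have : 2 ^ (La + 1) = 2 * 2 ^ La := by ring
      omega
    have e3 : 4 * (D * (16 * s ^ 2)) ≤ 4 * 2 ^ La := by
      calc 4 * (D * (16 * s ^ 2)) = 64 * s ^ 2 * D := by ring
        _ ≤ n := e1
        _ ≤ _ := e2
    have e4 : D * (16 * s ^ 2) ≤ 2 ^ La := Nat.le_of_mul_le_mul_left e3 (by norm_num)
    exact_mod_cast e4
  have hjn : ∀ j < K, B0 + (2 * j + 2) * l ≤ n := by
    intro j hj
    have : (2 * j + 2) * l ≤ 2 * K * l := Nat.mul_le_mul_right _ (by omega)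
    omega
  -- the bad events
  have B1 : Pr p (Icc 1 n) (fun A => s * (UU x0 D A).card ≤ D) ≤ ρ ^ D := by
    have hX : Ioc x0 (x0 + D) ⊆ Icc 1 n := by
      intro a ha
      rw [Finset.mem_Ioc] at ha
      rw [Finset.mem_Icc]; omega
    have := tail h0 h1 hst hX
    rw [Nat.card_Ioc, show x0 + D - x0 = D by omega] at this
    simp only [UU_eq]
    exact this
  have B2 : Pr p (Icc 1 n) (fun A => ∃ j < K, s * (VV B0 l A j).card ≤ l) ≤ K * ρ ^ l := by
    refine (Pr_exists h0.le h1.le K).trans ?_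
    have : ∀ j ∈ range K, Pr p (Icc 1 n) (fun A => s * (VV B0 l A j).card ≤ l) ≤ ρ ^ l := by
      intro j hj
      have hjK := hjn j (Finset.mem_range.1 hj)
      have hX : Ioc (B0 + (2 * j + 1) * l) (B0 + (2 * j + 2) * l) ⊆ Icc 1 n := by
        intro a ha
        rw [Finset.mem_Ioc] at ha
        rw [Finset.mem_Icc]; omega
      have := tail h0 h1 hst hX
      have e : B0 + (2 * j + 2) * l - (B0 + (2 * j + 1) * l) = l := by
        have : (2 * j + 2) * l = (2 * j + 1) * l + l := by ring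
        omega
      rw [Nat.card_Ioc, e] at this
      simp only [VV_eq]
      exact this
    refine (Finset.sum_le_sum this).trans (le_of_eq ?_)
    rw [Finset.sum_const, Finset.card_range, nsmul_eq_mul]
  have hpp : 0 ≤ p * (1 - p) := mul_nonneg h0.le (by linarith)
  have hpp1 : p * (1 - p) ≤ 1 := by nlinarith
  have hη : 0 ≤ 1 - (p * (1 - p)) ^ (2 ^ κ) := by
    have := pow_le_one₀ (n := 2 ^ κ) hpp hpp1
    linarith
  have B3 : Pr p (Icc 1 n) (fun A => ∃ j < K, ¬ GG La (lam ^ 2) B0 l d q j A)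
      ≤ K * (lam * (1 - (p * (1 - p)) ^ (2 ^ κ)) ^ (lam ^ 2)) := by
    refine (Pr_exists h0.le h1.le K).trans ?_
    have : ∀ j ∈ range K, Pr p (Icc 1 n) (fun A => ¬ GG La (lam ^ 2) B0 l d q j A)
        ≤ lam * (1 - (p * (1 - p)) ^ (2 ^ κ)) ^ (lam ^ 2) := by
      intro j hj
      have hjK := hjn j (Finset.mem_range.1 hj)
      have hj2 : (2 * j + 2) * l = 2 * j * l + 2 * l := by ring
      have hsys := sys_exist (b := B0 + 2 * j * l + 1) (N := lam ^ 2) hdpos hdq La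
      have hsp := hspan (B0 + 2 * j * l + 1)
      have hIG : Ico (B0 + 2 * j * l + 1) (off (B0 + 2 * j * l + 1) (lam ^ 2) d q La) ⊆ Icc 1 n := by
        intro a ha
        rw [Finset.mem_Ico] at ha
        rw [Finset.mem_Icc]; omega
      have hQ : ∀ k < La, ∀ c < lam ^ 2, (Lo (B0 + 2 * j * l + 1) (lam ^ 2) d q k c).card ≤ 2 ^ κ := by
        intro k hk c _
        refine (card_Lo_le k c).trans ?_
        simp only [hq]
        apply Nat.pow_le_pow_right (by norm_num)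
        omega
      have key := fail_le hsys h0.le h1.le hIG (2 ^ κ) hQ (fun _ => (1 : ℝ)) (fun _ _ => zero_le_one)
        (fun _ _ => rfl)
      rw [Ex_const, mul_one] at key
      have e1 : Pr p (Icc 1 n) (fun A => ¬ GG La (lam ^ 2) B0 l d q j A)
          = Ex p (Icc 1 n) (fun A => if Good La (lam ^ 2) (Lo (B0 + 2 * j * l + 1) (lam ^ 2) d q)
            (Hi (B0 + 2 * j * l + 1) (lam ^ 2) d q) A then 0 else (1 : ℝ)) := by
        unfold Pr GG
        apply Ex_congr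
        intro A _
        by_cases hg : Good La (lam ^ 2) (Lo (B0 + 2 * j * l + 1) (lam ^ 2) d q)
            (Hi (B0 + 2 * j * l + 1) (lam ^ 2) d q) A
        · rw [if_neg (not_not.2 hg), if_pos hg]
        · rw [if_pos hg, if_neg hg]
      rw [e1]
      refine key.trans ?_
      apply mul_le_mul_of_nonneg_right _ (pow_nonneg hη _)
      exact_mod_cast hLalam
    refine (Finset.sum_le_sum this).trans (le_of_eq ?_)
    rw [Finset.sum_const, Finset.card_range, nsmul_eq_mul]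
  have B4 := b4_prob h0.le h1.le (n := n) (K := K) (s := s) (N := lam ^ 2) hdpos hdq hspan hxB hLapow hDpos hlpos hs hBn hDL
  have hl4 : 4 * (8 * lam ^ 2 * lam + 8) * (8 * lam ^ 2 * lam + 8) ≤ l := by
    rw [hl, Nat.le_div_iff_mul_le (by positivity), mul_comm]
    exact c5
  have B5 := b5_prob h0.le h1.le (n := n) (s := s) (N := lam ^ 2) (lam := lam) hxB hnx le_rfl hln c6 hDpos hlpos hs hK hl4
  -- conclusion
  have hsum : Pr p (Icc 1 n) (fun A => ¬ ((n : ℝ) ^ 2 / (4096 * (s : ℝ) ^ 4) ≤ (consecSums A).card))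
      ≤ Pr p (Icc 1 n) (fun A => ((((s * (UU x0 D A).card ≤ D) ∨ (∃ j < K, s * (VV B0 l A j).card ≤ l)) ∨
        (∃ j < K, ¬ GG La (lam ^ 2) B0 l d q j A)) ∨
        ((K : ℝ) / (4 * (s : ℝ) ^ 2) ≤ ∑ j ∈ range K, xj La (lam ^ 2) x0 D B0 l d q j A)) ∨
        ((K * D * l : ℝ) / (4 * (s : ℝ) ^ 2) ≤ (innA x0 D B0 l K A : ℝ))) := by
    apply Pr_mono h0.le h1.le
    intro A _ hA
    by_contra hcon
    push Not at hcon
    obtain ⟨⟨⟨⟨g1, g2⟩, g3⟩, g4⟩, g5⟩ := hcon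
    apply hA
    refine le_trans ?_ (det_step hxB hDpos hlpos hs (by omega) (fun j hj => by have := g2 j hj; omega) g3 g4 g5)
    have f1 : (n : ℝ) ≤ 128 * (s : ℝ) ^ 2 * D := by
      have : n ≤ 128 * s ^ 2 * D := by
        have e1 : 64 * s ^ 2 * (D + 1) ≤ 64 * s ^ 2 * (D + D) := Nat.mul_le_mul_left _ (by omega)
        have e2 : 64 * s ^ 2 * (D + D) = 128 * s ^ 2 * D := by ring
        omega
      exact_mod_cast this
    have f2 : (n : ℝ) ≤ 16 * K * l := by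
      have : n ≤ 16 * K * l := by
        have e1 : 8 * K * (l + 1) ≤ 8 * K * (l + l) := Nat.mul_le_mul_left _ (by omega)
        have e2 : 8 * K * (l + l) = 16 * K * l := by ring
        omega
      exact_mod_cast this
    rw [div_le_div_iff₀ (by positivity) (by positivity)]
    have f3 : (n : ℝ) ^ 2 ≤ (128 * (s : ℝ) ^ 2 * D) * (16 * K * l) := by
      rw [sq]
      exact mul_le_mul f1 f2 (Nat.cast_nonneg _) (by positivity)
    calc (n : ℝ) ^ 2 * (2 * (s : ℝ) ^ 2) ≤ ((128 * (s : ℝ) ^ 2 * D) * (16 * K * l)) * (2 * (s : ℝ) ^ 2) :=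
          mul_le_mul_of_nonneg_right f3 (by positivity)
      _ = K * D * l * (4096 * (s : ℝ) ^ 4) := by ring
  refine hsum.trans ?_
  refine (Pr_or h0.le h1.le).trans (add_le_add ?_ B5)
  refine (Pr_or h0.le h1.le).trans (add_le_add ?_ B4)
  refine (Pr_or h0.le h1.le).trans (add_le_add ?_ B3)
  exact (Pr_or h0.le h1.le).trans (add_le_add B1 B2)

end R851CS
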