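import Mathlib
import Pool.Agent.R851.CS.Main

namespace R851CS
open Finset Filter Topology

theorem log_tendsto : Tendsto (Nat.log 2) atTop atTop :=
  tendsto_atTop.2 (fun b => eventually_atTop.2 ⟨2 ^ b, fun _ hn => Nat.le_log_of_pow_le (by norm_num) hn⟩)

theorem pow_le_two_pow (C k : ℕ) : ∀ᶠ m : ℕ in atTop, C * m ^ k ≤ 2 ^ m := by
  have h := tendsto_pow_const_div_const_pow_of_one_lt k (show (1 : ℝ) < 2 by norm_num)
  have h2 : ∀ᶠ m : ℕ in atTop, (m : ℝ) ^ k / 2 ^ m < 1 / (C + 1) :=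
    h.eventually (gt_mem_nhds (by positivity))
  filter_upwards [h2] with m hm
  rw [div_lt_div_iff₀ (by positivity) (by positivity)] at hm
  have h3 : (C : ℝ) * m ^ k ≤ 2 ^ m := by
    have : (0 : ℝ) ≤ (m : ℝ) ^ k := by positivity
    nlinarith
  exact_mod_cast h3

theorem log_pow_le (C k : ℕ) : ∀ᶠ n : ℕ in atTop, C * (Nat.log 2 n) ^ k ≤ n := by
  filter_upwards [log_tendsto.eventually (pow_le_two_pow C k), eventually_ge_atTop 1] with n hn hn1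
  exact hn.trans (Nat.pow_log_le_self 2 (by omega))

theorem decay {η : ℝ} (h0 : 0 ≤ η) (h1 : η < 1) :
    Tendsto (fun n : ℕ => (n : ℝ) * ((Nat.log 2 n : ℕ) * η ^ ((Nat.log 2 n) ^ 2))) atTop (𝓝 0) := by
  have hlim : Tendsto (fun n : ℕ => 2 * (1 / 2 : ℝ) ^ (Nat.log 2 n)) atTop (𝓝 0) := by
    have : Tendsto (fun m : ℕ => (1 / 2 : ℝ) ^ m) atTop (𝓝 0) :=
      tendsto_pow_atTop_nhds_zero_of_lt_one (by norm_num) (by norm_num)
    have h2 := (this.comp log_tendsto).const_mul 2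
    rw [mul_zero] at h2
    exact h2
  have h8 : ∀ᶠ m : ℕ in atTop, η ^ m < 1 / 8 :=
    (tendsto_pow_atTop_nhds_zero_of_lt_one h0 h1).eventually (gt_mem_nhds (by norm_num))
  refine tendsto_of_tendsto_of_tendsto_of_le_of_le' tendsto_const_nhds hlim ?_ ?_
  · exact Eventually.of_forall (fun n => by positivity)
  · filter_upwards [log_tendsto.eventually h8] with n hn
    set m := Nat.log 2 n with hm
    have e1 : (n : ℝ) ≤ 2 * 2 ^ m := by
      have := Nat.lt_pow_succ_log_self (show 1 < 2 by norm_num) n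
      rw [← hm] at this
      have h3 : n ≤ 2 * 2 ^ m := by
        have : 2 ^ (m + 1) = 2 * 2 ^ m := by ring
        omega
      exact_mod_cast h3
    have e2 : (m : ℝ) ≤ 2 ^ m := by exact_mod_cast Nat.lt_two_pow_self.le
    have e3 : η ^ (m ^ 2) ≤ (1 / 8) ^ m := by
      rw [sq, pow_mul]
      exact pow_le_pow_left₀ (by positivity) hn.le m
    calc (n : ℝ) * (m * η ^ (m ^ 2)) ≤ (2 * 2 ^ m) * (2 ^ m * (1 / 8) ^ m) := by
          apply mul_le_mul e1 _ (by positivity) (by positivity)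
          exact mul_le_mul e2 e3 (by positivity) (by positivity)
      _ = 2 * (1 / 2) ^ m := by
          have : (1 / 2 : ℝ) = 2 * (2 * (1 / 8)) := by norm_num
          rw [this, mul_pow, mul_pow]; ring

theorem final {p : ℝ} (h0 : 0 < p) (h1 : p < 1) : ∃ c : ℝ, 0 < c ∧
    ∀ a : ℝ, a < 1 → ∀ᶠ n : ℕ in atTop, a < Pr p (Icc 1 n) (fun A => c * (n : ℝ) ^ 2 ≤ (consecSums A).card) := by
  -- the choice of `s`
  obtain ⟨s, hs, hst⟩ : ∃ s : ℕ, 0 < s ∧ (1 - p / 4) ^ s ≤ 1 / 2 := by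
    have h := tendsto_pow_atTop_nhds_zero_of_lt_one (show 0 ≤ 1 - p / 4 by linarith) (show 1 - p / 4 < 1 by linarith)
    have h2 : ∀ᶠ m : ℕ in atTop, (1 - p / 4) ^ m < 1 / 2 := h.eventually (gt_mem_nhds (by norm_num))
    obtain ⟨m, hm, hm'⟩ := (h2.and (eventually_gt_atTop 0)).exists
    exact ⟨m, hm', hm.le⟩
  have hsR : (0 : ℝ) < s := by exact_mod_cast hs
  refine ⟨1 / (4096 * (s : ℝ) ^ 4), by positivity, ?_⟩
  intro a ha
  set ε := 1 - a with hε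
  have hεpos : 0 < ε := by linarith
  -- the choice of `K`
  obtain ⟨K, hK, hKε⟩ : ∃ K : ℕ, 0 < K ∧ Real.exp (-(K / (16 * (s : ℝ) ^ 2))) + 276 * (s : ℝ) ^ 2 / K < ε / 2 := by
    have t1 : Tendsto (fun K : ℕ => Real.exp (-((K : ℝ) / (16 * (s : ℝ) ^ 2)))) atTop (𝓝 0) := by
      apply Real.tendsto_exp_neg_atTop_nhds_zero.comp
      exact tendsto_natCast_atTop_atTop.atTop_div_const (by positivity)
    have t2 : Tendsto (fun K : ℕ => 276 * (s : ℝ) ^ 2 / (K : ℝ)) atTop (𝓝 0) :=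
      tendsto_const_div_atTop_nhds_zero_nat _
    have t3 := t1.add t2
    rw [add_zero] at t3
    have h2 := t3.eventually (gt_mem_nhds (show 0 < ε / 2 by linarith))
    obtain ⟨m, hm, hm'⟩ := (h2.and (eventually_gt_atTop 0)).exists
    exact ⟨m, hm', hm⟩
  -- the choice of `κ`
  obtain ⟨κ, hκ⟩ : ∃ κ : ℕ, 32 * K * (κ + 1) ≤ 2 ^ κ := by
    obtain ⟨m, hm, hm1⟩ := ((pow_le_two_pow (64 * K) 1).and (eventually_ge_atTop 1)).exists
    refine ⟨m, le_trans ?_ hm⟩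
    rw [pow_one]
    calc 32 * K * (m + 1) ≤ 32 * K * (m + m) := Nat.mul_le_mul_left _ (by omega)
      _ = 64 * K * m := by ring
  have hpp : 0 < p * (1 - p) := mul_pos h0 (by linarith)
  have hpp1 : p * (1 - p) ≤ 1 := by nlinarith
  have hρ0 : 0 ≤ (1 - p / 2) / (1 - p / 4) := div_nonneg (by linarith) (by linarith)
  have hρ1 : (1 - p / 2) / (1 - p / 4) < 1 := by
    rw [div_lt_one (by linarith)]; linarith
  have hη1 : 1 - p * (1 - p) < 1 := by linarith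
  have hη0 : 0 ≤ 1 - p * (1 - p) := by linarith
  have hζ1 : 1 - (p * (1 - p)) ^ (2 ^ κ) < 1 := by
    have : 0 < (p * (1 - p)) ^ (2 ^ κ) := pow_pos hpp _
    linarith
  have hζ0 : 0 ≤ 1 - (p * (1 - p)) ^ (2 ^ κ) := by
    have := pow_le_one₀ (n := 2 ^ κ) hpp.le hpp1
    linarith
  have E6 : ∀ᶠ n : ℕ in atTop, (n : ℝ) * ((Nat.log 2 n : ℕ) * (1 - p * (1 - p)) ^ ((Nat.log 2 n) ^ 2)) < 1 :=
    (decay hη0 hη1).eventually (gt_mem_nhds zero_lt_one)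
  have hdiv : ∀ m : ℕ, 0 < m → Tendsto (fun n : ℕ => n / m) atTop atTop := fun m hm =>
    tendsto_atTop.2 (fun b => eventually_atTop.2 ⟨b * m, fun n hn => (Nat.le_div_iff_mul_le hm).2 hn⟩)
  have T1 : Tendsto (fun n : ℕ => ((1 - p / 2) / (1 - p / 4)) ^ (n / (64 * s ^ 2))) atTop (𝓝 0) :=
    (tendsto_pow_atTop_nhds_zero_of_lt_one hρ0 hρ1).comp (hdiv _ (by positivity))
  have T2 : Tendsto (fun n : ℕ => (K : ℝ) * ((1 - p / 2) / (1 - p / 4)) ^ (n / (8 * K))) atTop (𝓝 0) := by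
    have := ((tendsto_pow_atTop_nhds_zero_of_lt_one hρ0 hρ1).comp (hdiv (8 * K) (by positivity))).const_mul (K : ℝ)
    rw [mul_zero] at this
    exact this
  have T3 : Tendsto (fun n : ℕ => (K : ℝ) * ((n : ℝ) * ((Nat.log 2 n : ℕ) *
      (1 - (p * (1 - p)) ^ (2 ^ κ)) ^ ((Nat.log 2 n) ^ 2)))) atTop (𝓝 0) := by
    have := (decay hζ0 hζ1).const_mul (K : ℝ)
    rw [mul_zero] at this
    exact this
  have T := (T1.add T2).add T3
  rw [add_zero, add_zero] at T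
  have ET := T.eventually (gt_mem_nhds (show 0 < ε / 2 by linarith))
  filter_upwards [ET, E6, log_pow_le (32 * K * 2 ^ κ) 3, log_pow_le (8 * K * (4 * 256)) 6,
    eventually_ge_atTop (32 * K + 2), eventually_ge_atTop (64 * s ^ 2), eventually_ge_atTop (2 * 2 ^ κ),
    log_tendsto.eventually (eventually_ge_atTop 1)] with n g1 g2 g3 g4 g5 g6 g7 g8
  have c5 : 8 * K * (4 * (8 * (Nat.log 2 n) ^ 2 * Nat.log 2 n + 8) * (8 * (Nat.log 2 n) ^ 2 * Nat.log 2 n + 8)) ≤ n := by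
    refine le_trans ?_ g4
    have e1 : 8 * (Nat.log 2 n) ^ 2 * Nat.log 2 n + 8 ≤ 16 * (Nat.log 2 n) ^ 3 := by
      have e2 : 8 * (Nat.log 2 n) ^ 2 * Nat.log 2 n = 8 * (Nat.log 2 n) ^ 3 := by ring
      have e3 : 1 ≤ (Nat.log 2 n) ^ 3 := Nat.one_le_pow _ _ g8
      omega
    calc 8 * K * (4 * (8 * (Nat.log 2 n) ^ 2 * Nat.log 2 n + 8) * (8 * (Nat.log 2 n) ^ 2 * Nat.log 2 n + 8))
        ≤ 8 * K * (4 * (16 * (Nat.log 2 n) ^ 3) * (16 * (Nat.log 2 n) ^ 3)) := by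
          apply Nat.mul_le_mul_left
          exact Nat.mul_le_mul (Nat.mul_le_mul_left _ e1) e1
      _ = 8 * K * (4 * 256) * (Nat.log 2 n) ^ 6 := by ring
  have key := step_n h0 h1 hs hst hK hκ (by omega) g3 g5 g6 c5 g2.le
  rw [Pr_not] at key
  have hcc : Pr p (Icc 1 n) (fun A => (n : ℝ) ^ 2 / (4096 * (s : ℝ) ^ 4) ≤ (consecSums A).card)
      = Pr p (Icc 1 n) (fun A => 1 / (4096 * (s : ℝ) ^ 4) * (n : ℝ) ^ 2 ≤ (consecSums A).card) := by
    congr 1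
    funext A
    rw [one_div_mul_eq_div]
  rw [hcc] at key
  have hn1 : (1 : ℝ) ≤ n := by exact_mod_cast (show 1 ≤ n by omega)
  have e4 : (K : ℝ) * ((Nat.log 2 n : ℕ) * (1 - (p * (1 - p)) ^ (2 ^ κ)) ^ ((Nat.log 2 n) ^ 2))
      ≤ (K : ℝ) * ((n : ℝ) * ((Nat.log 2 n : ℕ) * (1 - (p * (1 - p)) ^ (2 ^ κ)) ^ ((Nat.log 2 n) ^ 2))) := by
    apply mul_le_mul_of_nonneg_left _ (Nat.cast_nonneg _)
    have : 0 ≤ ((Nat.log 2 n : ℕ) : ℝ) * (1 - (p * (1 - p)) ^ (2 ^ κ)) ^ ((Nat.log 2 n) ^ 2) :=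
      mul_nonneg (Nat.cast_nonneg _) (pow_nonneg hζ0 _)
    nlinarith
  linarith

end R851CS
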